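import Pool.Agent.H520Z.Sel.Defs2

set_option autoImplicit false

namespace Pool.Agent.H520Z.Sel

open MeasureTheory Set Filter Topology

namespace H511

open Complex in
theorem norm_line (f : ℝ → ℂ) (σ u t : ℝ) (ht : 0 < t) :
    ‖(t : ℂ) ^ ((σ : ℂ) + u * I - 1) • f t‖ = ‖(t : ℂ) ^ ((σ : ℂ) - 1) • f t‖ := by
  simp [norm_cpow_eq_rpow_re_of_pos ht]

open Complex in
theorem meas_line {f : ℝ → ℂ} {σ : ℝ} (hf : MellinConvergent f σ) (u : ℝ) :
    AEStronglyMeasurable (fun t : ℝ => (t : ℂ) ^ ((σ : ℂ) + u * I - 1) • f t)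
      (volume.restrict (Ioi 0)) := by
  have h1 : ContinuousOn (fun t : ℝ => (t : ℂ) ^ ((u : ℂ) * I)) (Ioi 0) := fun t ht =>
    (continuousAt_ofReal_cpow_const _ _ (Or.inr (ne_of_gt ht))).continuousWithinAt
  have h2 := (h1.aestronglyMeasurable measurableSet_Ioi).smul hf.1
  refine h2.congr ?_
  filter_upwards [ae_restrict_mem measurableSet_Ioi] with t ht
  have h0 : (t : ℂ) ≠ 0 := ofReal_ne_zero.2 (ne_of_gt ht)
  simp only [Pi.smul_apply', smul_eq_mul]
  rw [← mul_assoc, ← cpow_add _ _ h0]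
  congr 2
  ring

open Complex in
theorem conv_line {f : ℝ → ℂ} {σ : ℝ} (hf : MellinConvergent f σ) (u : ℝ) :
    MellinConvergent f ((σ : ℂ) + u * I) := by
  refine Integrable.mono hf (meas_line hf u) ?_
  filter_upwards [ae_restrict_mem measurableSet_Ioi] with t ht
  exact (norm_line f σ u t ht).le

open Complex in
theorem cont_line {f : ℝ → ℂ} {σ : ℝ} (hf : MellinConvergent f σ) :
    Continuous fun u : ℝ => mellin f ((σ : ℂ) + u * I) := by
  refine continuous_of_dominated (bound := fun t : ℝ => ‖(t : ℂ) ^ ((σ : ℂ) - 1) • f t‖)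
    (meas_line hf) (fun u => ?_) hf.norm ?_
  · filter_upwards [ae_restrict_mem measurableSet_Ioi] with t ht
    exact (norm_line f σ u t ht).le
  · filter_upwards [ae_restrict_mem measurableSet_Ioi] with t ht
    have h0 : (t : ℂ) ≠ 0 := ofReal_ne_zero.2 (ne_of_gt ht)
    have h1 : Continuous fun u : ℝ => (t : ℂ) ^ ((σ : ℂ) + u * I - 1) :=
      Continuous.const_cpow (by fun_prop) (Or.inl h0)
    exact h1.smul continuous_const

theorem cpow_exp {r : ℝ} (hr : 0 < r) (z : ℂ) :
    (r : ℂ) ^ z = Complex.exp (z * (Real.log r : ℝ)) := by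
  rw [Complex.cpow_def_of_ne_zero (Complex.ofReal_ne_zero.2 hr.ne'), ← Complex.ofReal_log hr.le,
    mul_comm]

noncomputable def Gt (k t : ℝ) (w : ℂ) : ℂ :=
  Complex.exp (-w * (Real.log t : ℝ)) - Complex.exp ((w - k) * (Real.log t : ℝ))

theorem gen_mellin (k : ℝ) (f : ℝ → ℝ) (s : ℂ) (hf : MellinConvergent (fun y => (f y : ℂ)) s)
    {t : ℝ} (ht : 0 < t) :
    HasMellin (fun y => ((f (t * y) - t ^ (-k) * f (y / t) : ℝ) : ℂ)) s
      (mellin (fun y => (f y : ℂ)) s * Gt k t s) := by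
  have ht' : 0 < t⁻¹ := inv_pos.2 ht
  have h1 := (MellinConvergent.comp_mul_left (f := fun y => (f y : ℂ)) (s := s) ht).2 hf
  have h2 := (MellinConvergent.comp_mul_left (f := fun y => (f y : ℂ)) (s := s) ht').2 hf
  have h3 := hasMellin_const_smul h2 (((t ^ (-k) : ℝ)) : ℂ)
  have h4 := hasMellin_sub h1 h3.1
  rw [h3.2, mellin_comp_mul_left (fun y => (f y : ℂ)) s ht,
    mellin_comp_mul_left (fun y => (f y : ℂ)) s ht'] at h4
  convert h4 using 1
  · funext y
    simp [div_eq_inv_mul]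
  · rw [cpow_exp ht, cpow_exp ht', Real.log_inv, Real.rpow_def_of_pos ht, Gt]
    simp only [smul_eq_mul]
    push_cast
    rw [← mul_assoc, ← Complex.exp_add, mul_sub]
    congr 1
    · ring
    · rw [mul_comm]; congr 2; ring

theorem Gt_bound (k t a b : ℝ) : ∃ B : ℝ, ∀ w : ℂ, a ≤ w.re → w.re ≤ b → ‖Gt k t w‖ ≤ B := by
  refine ⟨Real.exp ((|a| + |b|) * |Real.log t|) + Real.exp ((|a| + |b| + |k|) * |Real.log t|),
    fun w h1 h2 => (norm_sub_le _ _).trans (add_le_add ?_ ?_)⟩
  all_goals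
    rw [Complex.norm_exp, Real.exp_le_exp]
    have h3 : |w.re| ≤ |a| + |b| := by
      rw [abs_le]
      constructor
      · linarith [neg_abs_le a, abs_nonneg b]
      · linarith [le_abs_self b, abs_nonneg a]
    refine (le_abs_self _).trans ?_
    simp only [Complex.mul_re, Complex.ofReal_re, Complex.ofReal_im, mul_zero, sub_zero, abs_mul,
      Complex.neg_re, Complex.sub_re, abs_neg]
    refine mul_le_mul_of_nonneg_right ?_ (abs_nonneg _)
  · exact h3
  · exact (abs_sub _ _).trans (by linarith)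

def Rep (k a b c1 : ℝ) (E E' : ℝ → ℝ) (h : ℝ → ℝ) : Prop :=
  ∃ (h' : ℝ → ℝ) (G : ℂ → ℂ), (∀ y, 0 < y → HasDerivAt h (h' y) y) ∧ ContinuousOn h' (Ioi 0) ∧
    Differentiable ℂ G ∧ (∃ B : ℝ, ∀ w : ℂ, a ≤ w.re → w.re ≤ b → ‖G w‖ ≤ B) ∧
    (∀ w, G (k - w) = -G w) ∧ (∀ w, G (starRingEnd ℂ w) = starRingEnd ℂ (G w)) ∧
    (∀ u : ℝ, HasMellin (fun y => (h y : ℂ)) ((b : ℂ) + u * Complex.I)
      (mellin (fun y => (E y : ℂ)) ((b : ℂ) + u * Complex.I) * G ((b : ℂ) + u * Complex.I))) ∧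
    (∀ u : ℝ, HasMellin (fun y => ((y * h' y : ℝ) : ℂ)) ((c1 : ℂ) + u * Complex.I)
      (mellin (fun y => ((y * E' y : ℝ) : ℂ)) ((c1 : ℂ) + u * Complex.I) *
        G ((c1 : ℂ) + u * Complex.I)))

theorem rep_of_mem (k a b c1 : ℝ) (E E' : ℝ → ℝ)
    (hE : ∀ y, 0 < y → HasDerivAt E (E' y) y) (hE' : ContinuousOn E' (Ioi 0))
    (h2 : MellinConvergent (fun y => (E y : ℂ)) (b : ℂ))
    (h1 : MellinConvergent (fun y => ((y * E' y : ℝ) : ℂ)) (c1 : ℂ))
    (h : ℝ → ℝ) (hh : h ∈ Vsp k E) : Rep k a b c1 E E' h := by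
  induction hh using Submodule.span_induction with
  | mem x hx =>
    obtain ⟨t, ht, rfl⟩ := hx
    refine ⟨fun y => E' (t * y) * t - t ^ (-k) * (E' (y / t) * t⁻¹), Gt k t, fun y hy => ?_, ?_,
      ?_, Gt_bound k t a b, fun w => ?_, fun w => ?_, fun u => gen_mellin k E _ (conv_line h2 u) ht,
      fun u => ?_⟩
    · have e1 : HasDerivAt (fun y => t * y) t y := by simpa using (hasDerivAt_id y).const_mul t
      have e2 : HasDerivAt (fun y => y / t) t⁻¹ y := by
        simpa [one_div] using (hasDerivAt_id y).div_const t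
      exact ((hE _ (mul_pos ht hy)).comp y e1).sub
        (((hE _ (div_pos hy ht)).comp y e2).const_mul _)
    · have e1 : ContinuousOn (fun y => E' (t * y)) (Ioi 0) :=
        hE'.comp (by fun_prop) fun y hy => mul_pos ht hy
      have e2 : ContinuousOn (fun y => E' (y / t)) (Ioi 0) :=
        hE'.comp (by fun_prop) fun y hy => div_pos hy ht
      exact (e1.mul continuousOn_const).sub
        (continuousOn_const.mul (e2.mul continuousOn_const))
    · unfold Gt; fun_prop
    · unfold Gt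
      ring_nf
    · unfold Gt
      simp [← Complex.exp_conj]
    · have := gen_mellin k (fun y => y * E' y) _ (conv_line h1 u) ht
      convert this using 3 with y
      rw [div_eq_mul_inv]; ring_nf
  | zero =>
    refine ⟨fun _ => 0, fun _ => 0, fun y _ => hasDerivAt_const y 0, continuousOn_const,
      differentiable_const _, ⟨0, by simp⟩, by simp, by simp, fun u => ?_, fun u => ?_⟩ <;>
    simp [HasMellin, MellinConvergent, mellin]
  | add x y _ _ hx hy =>
    obtain ⟨x', G, a1, a2, a3, ⟨B, a4⟩, a5, a6, a7, a8⟩ := hx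
    obtain ⟨y', H, b1, b2, b3, ⟨B', b4⟩, b5, b6, b7, b8⟩ := hy
    refine ⟨fun t => x' t + y' t, fun w => G w + H w, fun t ht => (a1 t ht).add (b1 t ht),
      a2.add b2, a3.add b3, ⟨B + B', fun w h1 h2 =>
        (norm_add_le _ _).trans (add_le_add (a4 w h1 h2) (b4 w h1 h2))⟩, fun w => ?_,
      fun w => ?_, fun u => ?_, fun u => ?_⟩
    · simp only [a5, b5]; ring
    · simp only [a6, b6, map_add]
    · have := hasMellin_add (a7 u).1 (b7 u).1
      rw [(a7 u).2, (b7 u).2, ← mul_add] at this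
      convert this using 2 with t
      simp
    · have := hasMellin_add (a8 u).1 (b8 u).1
      rw [(a8 u).2, (b8 u).2, ← mul_add] at this
      convert this using 2 with t
      push_cast; ring
  | smul r x _ hx =>
    obtain ⟨x', G, a1, a2, a3, ⟨B, a4⟩, a5, a6, a7, a8⟩ := hx
    refine ⟨fun t => r * x' t, fun w => r * G w, fun t ht => (a1 t ht).const_mul r,
      continuousOn_const.mul a2, a3.const_mul _, ⟨|r| * B, fun w h1 h2 => ?_⟩, fun w => ?_,
      fun w => ?_, fun u => ?_, fun u => ?_⟩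
    · rw [norm_mul, Complex.norm_real, Real.norm_eq_abs]
      exact mul_le_mul_of_nonneg_left (a4 w h1 h2) (abs_nonneg _)
    · simp only [a5]; ring
    · simp only [a6, map_mul, Complex.conj_ofReal]
    · have := hasMellin_const_smul (a7 u).1 (r : ℂ)
      rw [(a7 u).2] at this
      convert this using 1
      · funext t; simp
      · simp only [smul_eq_mul]; ring
    · have := hasMellin_const_smul (a8 u).1 (r : ℂ)
      rw [(a8 u).2] at this
      convert this using 1
      · funext t; simp only [smul_eq_mul]; push_cast; ring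
      · simp only [smul_eq_mul]; ring

theorem int_g : IntegrableOn (fun y : ℝ => y ^ (-(1 / 2) : ℝ) / (y + 1)) (Ioi 0) := by
  have hc : ContinuousOn (fun y : ℝ => y ^ (-(1 / 2) : ℝ) / (y + 1)) (Ioi 0) := by
    intro y hy
    have hy : 0 < y := hy
    exact ((Real.continuousAt_rpow_const _ _ (Or.inl hy.ne')).div (by fun_prop)
      (by positivity)).continuousWithinAt
  rw [← Ioo_union_Ici_eq_Ioi (zero_lt_one' ℝ)]
  refine IntegrableOn.union ?_ ?_
  · have h1 : IntegrableOn (fun y : ℝ => y ^ (-(1 / 2) : ℝ)) (Ioo 0 1) :=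
      (intervalIntegral.integrableOn_Ioo_rpow_iff zero_lt_one).2 (by norm_num)
    refine Integrable.mono' h1 ((hc.mono Ioo_subset_Ioi_self).aestronglyMeasurable
      measurableSet_Ioo) ?_
    filter_upwards [ae_restrict_mem measurableSet_Ioo] with y hy
    have hy0 : 0 < y := hy.1
    rw [Real.norm_of_nonneg (by positivity)]
    exact div_le_self (by positivity) (by linarith)
  · have h1 : IntegrableOn (fun y : ℝ => y ^ (-(3 / 2) : ℝ)) (Ici 1) :=
      (integrableOn_Ici_iff_integrableOn_Ioi).2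
        (integrableOn_Ioi_rpow_of_lt (by norm_num) zero_lt_one)
    refine Integrable.mono' h1 ((hc.mono fun y (hy : 1 ≤ y) =>
      lt_of_lt_of_le zero_lt_one hy).aestronglyMeasurable measurableSet_Ici) ?_
    filter_upwards [ae_restrict_mem measurableSet_Ici] with y hy
    have hy0 : 0 < y := lt_of_lt_of_le zero_lt_one hy
    rw [Real.norm_of_nonneg (by positivity),
      show (-(3 / 2) : ℝ) = -(1 / 2) - 1 by norm_num, Real.rpow_sub_one hy0.ne']
    exact div_le_div_of_nonneg_left (by positivity) hy0 (by linarith)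

theorem mellin_bound (c N u : ℝ) (h : ℝ → ℝ)
    (hN : ∀ y, 0 < y → (y ^ c + y ^ (c - 1)) * |h y| ≤ N) :
    ‖mellin (fun y => (h y : ℂ)) (((c - 1 / 2 : ℝ) : ℂ) + u * Complex.I)‖ ≤
      N * ∫ y in Ioi (0 : ℝ), y ^ (-(1 / 2) : ℝ) / (y + 1) := by
  rw [← integral_const_mul]
  refine norm_integral_le_of_norm_le (int_g.const_mul N) ?_
  filter_upwards [ae_restrict_mem measurableSet_Ioi] with y hy
  have hy : 0 < y := hy
  have h1 := hN y hy
  rw [norm_smul, Complex.norm_cpow_eq_rpow_re_of_pos hy, Complex.norm_real, Real.norm_eq_abs]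
  have e1 : (((c - 1 / 2 : ℝ) : ℂ) + u * Complex.I - 1).re = (c - 1) + -(1 / 2) := by
    simp; ring
  have e2 : y ^ c = y ^ (c - 1) * y := by
    rw [Real.rpow_sub_one hy.ne']; field_simp
  rw [e1, Real.rpow_add hy, ← mul_div_assoc, le_div_iff₀ (by linarith)]
  rw [e2] at h1
  have h3 : 0 < y ^ (-(1 / 2) : ℝ) := by positivity
  nlinarith [mul_le_mul_of_nonneg_right h1 h3.le]

end H511

open H511 in
theorem poincare (k c c1 A K : ℝ) (E E' W : ℝ → ℝ) (hc1 : k - (c - 1 / 2) ≤ c1)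
    (hc2 : c1 ≤ c - 1 / 2) (hk : k - (c - 1 / 2) < c - 1 / 2)
    (hE : ∀ y, 0 < y → HasDerivAt E (E' y) y) (hE' : ContinuousOn E' (Ioi 0))
    (hW : ∀ u v, W u ≤ W v * Real.exp (A * |u - v|))
    (h2 : MellinConvergent (fun y => (E y : ℂ)) ((c - 1 / 2 : ℝ) : ℂ))
    (h2' : ∀ u : ℝ, 1 ≤ W u * ‖mellin (fun y => (E y : ℂ)) (((c - 1 / 2 : ℝ) : ℂ) + u * Complex.I)‖)
    (h1 : MellinConvergent (fun y => ((y * E' y : ℝ) : ℂ)) (c1 : ℂ))
    (h1' : ∀ u : ℝ, W u * ‖mellin (fun y => ((y * E' y : ℝ) : ℂ)) ((c1 : ℂ) + u * Complex.I)‖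
      ≤ K / (1 + u ^ 2)) :
    ∃ C0 : ℝ, 0 ≤ C0 ∧ Poin (Vsp k E) c c1 C0 := by
  obtain ⟨C, hC, hPL⟩ := gauss_PL _ _ A hk
  set J : ℝ := ∫ y in Ioi (0 : ℝ), y ^ (-(1 / 2) : ℝ) / (y + 1) with hJ
  have hJ0 : 0 ≤ J := setIntegral_nonneg measurableSet_Ioi fun y (hy : 0 < y) => by positivity
  have hW0 : ∀ u, 0 < W u := fun u => by
    by_contra hc
    have := mul_nonpos_of_nonpos_of_nonneg (not_lt.1 hc) (norm_nonneg
      (mellin (fun y => (E y : ℂ)) (((c - 1 / 2 : ℝ) : ℂ) + u * Complex.I)))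
    linarith [h2' u]
  have hK : 0 ≤ K := by
    have := h1' 0
    have h3 := mul_nonneg (hW0 0).le (norm_nonneg
      (mellin (fun y => ((y * E' y : ℝ) : ℂ)) ((c1 : ℂ) + (0 : ℝ) * Complex.I)))
    simpa using h3.trans this
  refine ⟨C * J * K / 2, by positivity, fun h hh => ?_⟩
  obtain ⟨h', G, a1, a2, a3, ⟨B, a4⟩, a5, a6, a7, a8⟩ :=
    rep_of_mem k (k - (c - 1 / 2)) (c - 1 / 2) c1 E E' hE hE' h2 h1 h hh
  refine ⟨h', a1, a2, fun N hN y hy => ?_⟩
  have hN0 : 0 ≤ N := le_trans (by positivity) (hN 1 one_pos)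
  have hb : ∀ u : ℝ, ‖G (((c - 1 / 2 : ℝ) : ℂ) + u * Complex.I)‖ ≤ N * J * W u := by
    intro u
    have e1 := mellin_bound c N u h hN
    rw [(a7 u).2, norm_mul] at e1
    have e2 := mul_le_mul_of_nonneg_right (h2' u)
      (norm_nonneg (G (((c - 1 / 2 : ℝ) : ℂ) + u * Complex.I)))
    have e3 := mul_le_mul_of_nonneg_left e1 (hW0 u).le
    nlinarith
  have hG := hPL G (fun u => N * J * W u) a3 ⟨|B|, 0, fun w h3 h4 => by
      have := Real.one_le_exp (show 0 ≤ |B| * (1 + |w.im|) ^ (0 : ℝ) by positivity)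
      nlinarith [a4 w h3 h4, le_abs_self B, abs_nonneg B]⟩
    (fun u v => by
      have := mul_le_mul_of_nonneg_left (hW u v) (mul_nonneg hN0 hJ0)
      linarith)
    (fun w hw => by
      rcases hw with hw | hw
      · have e : w = k - starRingEnd ℂ (((c - 1 / 2 : ℝ) : ℂ) + w.im * Complex.I) := by
          apply Complex.ext <;> simp [hw]
        have := hb w.im
        rw [← Complex.norm_conj, ← a6, ← norm_neg, ← a5, ← e] at this
        exact this
      · have e : w = ((c - 1 / 2 : ℝ) : ℂ) + w.im * Complex.I := by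
          apply Complex.ext <;> simp [hw]
        have := hb w.im
        rw [← e] at this
        exact this)
  set f : ℝ → ℂ := fun y => ((y * h' y : ℝ) : ℂ) with hf
  have hf1 : MellinConvergent f c1 := by simpa using (a8 0).1
  have hm : ∀ u : ℝ, ‖mellin f ((c1 : ℂ) + u * Complex.I)‖ ≤ C * N * J * K * (1 + u ^ 2)⁻¹ := by
    intro u
    rw [(a8 u).2, norm_mul]
    have e1 := hG ((c1 : ℂ) + u * Complex.I) (by simpa using hc1) (by simpa using hc2)
    simp only [Complex.add_im, Complex.ofReal_im, Complex.mul_im, Complex.ofReal_re, Complex.I_im,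
      mul_one, Complex.I_re, mul_zero, add_zero, zero_add] at e1
    have e2 := mul_le_mul_of_nonneg_left e1 (norm_nonneg
      (mellin (fun y => ((y * E' y : ℝ) : ℂ)) ((c1 : ℂ) + u * Complex.I)))
    have e3 := mul_le_mul_of_nonneg_left (h1' u) (show 0 ≤ C * N * J by positivity)
    rw [div_eq_mul_inv] at e3
    nlinarith
  have hi : Integrable fun u : ℝ => C * N * J * K * (1 + u ^ 2)⁻¹ :=
    integrable_inv_one_add_sq.const_mul _
  have hv : Complex.VerticalIntegrable (mellin f) c1 :=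
    Integrable.mono' hi (cont_line hf1).aestronglyMeasurable (Eventually.of_forall hm)
  have hcont : ContinuousAt f y := by
    have : ContinuousAt h' y := a2.continuousAt (Ioi_mem_nhds hy)
    exact Complex.continuous_ofReal.continuousAt.comp (continuousAt_id.mul this)
  have hinv := mellinInv_mellin_eq c1 f hy hf1 hv hcont
  have hn : ‖∫ u : ℝ, (y : ℂ) ^ (-((c1 : ℂ) + u * Complex.I)) •
      mellin f ((c1 : ℂ) + u * Complex.I)‖ ≤ y ^ (-c1) * (C * N * J * K * Real.pi) := by
    rw [← integral_univ_inv_one_add_sq, ← integral_const_mul, ← integral_const_mul]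
    refine norm_integral_le_of_norm_le (hi.const_mul _) (Eventually.of_forall fun u => ?_)
    rw [norm_smul, Complex.norm_cpow_eq_rpow_re_of_pos hy]
    have : (-((c1 : ℂ) + u * Complex.I)).re = -c1 := by simp
    rw [this]
    exact mul_le_mul_of_nonneg_left (hm u) (by positivity)
  have hpi := Real.pi_pos
  have hfy : y * |h' y| ≤ y ^ (-c1) * (C * N * J * K / 2) := by
    have e1 : ‖f y‖ = y * |h' y| := by
      simp only [hf, Complex.norm_real, Real.norm_eq_abs, abs_mul, abs_of_pos hy]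
    rw [← e1, ← hinv, mellinInv, norm_smul, Real.norm_of_nonneg (by positivity)]
    refine (mul_le_mul_of_nonneg_left hn (by positivity)).trans (le_of_eq ?_)
    field_simp
  have e2 : y ^ c1 * y ^ (-c1) = 1 := by rw [← Real.rpow_add hy]; simp
  have e3 := mul_le_mul_of_nonneg_left hfy (show 0 ≤ y ^ c1 by positivity)
  rw [← mul_assoc (y ^ c1) (y ^ (-c1)), e2] at e3
  rw [Real.rpow_add_one hy.ne']
  nlinarith

end Pool.Agent.H520Z.Sel
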