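import Pool.Agent.H520Z.Sel.Defs3
import Pool.Agent.H949Z.Hecke.B

set_option autoImplicit false

namespace Pool.Agent.H520Z.Sel

open MeasureTheory Set Filter Topology

namespace H511L

open Pool.Agent.H949Z.Hecke

theorem cont_cpow (z : ℂ) : ContinuousOn (fun t : ℝ => (t : ℂ) ^ z) (Ioi 1) := fun _ ht =>
  (Complex.continuousAt_ofReal_cpow_const _ _
    (Or.inr (ne_of_gt (lt_trans zero_lt_one ht)))).continuousWithinAt

theorem int_decay {f : ℝ → ℂ} (hc : ContinuousOn f (Ioi 1)) {D b : ℝ} (hb : 0 < b)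
    (hd : ∀ t : ℝ, 1 < t → ‖f t‖ ≤ D * Real.exp (-b * t)) (z : ℂ) :
    IntegrableOn (fun t : ℝ => f t * (t : ℂ) ^ z) (Ioi 1) := by
  have h1 := (integrableOn_rpow_mul_exp_neg_mul_rpow (s := |z.re|) (p := 1)
    (lt_of_lt_of_le neg_one_lt_zero (abs_nonneg _)) one_pos hb).mono_set
    (Ioi_subset_Ioi zero_le_one)
  refine Integrable.mono' (h1.const_mul |D|)
    ((hc.mul (cont_cpow z)).aestronglyMeasurable measurableSet_Ioi) ?_
  filter_upwards [ae_restrict_mem measurableSet_Ioi] with t ht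
  have ht1 : (1 : ℝ) < t := ht
  have ht0 : 0 < t := lt_trans zero_lt_one ht1
  rw [norm_mul, Complex.norm_cpow_eq_rpow_re_of_pos ht0, Real.rpow_one]
  have e1 : t ^ z.re ≤ t ^ |z.re| := Real.rpow_le_rpow_of_exponent_le ht1.le (le_abs_self _)
  have e2 : ‖f t‖ ≤ |D| * Real.exp (-b * t) :=
    (hd t ht1).trans (mul_le_mul_of_nonneg_right (le_abs_self D) (Real.exp_pos _).le)
  calc ‖f t‖ * t ^ z.re ≤ (|D| * Real.exp (-b * t)) * t ^ |z.re| := by gcongr
    _ = _ := by ring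

theorem mellin_split {lam : ℝ} (f : ℝ → ℂ)
    (hint : ∀ z : ℂ, IntegrableOn (fun t : ℝ => f t * (t : ℂ) ^ z) (Ioi 1))
    (hFE : ∀ t : ℝ, 0 < t → f t⁻¹ = (t : ℂ) ^ (lam : ℂ) * f t) (w : ℂ) :
    mellin f w = ∫ t in Ioi (1 : ℝ), f t * ((t : ℂ) ^ (w - 1) + (t : ℂ) ^ ((lam : ℂ) - w - 1)) := by
  let g : ℝ → ℂ := (Ioi (1 : ℝ)).indicator f
  have hsub : Ioi (1 : ℝ) ⊆ Ioi 0 := Ioi_subset_Ioi zero_le_one
  have hg0 : ∀ z : ℂ, (fun t : ℝ => (t : ℂ) ^ (z - 1) • g t) =
      (Ioi (1 : ℝ)).indicator fun t : ℝ => f t * (t : ℂ) ^ (z - 1) := by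
    intro z
    funext t
    by_cases h : t ∈ Ioi (1 : ℝ) <;> simp [g, h, mul_comm]
  have hg : ∀ z : ℂ, HasMellin g z (∫ t in Ioi (1 : ℝ), f t * (t : ℂ) ^ (z - 1)) := by
    intro z
    constructor
    · unfold MellinConvergent
      rw [hg0]
      exact ((integrable_indicator_iff measurableSet_Ioi).2 (hint _)).integrableOn
    · unfold mellin
      rw [hg0, setIntegral_indicator measurableSet_Ioi, inter_eq_self_of_subset_right hsub]
  let g1 : ℝ → ℂ := fun t => (t : ℂ) ^ (lam : ℂ) • g t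
  have h1 : MellinConvergent g1 (-w) := MellinConvergent.cpow_smul.2 (hg _).1
  have h1' : mellin g1 (-w) = ∫ t in Ioi (1 : ℝ), f t * (t : ℂ) ^ ((lam : ℂ) - w - 1) := by
    rw [mellin_cpow_smul, (hg _).2, show -w + (lam : ℂ) = lam - w by ring]
  have h2 : MellinConvergent (fun t : ℝ => g1 t⁻¹) w := by
    have := (MellinConvergent.comp_rpow (f := g1) (s := w) (a := -1) (by norm_num)).2
      (by simpa [div_neg] using h1)
    simpa only [Real.rpow_neg_one] using this
  have h3 := (hasMellin_add (hg w).1 h2).2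
  rw [mellin_comp_inv, (hg w).2, h1', ← integral_add (hint _) (hint _)] at h3
  simp only [mul_add]
  rw [← h3]
  unfold mellin
  refine setIntegral_congr_ae measurableSet_Ioi ?_
  filter_upwards [compl_mem_ae_iff.2 (measure_singleton (1 : ℝ))] with t ht1 ht
  have ht0 : (0 : ℝ) < t := ht
  have ht1 : t ≠ 1 := ht1
  congr 1
  rcases lt_or_gt_of_ne ht1 with h | h
  · have e1 : t ∉ Ioi (1 : ℝ) := fun h' => lt_asymm h h'
    have e2 : t⁻¹ ∈ Ioi (1 : ℝ) := one_lt_inv₀ ht0 |>.2 h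
    have := hFE t⁻¹ (inv_pos.2 ht0)
    rw [inv_inv] at this
    simp only [g1, g, indicator_of_notMem e1, indicator_of_mem e2, zero_add, smul_eq_mul, this]
  · have e1 : t ∈ Ioi (1 : ℝ) := h
    have e2 : t⁻¹ ∉ Ioi (1 : ℝ) := fun h' => lt_asymm h ((one_lt_inv₀ ht0).1 h')
    simp only [g1, g, indicator_of_notMem e2, indicator_of_mem e1, smul_zero, add_zero]

theorem hasSum_Hw {lam η B C : ℝ} (hlam : 0 < lam) (hη : 0 < η) {a : ℕ → ℝ} (ha0 : a 0 = 0)
    (ha : ∀ n : ℕ, 1 ≤ n → |a n| ≤ C * (n : ℝ) ^ B) (w : ℂ) :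
    HasSum (fun n : ℕ => (a n : ℂ) * Hw lam w (yy lam η n))
      (∫ t in Ioi (1 : ℝ), (th lam η a t : ℂ) *
        ((t : ℂ) ^ (w - 1) + (t : ℂ) ^ ((lam : ℂ) - w - 1))) := by
  let K : ℝ → ℂ := fun t => (t : ℂ) ^ (w - 1) + (t : ℂ) ^ ((lam : ℂ) - w - 1)
  have hK : ∀ b : ℝ, 0 < b →
      IntegrableOn (fun t : ℝ => (Real.exp (-b * t) : ℂ) * K t) (Ioi 1) := by
    intro b hb
    have h := fun z => int_decay (f := fun t : ℝ => (Real.exp (-b * t) : ℂ)) (D := 1)
      (by fun_prop) hb (fun t _ => by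
        rw [Complex.norm_real, Real.norm_of_nonneg (Real.exp_pos _).le, one_mul]) z
    simp only [K, mul_add]
    exact (h _).add (h _)
  let F : ℕ → ℝ → ℂ := fun n t => (a n : ℂ) * ((Real.exp (-(t * yy lam η n)) : ℂ) * K t)
  have hF : ∀ n, Integrable (F n) (volume.restrict (Ioi 1)) := by
    intro n
    rcases Nat.eq_zero_or_pos n with rfl | hn
    · simp [F, ha0]
    · have := (hK _ (hη.trans_le (le_yy hlam hη hn))).const_mul (a n : ℂ)
      refine this.congr (Eventually.of_forall fun t => ?_)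
      simp only [F]
      rw [show -yy lam η n * t = -(t * yy lam η n) by ring]
  have hG := (hK (η / 2) (by positivity)).norm
  have hs : Summable fun n => ∫ t in Ioi (1 : ℝ), ‖F n t‖ := by
    refine Summable.of_nonneg_of_le (fun n => integral_nonneg fun t => norm_nonneg _)
      (fun n => ?_) ((summable_abs hlam hη ha0 ha (t := 1 / 2) (by norm_num)).mul_right
        (∫ t in Ioi (1 : ℝ), ‖(Real.exp (-(η / 2) * t) : ℂ) * K t‖))
    rw [← integral_const_mul]
    refine setIntegral_mono_on (hF n).norm (hG.const_mul _) measurableSet_Ioi fun t ht => ?_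
    have ht1 : (1 : ℝ) < t := ht
    rcases Nat.eq_zero_or_pos n with rfl | hn
    · simp [F, ha0]
    simp only [F, norm_mul, Complex.norm_real, Real.norm_eq_abs, abs_of_pos (Real.exp_pos _)]
    rw [mul_assoc, ← mul_assoc (Real.exp _), ← Real.exp_add]
    gcongr
    have := le_yy hlam hη hn
    nlinarith
  have h := hasSum_integral_of_summable_integral_norm hF hs
  have e1 : (fun n : ℕ => (a n : ℂ) * Hw lam w (yy lam η n)) =
      fun n => ∫ t in Ioi (1 : ℝ), F n t := by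
    funext n
    simp only [F, Hw, K, integral_const_mul]
  have e2 : (∫ t in Ioi (1 : ℝ), (th lam η a t : ℂ) * K t) =
      ∫ t in Ioi (1 : ℝ), ∑' n, F n t := by
    refine setIntegral_congr_fun measurableSet_Ioi fun t ht => ?_
    have ht0 : (0 : ℝ) < t := lt_trans zero_lt_one ht
    have h2 := (Complex.hasSum_ofReal.2 (summable_th hlam hη ha0 ha ht0).hasSum).mul_right (K t)
    refine (h2.tsum_eq.symm.trans (tsum_congr fun n => ?_))
    simp only [F]
    push_cast
    ring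
  rw [e1, e2]
  exact h

end H511L

open H511L Pool.Agent.H949Z.Hecke in
theorem lambda_eval (lam η B C σ0 : ℝ) (hlam : 0 < lam) (hη : 0 < η) (a : ℕ → ℝ) (ha0 : a 0 = 0)
    (ha : ∀ n : ℕ, 1 ≤ n → |a n| ≤ C * (n : ℝ) ^ B)
    (hFE : ∀ t : ℝ, 0 < t → ∑' n : ℕ, a n * Real.exp (-(t * (η * (n : ℝ) ^ (1 / lam)))) =
      t ^ (-lam) * ∑' n : ℕ, a n * Real.exp (-(η * (n : ℝ) ^ (1 / lam) / t)))
    (F : ℂ → ℂ) (hF : Differentiable ℂ F)
    (hFa : ∀ s : ℂ, σ0 < s.re → F s = LSeries (fun n => (a n : ℂ)) s) (s : ℂ) (hs : 0 < s.re) :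
    HasSum (fun n : ℕ => (a n : ℂ) * Hw lam ((lam : ℂ) * s) (η * (n : ℝ) ^ (1 / lam)))
      (((η ^ (-lam) : ℝ) : ℂ) ^ s * Complex.Gamma ((lam : ℂ) * s) * F s) := by
  have hFE' : ∀ t : ℝ, 0 < t → th lam η a (1 / t) = t ^ lam * th lam η a t := by
    intro t ht
    have h1 : th lam η a t = t ^ (-lam) * th lam η a (1 / t) := by
      unfold th yy
      rw [hFE t ht]
      congr 1
      refine tsum_congr fun n => ?_
      congr 3
      ring
    rw [h1, ← mul_assoc, ← Real.rpow_add ht]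
    simp
  obtain ⟨D, hD, hd⟩ := th_decay hlam hη ha0 ha
  have hc := th_cont hlam hη ha0 ha
  obtain ⟨hΛ, -, -⟩ := mellin_facts hlam hη (th lam η a) hc hD hd hFE'
  have hFF := FF_diff (lam := lam) (η := η) hΛ
  have hEq : F = FF lam η (mellin fun t => (th lam η a t : ℂ)) := by
    have hA : AnalyticOnNhd ℂ F univ := hF.differentiableOn.analyticOnNhd isOpen_univ
    have hB : AnalyticOnNhd ℂ (FF lam η (mellin fun t => (th lam η a t : ℂ))) univ :=
      hFF.differentiableOn.analyticOnNhd isOpen_univ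
    refine hA.eq_of_eventuallyEq hB (z₀ := ((|σ0| + |B| + 2 : ℝ) : ℂ)) ?_
    have hU : {z : ℂ | |σ0| + |B| + 1 < z.re} ∈ 𝓝 ((|σ0| + |B| + 2 : ℝ) : ℂ) :=
      (isOpen_lt continuous_const Complex.continuous_re).mem_nhds (by
        simp only [mem_ofPred_eq, Complex.ofReal_re]; linarith)
    filter_upwards [hU] with z hz
    have h1 := le_abs_self σ0
    have h2 := le_abs_self B
    have h3 := abs_nonneg σ0
    have h4 := abs_nonneg B
    rw [hFa z (by linarith), FF_lseries hlam hη ha0 ha z (by linarith)]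
    refine LSeriesSummable_of_le_const_mul_rpow (x := B + 1) (by linarith) ⟨C, fun n hn => ?_⟩
    simpa using ha n (Nat.one_le_iff_ne_zero.2 hn)
  have hne : ∀ n : ℕ, (lam : ℂ) * s ≠ -(n : ℂ) := by
    intro n h
    have h1 := congrArg Complex.re h
    simp at h1
    have h2 : 0 < lam * s.re := by positivity
    have h3 : (0 : ℝ) ≤ n := n.cast_nonneg
    linarith
  rw [hEq, FF_completed hη _ s hne, mellin_split (lam := lam)]
  · exact hasSum_Hw hlam hη ha0 ha _
  · intro z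
    refine int_decay (D := D) (b := η / 2) (Complex.continuous_ofReal.comp_continuousOn
      (hc.mono (Ioi_subset_Ioi zero_le_one))) (by positivity) (fun t ht => ?_) z
    simpa using hd t ht.le
  · intro t ht
    rw [← one_div, hFE' t ht]
    push_cast
    rw [Complex.ofReal_cpow ht.le]

end Pool.Agent.H520Z.Sel
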