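import Mathlib

set_option autoImplicit false

namespace Pool.Agent.H511Z.Axial

/-- A fusion law over a field `K`: a set of scalars containing `1`, with a map `⋆` from pairs of
scalars to subsets of that set (only its values on pairs from the set are used). -/
structure FusionLaw (K : Type) [Field K] where
  /-- The set of eigenvalues. -/
  vals : Set K
  one_mem : (1 : K) ∈ vals
  /-- The fusion rule. -/
  star : K → K → Set K
  star_subset : ∀ l m, star l m ⊆ vals

/-- The Seress condition: `0` is an eigenvalue, the rule is symmetric, and `0 ⋆ λ ⊆ {λ}` and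
`1 ⋆ λ ⊆ {λ}` for every eigenvalue `λ`. -/
def FusionLaw.IsSeress {K : Type} [Field K] (L : FusionLaw K) : Prop :=
  (0 : K) ∈ L.vals ∧ (∀ l m, L.star l m = L.star m l) ∧
    ∀ l ∈ L.vals, L.star 0 l ⊆ {l} ∧ L.star 1 l ⊆ {l}

section

variable (K : Type) [Field K] {A : Type} [NonUnitalNonAssocCommRing A] [Module K A]
  [IsScalarTower K A A] [SMulCommClass K A A]

/-- The eigenspace `A_λ(a) = {v : a v = λ v}`. -/
def eig (a : A) (l : K) : Submodule K A where
  carrier := {v | a * v = l • v}
  add_mem' := by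
    intro x y hx hy
    simp only [Set.mem_ofPred_eq] at hx hy ⊢
    rw [mul_add, hx, hy, smul_add]
  zero_mem' := by simp
  smul_mem' := by
    intro c x hx
    simp only [Set.mem_ofPred_eq] at hx ⊢
    rw [mul_smul_comm, hx, smul_comm]

variable {K}

/-- An axis: a nonzero idempotent such that the algebra is the direct sum of its eigenspaces for
the eigenvalues of the fusion law, and the eigenspaces multiply according to the law. -/
def IsAxis (L : FusionLaw K) (a : A) : Prop :=
  a ≠ 0 ∧ a * a = a ∧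
    (iSupIndep (fun l : L.vals => eig K a (l : K)) ∧ ⨆ l : L.vals, eig K a (l : K) = ⊤) ∧
    ∀ l ∈ L.vals, ∀ m ∈ L.vals, ∀ x ∈ eig K a l, ∀ y ∈ eig K a m,
      x * y ∈ ⨆ n ∈ L.star l m, eig K a n

/-- A primitive axis: an axis whose `1`-eigenspace is the line it spans. -/
def IsPrimitiveAxis (L : FusionLaw K) (a : A) : Prop :=
  IsAxis L a ∧ eig K a 1 = Submodule.span K {a}

/-- `(A, X)` is a primitive axial algebra for the law `L`. -/
def IsPrimitiveAxial (L : FusionLaw K) (X : Set A) : Prop :=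
  (∀ a ∈ X, IsPrimitiveAxis L a) ∧ NonUnitalAlgebra.adjoin K X = ⊤

/-- The non-annihilation graph: distinct `a, b ∈ X` are joined exactly when `a b ≠ 0`. -/
def nonAnnGraph (X : Set A) : SimpleGraph X where
  Adj a b := a ≠ b ∧ (a : A) * (b : A) ≠ 0
  symm := ⟨fun a b h => ⟨h.1.symm, by rw [mul_comm]; exact h.2⟩⟩
  loopless := ⟨fun a h => h.1 rfl⟩

/-- An ideal: a subspace closed under multiplication by elements of the algebra. -/
def IsIdeal (I : Submodule K A) : Prop := ∀ a : A, ∀ x ∈ I, a * x ∈ I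

variable (K A)

/-- Simple algebra: the product is not zero and the only ideals are `0` and `A`. -/
def IsSimpleAlg : Prop :=
  (∃ x y : A, x * y ≠ 0) ∧ ∀ I : Submodule K A, IsIdeal I → I = ⊥ ∨ I = ⊤

/-- Indecomposable algebra: nonzero, and not a direct sum of `k ≥ 2` nonzero ideals that
annihilate each other. -/
def IsIndecomposable : Prop :=
  (∃ x : A, x ≠ 0) ∧ ¬ ∃ (k : ℕ) (I : Fin k → Submodule K A), 2 ≤ k ∧
    (∀ i, IsIdeal (I i) ∧ I i ≠ ⊥) ∧ iSupIndep I ∧ ⨆ i, I i = ⊤ ∧
    ∀ i j, i ≠ j → ∀ x ∈ I i, ∀ y ∈ I j, x * y = 0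

end

end Pool.Agent.H511Z.Axial
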