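import Pool.Agent.H511Z.AxDefs

set_option autoImplicit false

namespace Pool.Agent.H511Z.Axial

/-- The fusion law on `{1, 0, 2, -1}`: Seress, and otherwise unrestricted. -/
def law : FusionLaw ℚ where
  vals := {1, 0, 2, -1}
  one_mem := by simp
  star l m := {n | n ∈ ({1, 0, 2, -1} : Set ℚ) ∧ (l = 0 ∨ l = 1 → n = m) ∧ (m = 0 ∨ m = 1 → n = l)}
  star_subset := fun _ _ _ h => h.1

theorem law_seress : law.IsSeress := by
  refine ⟨by simp [law], fun l m => ?_, fun l _ => ⟨fun n hn => ?_, fun n hn => ?_⟩⟩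
  · ext n
    simp only [law, Set.mem_ofPred_eq]
    tauto
  · exact hn.2.1 (Or.inl rfl)
  · exact hn.2.1 (Or.inr rfl)

section

variable {A : Type} [NonUnitalNonAssocCommRing A] [Module ℚ A]
  [IsScalarTower ℚ A A] [SMulCommClass ℚ A A]

theorem mem_eig {a v : A} {l : ℚ} : v ∈ eig ℚ a l ↔ a * v = l • v := Iff.rfl

theorem eig_eq (a : A) (l : ℚ) :
    eig ℚ a l = Module.End.eigenspace (LinearMap.mulLeft ℚ a) l := by
  ext v
  rw [Module.End.mem_eigenspace_iff]
  rfl

theorem axis_of (e : A) (h0 : e ≠ 0) (h1 : e * e = e)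
    (hp : ∀ z : A, e * (e * (e * (e * z))) =
      (2 : ℚ) • (e * (e * (e * z))) + e * (e * z) - (2 : ℚ) • (e * z))
    (h2 : ∀ z : A, e * z = z → ∃ t : ℚ, z = t • e)
    (h3 : ∀ y z : A, e * y = 0 → e * (y * z) = y * (e * z)) : IsPrimitiveAxis law e := by
  have htop : ∀ z : A, z ∈ ⨆ n ∈ ({1, 0, 2, -1} : Set ℚ), eig ℚ e n := by
    intro z
    have hz : z = (-1 / 2 : ℚ) • (e * (e * (e * z)) - e * (e * z) - (2 : ℚ) • (e * z)) +
        (1 / 2 : ℚ) • (e * (e * (e * z)) - (2 : ℚ) • (e * (e * z)) - e * z + (2 : ℚ) • z) +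
        (1 / 6 : ℚ) • (e * (e * (e * z)) - e * z) +
        (-1 / 6 : ℚ) • (e * (e * (e * z)) - (3 : ℚ) • (e * (e * z)) + (2 : ℚ) • (e * z)) := by
      module
    have hm : ∀ (n : ℚ) (_ : n ∈ ({1, 0, 2, -1} : Set ℚ)) (v : A), e * v = n • v →
        v ∈ ⨆ n ∈ ({1, 0, 2, -1} : Set ℚ), eig ℚ e n := fun n hn v hv =>
      (le_iSup₂_of_le (f := fun n (_ : n ∈ ({1, 0, 2, -1} : Set ℚ)) => eig ℚ e n) n hn le_rfl) hv
    rw [hz]
    refine Submodule.add_mem _ (Submodule.add_mem _ (Submodule.add_mem _ ?_ ?_) ?_) ?_ <;>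
      apply Submodule.smul_mem
    · apply hm 1 (by simp)
      simp only [mul_sub, mul_smul_comm, hp]
      module
    · apply hm 0 (by simp)
      simp only [mul_sub, mul_add, mul_smul_comm, hp]
      module
    · apply hm 2 (by simp)
      simp only [mul_sub, hp]
      module
    · apply hm (-1) (by simp)
      simp only [mul_sub, mul_add, mul_smul_comm, hp]
      module
  refine ⟨⟨h0, h1, ⟨?_, ?_⟩, ?_⟩, ?_⟩
  · simp only [eig_eq]
    exact (Module.End.eigenspaces_iSupIndep (LinearMap.mulLeft ℚ e)).comp Subtype.val_injective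
  · rw [eq_top_iff]
    intro z _
    have := htop z
    rwa [iSup_subtype'] at this
  · intro l hl m hm x hx y hy
    have key : ∀ n : ℚ, n ∈ law.star l m → x * y ∈ eig ℚ e n →
        x * y ∈ ⨆ n ∈ law.star l m, eig ℚ e n := fun n hn hv =>
      (le_iSup₂_of_le (f := fun n (_ : n ∈ law.star l m) => eig ℚ e n) n hn le_rfl) hv
    have one : ∀ (x y : A) (m : ℚ), e * x = (1 : ℚ) • x → e * y = m • y →
        e * (x * y) = m • (x * y) ∧ (m = 0 → x * y = 0) := by
      intro x y m hx hy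
      obtain ⟨t, rfl⟩ := h2 x (by simpa using hx)
      constructor
      · simp only [smul_mul_assoc, mul_smul_comm, hy]
        module
      · rintro rfl
        rw [smul_mul_assoc, hy, zero_smul, smul_zero]
    have zero : ∀ (x y : A) (m : ℚ), e * x = (0 : ℚ) • x → e * y = m • y →
        e * (x * y) = m • (x * y) := by
      intro x y m hx hy
      rw [h3 x y (by simpa using hx), hy, mul_smul_comm]
    rw [mem_eig] at hx hy
    by_cases l1 : l = 1
    · subst l1
      by_cases m0 : m = 0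
      · rw [(one x y m hx hy).2 m0]
        exact Submodule.zero_mem _
      · exact key m ⟨hm, fun _ => rfl, fun h => h.resolve_left m0⟩ (one x y m hx hy).1
    by_cases m1 : m = 1
    · subst m1
      by_cases l0 : l = 0
      · rw [mul_comm, (one y x l hy hx).2 l0]
        exact Submodule.zero_mem _
      · refine key l ⟨hl, fun h => absurd h (by tauto), fun _ => rfl⟩ ?_
        rw [mul_comm]
        exact (one y x l hy hx).1
    by_cases l0 : l = 0
    · subst l0
      exact key m ⟨hm, fun _ => rfl, fun h => h.resolve_right m1⟩ (zero x y m hx hy)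
    by_cases m0 : m = 0
    · subst m0
      refine key l ⟨hl, fun h => absurd h (by tauto), fun _ => rfl⟩ ?_
      rw [mul_comm]
      exact zero y x l hy hx
    have : law.star l m = ({1, 0, 2, -1} : Set ℚ) := by
      ext n
      exact ⟨fun h => h.1, fun h => ⟨h, fun h' => (h'.elim l0 l1).elim,
        fun h' => (h'.elim m0 m1).elim⟩⟩
    rw [this]
    exact htop _
  · ext z
    rw [mem_eig, Submodule.mem_span_singleton, one_smul]
    constructor
    · intro h
      obtain ⟨t, ht⟩ := h2 z h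
      exact ⟨t, ht.symm⟩
    · rintro ⟨t, rfl⟩
      rw [mul_smul_comm, h1]

end

/-- The underlying space; coordinates `a, b, x, w, a', b', x', w', v`. -/
def Alg : Type := Fin 9 → ℚ

instance : AddCommGroup Alg := inferInstanceAs (AddCommGroup (Fin 9 → ℚ))
instance : Module ℚ Alg := inferInstanceAs (Module ℚ (Fin 9 → ℚ))

/-- The product. -/
def Alg.mul (p q : Alg) : Alg :=
  ![p 0 * q 0 + 2 * (p 1 * q 2 + p 2 * q 1) + p 8 * q 8,
    p 1 * q 1 + 2 * (p 0 * q 2 + p 2 * q 0),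
    (p 0 * q 1 + p 1 * q 0) + (p 0 * q 2 + p 2 * q 0) + (p 1 * q 2 + p 2 * q 1),
    p 2 * q 2 + 2 * ((p 0 + p 1) * q 3 + p 3 * (q 0 + q 1)),
    p 4 * q 4 + 2 * (p 5 * q 6 + p 6 * q 5) + p 8 * q 8,
    p 5 * q 5 + 2 * (p 4 * q 6 + p 6 * q 4),
    (p 4 * q 5 + p 5 * q 4) + (p 4 * q 6 + p 6 * q 4) + (p 5 * q 6 + p 6 * q 5),
    p 6 * q 6 + 2 * ((p 4 + p 5) * q 7 + p 7 * (q 4 + q 5)),
    p 3 * q 7 + p 7 * q 3 + 2 * ((p 0 + p 1 + p 4 + p 5) * q 8 + p 8 * (q 0 + q 1 + q 4 + q 5))]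

theorem Alg.ext9 {p q : Alg} (h0 : p 0 = q 0) (h1 : p 1 = q 1) (h2 : p 2 = q 2) (h3 : p 3 = q 3)
    (h4 : p 4 = q 4) (h5 : p 5 = q 5) (h6 : p 6 = q 6) (h7 : p 7 = q 7) (h8 : p 8 = q 8) :
    p = q := by
  funext i
  fin_cases i <;> assumption

@[simp] theorem Alg.add_apply (p q : Alg) (i : Fin 9) : (p + q) i = p i + q i := rfl
@[simp] theorem Alg.sub_apply (p q : Alg) (i : Fin 9) : (p - q) i = p i - q i := rfl
@[simp] theorem Alg.zero_apply (i : Fin 9) : (0 : Alg) i = 0 := rfl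
@[simp] theorem Alg.smul_apply (c : ℚ) (p : Alg) (i : Fin 9) : (c • p) i = c * p i := rfl

instance : Mul Alg := ⟨Alg.mul⟩

@[simp] theorem m0 (p q : Alg) :
    (p * q) 0 = p 0 * q 0 + 2 * (p 1 * q 2 + p 2 * q 1) + p 8 * q 8 := rfl
@[simp] theorem m1 (p q : Alg) : (p * q) 1 = p 1 * q 1 + 2 * (p 0 * q 2 + p 2 * q 0) := rfl
@[simp] theorem m2 (p q : Alg) : (p * q) 2 =
    (p 0 * q 1 + p 1 * q 0) + (p 0 * q 2 + p 2 * q 0) + (p 1 * q 2 + p 2 * q 1) := rfl
@[simp] theorem m3 (p q : Alg) :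
    (p * q) 3 = p 2 * q 2 + 2 * ((p 0 + p 1) * q 3 + p 3 * (q 0 + q 1)) := rfl
@[simp] theorem m4 (p q : Alg) :
    (p * q) 4 = p 4 * q 4 + 2 * (p 5 * q 6 + p 6 * q 5) + p 8 * q 8 := rfl
@[simp] theorem m5 (p q : Alg) : (p * q) 5 = p 5 * q 5 + 2 * (p 4 * q 6 + p 6 * q 4) := rfl
@[simp] theorem m6 (p q : Alg) : (p * q) 6 =
    (p 4 * q 5 + p 5 * q 4) + (p 4 * q 6 + p 6 * q 4) + (p 5 * q 6 + p 6 * q 5) := rfl
@[simp] theorem m7 (p q : Alg) :
    (p * q) 7 = p 6 * q 6 + 2 * ((p 4 + p 5) * q 7 + p 7 * (q 4 + q 5)) := rfl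
@[simp] theorem m8 (p q : Alg) : (p * q) 8 = p 3 * q 7 + p 7 * q 3 +
    2 * ((p 0 + p 1 + p 4 + p 5) * q 8 + p 8 * (q 0 + q 1 + q 4 + q 5)) := rfl

instance : NonUnitalNonAssocCommRing Alg :=
  { (inferInstance : AddCommGroup Alg), (inferInstance : Mul Alg) with
    left_distrib := fun p q r => by apply Alg.ext9 <;> simp <;> ring
    right_distrib := fun p q r => by apply Alg.ext9 <;> simp <;> ring
    zero_mul := fun p => by apply Alg.ext9 <;> simp
    mul_zero := fun p => by apply Alg.ext9 <;> simp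
    mul_comm := fun p q => by apply Alg.ext9 <;> simp <;> ring }

instance : IsScalarTower ℚ Alg Alg :=
  ⟨fun c p q => by
    change (c • p) * q = c • (p * q)
    apply Alg.ext9 <;> simp <;> ring⟩

instance : SMulCommClass ℚ Alg Alg :=
  ⟨fun c p q => by
    change c • (p * q) = p * (c • q)
    apply Alg.ext9 <;> simp <;> ring⟩

/-- Basis vectors. -/
def bv (i : Fin 9) : Alg := fun j => if j = i then 1 else 0

theorem bv_apply (i j : Fin 9) : bv i j = if j = i then 1 else 0 := rfl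

theorem bv_ne_zero (i : Fin 9) : bv i ≠ 0 := by
  intro h
  have := congrFun h i
  simp [bv_apply] at this

theorem axis0 : IsPrimitiveAxis law (bv 0) := by
  refine axis_of _ (bv_ne_zero _) ?_ (fun z => ?_) (fun z h => ⟨z 0, ?_⟩) (fun y z h => ?_)
  · apply Alg.ext9 <;> simp [bv_apply]
  · apply Alg.ext9 <;> simp [bv_apply] <;> ring
  · have h1 := congrFun h 1; have h2 := congrFun h 2; have h3 := congrFun h 3
    have h4 := congrFun h 4; have h5 := congrFun h 5; have h6 := congrFun h 6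
    have h7 := congrFun h 7; have h8 := congrFun h 8
    simp [bv_apply] at h1 h2 h3 h4 h5 h6 h7 h8
    apply Alg.ext9 <;> simp [bv_apply] <;> linarith
  · have h0 := congrFun h 0; have h1 := congrFun h 1; have h2 := congrFun h 2
    have h3 := congrFun h 3; have h8 := congrFun h 8
    simp [bv_apply] at h0 h1 h2 h3 h8
    have h2' : y 1 = 0 := by linarith
    apply Alg.ext9 <;> simp [bv_apply, h0, h1, h2', h3, h8] <;> ring

theorem axis1 : IsPrimitiveAxis law (bv 1) := by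
  refine axis_of _ (bv_ne_zero _) ?_ (fun z => ?_) (fun z h => ⟨z 1, ?_⟩) (fun y z h => ?_)
  · apply Alg.ext9 <;> simp [bv_apply]
  · apply Alg.ext9 <;> simp [bv_apply] <;> ring
  · have h1 := congrFun h 0; have h2 := congrFun h 2; have h3 := congrFun h 3
    have h4 := congrFun h 4; have h5 := congrFun h 5; have h6 := congrFun h 6
    have h7 := congrFun h 7; have h8 := congrFun h 8
    simp [bv_apply] at h1 h2 h3 h4 h5 h6 h7 h8
    apply Alg.ext9 <;> simp [bv_apply] <;> linarith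
  · have h0 := congrFun h 0; have h1 := congrFun h 1; have h2 := congrFun h 2
    have h3 := congrFun h 3; have h8 := congrFun h 8
    simp [bv_apply] at h0 h1 h2 h3 h8
    have h2' : y 0 = 0 := by linarith
    apply Alg.ext9 <;> simp [bv_apply, h0, h1, h2', h3, h8] <;> ring

theorem axis4 : IsPrimitiveAxis law (bv 4) := by
  refine axis_of _ (bv_ne_zero _) ?_ (fun z => ?_) (fun z h => ⟨z 4, ?_⟩) (fun y z h => ?_)
  · apply Alg.ext9 <;> simp [bv_apply]
  · apply Alg.ext9 <;> simp [bv_apply] <;> ring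
  · have h1 := congrFun h 1; have h2 := congrFun h 2; have h3 := congrFun h 3
    have h4 := congrFun h 0; have h5 := congrFun h 5; have h6 := congrFun h 6
    have h7 := congrFun h 7; have h8 := congrFun h 8
    simp [bv_apply] at h1 h2 h3 h4 h5 h6 h7 h8
    apply Alg.ext9 <;> simp [bv_apply] <;> linarith
  · have h0 := congrFun h 4; have h1 := congrFun h 5; have h2 := congrFun h 6
    have h3 := congrFun h 7; have h8 := congrFun h 8
    simp [bv_apply] at h0 h1 h2 h3 h8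
    have h2' : y 5 = 0 := by linarith
    apply Alg.ext9 <;> simp [bv_apply, h0, h1, h2', h3, h8] <;> ring

theorem axis5 : IsPrimitiveAxis law (bv 5) := by
  refine axis_of _ (bv_ne_zero _) ?_ (fun z => ?_) (fun z h => ⟨z 5, ?_⟩) (fun y z h => ?_)
  · apply Alg.ext9 <;> simp [bv_apply]
  · apply Alg.ext9 <;> simp [bv_apply] <;> ring
  · have h1 := congrFun h 1; have h2 := congrFun h 2; have h3 := congrFun h 3
    have h4 := congrFun h 0; have h5 := congrFun h 4; have h6 := congrFun h 6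
    have h7 := congrFun h 7; have h8 := congrFun h 8
    simp [bv_apply] at h1 h2 h3 h4 h5 h6 h7 h8
    apply Alg.ext9 <;> simp [bv_apply] <;> linarith
  · have h0 := congrFun h 4; have h1 := congrFun h 5; have h2 := congrFun h 6
    have h3 := congrFun h 7; have h8 := congrFun h 8
    simp [bv_apply] at h0 h1 h2 h3 h8
    have h2' : y 4 = 0 := by linarith
    apply Alg.ext9 <;> simp [bv_apply, h0, h1, h2', h3, h8] <;> ring

theorem decomp (z : Alg) : z = z 0 • bv 0 + z 1 • bv 1 + z 2 • bv 2 + z 3 • bv 3 + z 4 • bv 4 +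
    z 5 • bv 5 + z 6 • bv 6 + z 7 • bv 7 + z 8 • bv 8 := by
  apply Alg.ext9 <;> simp [bv_apply]

theorem e2 : bv 2 = bv 0 * bv 1 := by apply Alg.ext9 <;> simp [bv_apply]
theorem e3 : bv 3 = bv 2 * bv 2 := by apply Alg.ext9 <;> simp [bv_apply]
theorem e6 : bv 6 = bv 4 * bv 5 := by apply Alg.ext9 <;> simp [bv_apply]
theorem e7 : bv 7 = bv 6 * bv 6 := by apply Alg.ext9 <;> simp [bv_apply]
theorem e8 : bv 8 = bv 3 * bv 7 := by apply Alg.ext9 <;> simp [bv_apply]

/-- The four axes. -/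
def axes : Set Alg := {bv 0, bv 1, bv 4, bv 5}

theorem primAxial : IsPrimitiveAxial law axes := by
  constructor
  · intro a ha
    simp only [axes, Set.mem_insert_iff, Set.mem_singleton_iff] at ha
    rcases ha with rfl | rfl | rfl | rfl
    exacts [axis0, axis1, axis4, axis5]
  · rw [eq_top_iff]
    intro z _
    have h0 : bv 0 ∈ NonUnitalAlgebra.adjoin ℚ axes :=
      NonUnitalAlgebra.subset_adjoin ℚ (by simp [axes])
    have h1 : bv 1 ∈ NonUnitalAlgebra.adjoin ℚ axes :=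
      NonUnitalAlgebra.subset_adjoin ℚ (by simp [axes])
    have h4 : bv 4 ∈ NonUnitalAlgebra.adjoin ℚ axes :=
      NonUnitalAlgebra.subset_adjoin ℚ (by simp [axes])
    have h5 : bv 5 ∈ NonUnitalAlgebra.adjoin ℚ axes :=
      NonUnitalAlgebra.subset_adjoin ℚ (by simp [axes])
    have h2 : bv 2 ∈ NonUnitalAlgebra.adjoin ℚ axes := e2 ▸ mul_mem h0 h1
    have h3 : bv 3 ∈ NonUnitalAlgebra.adjoin ℚ axes := e3 ▸ mul_mem h2 h2
    have h6 : bv 6 ∈ NonUnitalAlgebra.adjoin ℚ axes := e6 ▸ mul_mem h4 h5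
    have h7 : bv 7 ∈ NonUnitalAlgebra.adjoin ℚ axes := e7 ▸ mul_mem h6 h6
    have h8 : bv 8 ∈ NonUnitalAlgebra.adjoin ℚ axes := e8 ▸ mul_mem h3 h7
    rw [decomp z]
    repeat' apply add_mem
    all_goals apply SMulMemClass.smul_mem; assumption

theorem ideal_top {I : Submodule ℚ Alg} (hI : IsIdeal I) (h : bv 8 ∈ I) : I = ⊤ := by
  have h0 : bv 0 ∈ I := by
    have e : bv 0 = bv 0 * (bv 8 * bv 8) := by apply Alg.ext9 <;> simp [bv_apply]
    rw [e]; exact hI _ _ (hI _ _ h)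
  have h4 : bv 4 ∈ I := by
    have e : bv 4 = bv 4 * (bv 8 * bv 8) := by apply Alg.ext9 <;> simp [bv_apply]
    rw [e]; exact hI _ _ (hI _ _ h)
  have h2 : bv 2 ∈ I := by rw [e2, mul_comm]; exact hI _ _ h0
  have h6 : bv 6 ∈ I := by rw [e6, mul_comm]; exact hI _ _ h4
  have h3 : bv 3 ∈ I := by rw [e3]; exact hI _ _ h2
  have h7 : bv 7 ∈ I := by rw [e7]; exact hI _ _ h6
  have h1 : bv 1 ∈ I := by
    have e : bv 1 = (1 / 2 : ℚ) • (bv 0 * bv 2 - bv 2) := by apply Alg.ext9 <;> simp [bv_apply]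
    rw [e]; exact I.smul_mem _ (I.sub_mem (hI _ _ h2) h2)
  have h5 : bv 5 ∈ I := by
    have e : bv 5 = (1 / 2 : ℚ) • (bv 4 * bv 6 - bv 6) := by apply Alg.ext9 <;> simp [bv_apply]
    rw [e]; exact I.smul_mem _ (I.sub_mem (hI _ _ h6) h6)
  rw [eq_top_iff]
  intro z _
  rw [decomp z]
  repeat' apply add_mem
  all_goals apply Submodule.smul_mem; assumption

theorem simple : IsSimpleAlg ℚ Alg := by
  refine ⟨⟨bv 0, bv 1, e2 ▸ bv_ne_zero 2⟩, fun I hI => ?_⟩
  by_cases htop : I = ⊤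
  · exact Or.inr htop
  left
  have c8 : ∀ z ∈ I, z 8 = 0 := by
    intro z hz
    by_contra h
    apply htop
    apply ideal_top hI
    have e : bv 8 = (4 * z 8)⁻¹ • (bv 0 * (bv 4 * z)) := by
      apply Alg.ext9 <;> simp [bv_apply]
      field_simp
      norm_num
    rw [e]
    exact I.smul_mem _ (hI _ _ (hI _ _ hz))
  have c3 : ∀ z ∈ I, z 3 = 0 := fun z hz => by
    simpa [bv_apply] using c8 _ (hI (bv 7) z hz)
  have c7 : ∀ z ∈ I, z 7 = 0 := fun z hz => by
    simpa [bv_apply] using c8 _ (hI (bv 3) z hz)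
  have c2 : ∀ z ∈ I, z 2 = 0 := fun z hz => by
    simpa [bv_apply] using c3 _ (hI (bv 2) z hz)
  have c6 : ∀ z ∈ I, z 6 = 0 := fun z hz => by
    simpa [bv_apply] using c7 _ (hI (bv 6) z hz)
  have c1 : ∀ z ∈ I, z 1 = 0 := fun z hz => by
    simpa [bv_apply, c2 z hz] using c2 _ (hI (bv 0) z hz)
  have c0 : ∀ z ∈ I, z 0 = 0 := fun z hz => by
    simpa [bv_apply, c2 z hz] using c2 _ (hI (bv 1) z hz)
  have c5 : ∀ z ∈ I, z 5 = 0 := fun z hz => by
    simpa [bv_apply, c6 z hz] using c6 _ (hI (bv 4) z hz)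
  have c4 : ∀ z ∈ I, z 4 = 0 := fun z hz => by
    simpa [bv_apply, c6 z hz] using c6 _ (hI (bv 5) z hz)
  rw [eq_bot_iff]
  intro z hz
  exact Alg.ext9 (c0 z hz) (c1 z hz) (c2 z hz) (c3 z hz) (c4 z hz) (c5 z hz) (c6 z hz) (c7 z hz)
    (c8 z hz)

theorem indecomposable : IsIndecomposable ℚ Alg := by
  refine ⟨⟨bv 0, bv_ne_zero 0⟩, ?_⟩
  rintro ⟨k, I, hk, hI, -, -, hann⟩
  have htop : ∀ i, I i = ⊤ := fun i => (simple.2 _ (hI i).1).resolve_left (hI i).2
  apply bv_ne_zero 2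
  rw [e2]
  exact hann ⟨0, by omega⟩ ⟨1, by omega⟩ (by simp) _ (by simp [htop]) _ (by simp [htop])

theorem disconnected : ¬ (nonAnnGraph axes).Preconnected := by
  intro h
  have key : ∀ u v : axes, (nonAnnGraph axes).Adj u v → (u : Alg) 0 + (u : Alg) 1 = 1 →
      (v : Alg) 0 + (v : Alg) 1 = 1 := by
    rintro ⟨u, hu⟩ ⟨v, hv⟩ ⟨-, huv⟩ h1
    simp only [axes, Set.mem_insert_iff, Set.mem_singleton_iff] at hu hv
    rcases hu with rfl | rfl | rfl | rfl <;> rcases hv with rfl | rfl | rfl | rfl <;>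
      first
      | (simp [bv_apply]; done)
      | (simp [bv_apply] at h1; done)
      | (exfalso; apply huv; apply Alg.ext9 <;> simp [bv_apply])
  have key2 : ∀ u v : axes, (nonAnnGraph axes).Reachable u v → (u : Alg) 0 + (u : Alg) 1 = 1 →
      (v : Alg) 0 + (v : Alg) 1 = 1 := by
    rintro u v ⟨p⟩
    induction p with
    | nil => exact id
    | cons hadj _ ih => exact fun h1 => ih (key _ _ hadj h1)
  have := key2 ⟨bv 0, by simp [axes]⟩ ⟨bv 4, by simp [axes]⟩ (h _ _) (by simp [bv_apply])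
  simp [bv_apply] at this

theorem finrank_alg : Module.finrank ℚ Alg = 9 := by
  change Module.finrank ℚ (Fin 9 → ℚ) = 9
  simp

end Pool.Agent.H511Z.Axial
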