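import Mathlib

set_option autoImplicit false

open Cardinal Set Filter Topology

namespace Pool.Agent.H511Z.CKTile

/-- Abstract transfinite construction of a strictly two-separated net of radius one. -/
theorem exists_net {X : Type} [PseudoMetricSpace X] {κ : Cardinal.{0}} (hX : #X ≤ κ)
    (step : ∀ (x : X) (S : Set X), #S < κ → (∀ c ∈ S, 1 < dist x c) →
      ∃ c', dist x c' ≤ 1 ∧ ∀ c ∈ S, 2 < dist c' c) :
    ∃ g : X → X, (∀ x, dist x (g x) ≤ 1) ∧ ∀ x y, g x = g y ∨ 2 < dist (g x) (g y) := by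
  classical
  obtain ⟨_, _, hα⟩ := Cardinal.exists_ord_eq_type_lt X
  let F : (x : X) → ((y : X) → y < x → X) → X := fun x rec =>
    haveI : Nonempty X := ⟨x⟩
    Classical.epsilon (fun c => dist x c ≤ 1 ∧ ∀ (y : X) (h : y < x), c = rec y h ∨ 2 < dist c (rec y h))
  let g : X → X := (wellFounded_lt (α := X)).fix F
  have hg : ∀ x, g x = F x (fun y _ => g y) := fun x => WellFounded.fix_eq _ F x
  have key : ∀ x, dist x (g x) ≤ 1 ∧ ∀ y, y < x → g x = g y ∨ 2 < dist (g x) (g y) := by
    intro x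
    induction x using (wellFounded_lt (α := X)).induction with
    | _ x ih =>
      have hex : ∃ c, dist x c ≤ 1 ∧ ∀ (y : X) (_ : y < x), c = g y ∨ 2 < dist c (g y) := by
        by_cases h : ∃ y, y < x ∧ dist x (g y) ≤ 1
        · obtain ⟨y, hy, hd⟩ := h
          refine ⟨g y, hd, fun z hz => ?_⟩
          rcases lt_trichotomy y z with hyz | hyz | hyz
          · rcases (ih z hz).2 y hyz with h1 | h1
            · exact Or.inl h1.symm
            · exact Or.inr (by rwa [dist_comm])
          · exact Or.inl (by rw [hyz])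
          · exact (ih y hy).2 z hyz
        · push Not at h
          have hc : #(g '' Iio x) < κ :=
            (Cardinal.mk_image_le).trans_lt ((Cardinal.mk_Iio_lt x hα).trans_le hX)
          obtain ⟨c', h1, h2⟩ := step x (g '' Iio x) hc (by
            rintro c ⟨y, hy, rfl⟩
            exact h y hy)
          exact ⟨c', h1, fun y hy => Or.inr (h2 _ ⟨y, hy, rfl⟩)⟩
      have : Nonempty X := ⟨x⟩
      have := Classical.epsilon_spec hex
      rw [hg x]
      exact this
  refine ⟨g, fun x => (key x).1, fun x y => ?_⟩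
  rcases lt_trichotomy x y with h | h | h
  · rcases (key y).2 x h with h1 | h1
    · exact Or.inl h1.symm
    · exact Or.inr (by rwa [dist_comm])
  · exact Or.inl (by rw [h])
  · exact (key x).2 y h

/-- The index set: the Cantor set. -/
abbrev Idx : Type := ℕ → Bool

/-- The Cantor cube of weight continuum. -/
abbrev Cube : Type := Idx → Bool

theorem mk_Idx : #Idx = 𝔠 := by
  simp [Idx]

/-- Restriction to the first `n` coordinates. -/
def res (n : ℕ) (x : Idx) : Fin n → Bool := fun i => x i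

/-- The functions that depend on finitely many coordinates. -/
def simp_fun (p : Σ n : ℕ, (Fin n → Bool) → Bool) : Cube := fun x => p.2 (res p.1 x)

theorem dense_simp : DenseRange simp_fun := by
  classical
  rw [DenseRange, dense_iff_inter_open]
  rintro U hU ⟨f, hf⟩
  obtain ⟨I, u, hu, hsub⟩ := isOpen_pi_iff.1 hU f hf
  have hev : ∀ᶠ n in atTop, ∀ x ∈ I, ∀ y ∈ I, res n x = res n y → x = y := by
    rw [Filter.eventually_all_finset]
    intro x _
    rw [Filter.eventually_all_finset]
    intro y _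
    by_cases hxy : x = y
    · exact Filter.Eventually.of_forall fun _ _ => hxy
    · obtain ⟨i, hi⟩ := Function.ne_iff.1 hxy
      filter_upwards [Filter.eventually_gt_atTop i] with n hn h
      exact absurd (congrFun h ⟨i, hn⟩) hi
  obtain ⟨n, hn⟩ := hev.exists
  refine ⟨simp_fun ⟨n, fun r => decide (∃ x ∈ I, res n x = r ∧ f x = true)⟩, hsub ?_, ⟨_, rfl⟩⟩
  intro x hx
  have : simp_fun ⟨n, fun r => decide (∃ x ∈ I, res n x = r ∧ f x = true)⟩ x = f x := by
    simp only [simp_fun]
    cases hfx : f x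
    · simp only [decide_eq_false_iff_not, not_exists, not_and]
      intro y hy hres hfy
      have := hn y hy x hx hres
      rw [this, hfx] at hfy
      exact absurd hfy (by simp)
    · simp only [decide_eq_true_eq]
      exact ⟨x, hx, rfl, hfx⟩
  rw [this]
  exact (hu x hx).2

theorem mk_CK : #C(Cube, ℝ) ≤ 𝔠 := by
  have h1 : #C(Cube, ℝ) ≤ #((Σ n : ℕ, (Fin n → Bool) → Bool) → ℝ) := by
    refine Cardinal.mk_le_of_injective
      (f := fun (f : C(Cube, ℝ)) (p : Σ n : ℕ, (Fin n → Bool) → Bool) => f (simp_fun p)) ?_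
    intro a b hab
    refine DFunLike.coe_injective (dense_simp.equalizer a.continuous b.continuous ?_)
    funext y
    exact congrFun hab y
  refine h1.trans ?_
  rw [← Cardinal.power_def, Cardinal.mk_real]
  calc (𝔠 : Cardinal.{0}) ^ #(Σ n : ℕ, (Fin n → Bool) → Bool) ≤ 𝔠 ^ (ℵ₀ : Cardinal.{0}) :=
        Cardinal.power_le_power_left Cardinal.continuum_ne_zero (Cardinal.mk_le_aleph0)
    _ = 𝔠 := Cardinal.continuum_power_aleph0

/-- The sign function of one coordinate. -/
noncomputable def sgn (γ : Idx) : C(Cube, ℝ) :=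
  ⟨fun t => if t γ = true then 1 else -1,
    (continuous_of_discreteTopology (f := fun b : Bool => if b = true then (1 : ℝ) else -1)).comp
      (continuous_apply γ)⟩

theorem sgn_apply (γ : Idx) (t : Cube) : sgn γ t = if t γ = true then 1 else -1 := rfl

theorem norm_sgn_le (γ : Idx) : ‖sgn γ‖ ≤ 1 := by
  refine (ContinuousMap.norm_le _ zero_le_one).2 fun t => ?_
  rw [sgn_apply]
  split_ifs <;> simp

theorem open_update {U : Set Cube} (hU : IsOpen U) {t : Cube} (ht : t ∈ U) :
    ∃ I : Finset Idx, ∀ γ, γ ∉ I → ∀ b : Bool, ∃ s ∈ U, s γ = b := by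
  classical
  obtain ⟨I, u, hu, hsub⟩ := isOpen_pi_iff.1 hU t ht
  refine ⟨I, fun γ hγ b => ⟨Function.update t γ b, hsub ?_, by simp⟩⟩
  intro a ha
  have : a ≠ γ := fun h => hγ (h ▸ ha)
  rw [Function.update_of_ne this]
  exact (hu a ha).2

theorem finite_bad (f : C(Cube, ℝ)) (hf : 1 < ‖f‖) :
    ∃ I : Finset Idx, ∀ γ, γ ∉ I → 2 < ‖f + sgn γ‖ := by
  have : ∃ t, 1 < ‖f t‖ := by
    by_contra h
    push Not at h
    exact absurd ((ContinuousMap.norm_le _ zero_le_one).2 h) (not_le.2 hf)
  obtain ⟨t, ht⟩ := this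
  rw [Real.norm_eq_abs, lt_abs] at ht
  rcases ht with ht | ht
  · obtain ⟨I, hI⟩ := open_update (U := {s | 1 < f s})
      (isOpen_lt continuous_const f.continuous) ht
    refine ⟨I, fun γ hγ => ?_⟩
    obtain ⟨s, hs, hsγ⟩ := hI γ hγ true
    refine lt_of_lt_of_le ?_ ((f + sgn γ).norm_coe_le_norm s)
    have hs' : 1 < f s := hs
    rw [Real.norm_eq_abs, lt_abs]
    left
    simp only [ContinuousMap.add_apply, sgn_apply, hsγ, if_true]
    linarith
  · obtain ⟨I, hI⟩ := open_update (U := {s | 1 < -f s})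
      (isOpen_lt continuous_const f.continuous.neg) ht
    refine ⟨I, fun γ hγ => ?_⟩
    obtain ⟨s, hs, hsγ⟩ := hI γ hγ false
    refine lt_of_lt_of_le ?_ ((f + sgn γ).norm_coe_le_norm s)
    have hs' : 1 < -f s := hs
    rw [Real.norm_eq_abs, lt_abs]
    right
    simp only [ContinuousMap.add_apply, sgn_apply, hsγ]
    simp
    linarith

theorem step (x : C(Cube, ℝ)) (S : Set C(Cube, ℝ)) (hS : #S < 𝔠) (h : ∀ c ∈ S, 1 < dist x c) :
    ∃ c', dist x c' ≤ 1 ∧ ∀ c ∈ S, 2 < dist c' c := by
  have h1 : ∀ c : S, ∃ I : Finset Idx, ∀ γ, γ ∉ I → 2 < ‖(x - c) + sgn γ‖ := fun c =>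
    finite_bad _ (by rw [← dist_eq_norm]; exact h c c.2)
  choose I hI using h1
  have hcard : #(⋃ c : S, (I c : Set Idx)) < 𝔠 := by
    refine (Cardinal.mk_iUnion_le _).trans_lt ?_
    refine Cardinal.mul_lt_of_lt Cardinal.aleph0_le_continuum hS ?_
    refine lt_of_le_of_lt ?_ Cardinal.aleph0_lt_continuum
    refine ciSup_le' fun c => ?_
    exact (Finset.finite_toSet (I c)).lt_aleph0.le
  have hne : ∃ γ : Idx, γ ∉ ⋃ c : S, (I c : Set Idx) := by
    by_contra hcon
    push Not at hcon
    have : (⋃ c : S, (I c : Set Idx)) = Set.univ := eq_univ_of_forall hcon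
    rw [this, Cardinal.mk_univ, mk_Idx] at hcard
    exact lt_irrefl _ hcard
  obtain ⟨γ, hγ⟩ := hne
  refine ⟨x + sgn γ, ?_, fun c hc => ?_⟩
  · rw [dist_eq_norm]
    simpa using norm_sgn_le γ
  · have := hI ⟨c, hc⟩ γ (fun hm => hγ (mem_iUnion.2 ⟨⟨c, hc⟩, hm⟩))
    rw [dist_eq_norm]
    have e : x + sgn γ - c = x - c + sgn γ := by abel
    rw [e]
    exact this

/-- `C(K)` for the Cantor cube `K` of weight continuum is a disjoint union of closed unit balls. -/
theorem tiling : ∃ g : C(Cube, ℝ) → C(Cube, ℝ), (∀ x, dist x (g x) ≤ 1) ∧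
    ∀ x y, g x = g y ∨ 2 < dist (g x) (g y) :=
  exists_net mk_CK step

end Pool.Agent.H511Z.CKTile
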