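import Pool.Agent.H511Z.DiamC

/-! The 3-5-3 group: an arithmetic lower bound for the distance of two orbits. -/

open Matrix

namespace H511Diam

noncomputable def ph : ℝ := (1 + √5) / 2

theorem ph_sq : ph ^ 2 = ph + 1 := by
  have : √5 ^ 2 = 5 := Real.sq_sqrt (by norm_num)
  unfold ph
  nlinarith

theorem ph_lo : 1.618 < ph := by
  have : (2.236 : ℝ) < √5 := by apply Real.lt_sqrt_of_sq_lt; norm_num
  unfold ph; linarith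

theorem ph_hi : ph < 1.61804 := by
  have : √5 < (2.23608 : ℝ) := by
    apply (Real.sqrt_lt' (by norm_num)).2; norm_num
  unfold ph; linarith

noncomputable def ss : ℝ := √(3 * ph - 1)

theorem ss_sq : ss ^ 2 = 3 * ph - 1 := Real.sq_sqrt (by linarith [ph_lo])

theorem ss_pos : 0 < ss := Real.sqrt_pos.2 (by linarith [ph_lo])

noncomputable def e : Fin 4 → Fin 4 → ℝ :=
  ![![0, 0, 0, 1], ![0, -ph / 2, (ph - 1) / 2, -1 / 2], ![0, 1, 0, 0],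
    ![ss / 2, -1 / 2, -ph ^ 2 / 2, 0]]

noncomputable def Vv (a0 a1 a2 a3 : ℝ) : Fin 4 → ℝ := a0 • e 0 + a1 • e 1 + a2 • e 2 + a3 • e 3

noncomputable def rf (i : Fin 4) : MR :=
  (1 : MR) - (2 : ℝ) • Matrix.vecMulVec (e i) (J *ᵥ e i)

theorem rf_apply (i : Fin 4) (v : Fin 4 → ℝ) :
    rf i *ᵥ v = v - (2 * (v ⬝ᵥ (J *ᵥ e i))) • e i := by
  rw [rf, Matrix.sub_mulVec, Matrix.one_mulVec, Matrix.smul_mulVec, Matrix.vecMulVec_mulVec,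
    dotProduct_comm]
  ext j
  simp
  ring

theorem dot0 (a0 a1 a2 a3 : ℝ) : Vv a0 a1 a2 a3 ⬝ᵥ (J *ᵥ e 0) = a0 - a1 / 2 := by
  rw [form_eq]; simp [Vv, e]; ring

theorem dot1 (a0 a1 a2 a3 : ℝ) :
    Vv a0 a1 a2 a3 ⬝ᵥ (J *ᵥ e 1) = a1 - a0 / 2 - ph * a2 / 2 := by
  rw [form_eq]; simp [Vv, e]
  linear_combination (a1 / 2 - a3 * ph / 4) * ph_sq

theorem dot2 (a0 a1 a2 a3 : ℝ) :
    Vv a0 a1 a2 a3 ⬝ᵥ (J *ᵥ e 2) = a2 - ph * a1 / 2 - a3 / 2 := by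
  rw [form_eq]; simp [Vv, e]; ring

theorem dot3 (a0 a1 a2 a3 : ℝ) : Vv a0 a1 a2 a3 ⬝ᵥ (J *ᵥ e 3) = a3 - a2 / 2 := by
  rw [form_eq]; simp [Vv, e]
  linear_combination (-a1 * ph / 4 + a3 * (ph ^ 2 + ph + 2) / 4) * ph_sq - (a3 / 4) * ss_sq

theorem rf0 (a0 a1 a2 a3 : ℝ) : rf 0 *ᵥ Vv a0 a1 a2 a3 = Vv (a1 - a0) a1 a2 a3 := by
  rw [rf_apply, dot0]; simp only [Vv]; module

theorem rf1 (a0 a1 a2 a3 : ℝ) :
    rf 1 *ᵥ Vv a0 a1 a2 a3 = Vv a0 (a0 + ph * a2 - a1) a2 a3 := by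
  rw [rf_apply, dot1]; simp only [Vv]; module

theorem rf2 (a0 a1 a2 a3 : ℝ) :
    rf 2 *ᵥ Vv a0 a1 a2 a3 = Vv a0 a1 (ph * a1 + a3 - a2) a3 := by
  rw [rf_apply, dot2]; simp only [Vv]; module

theorem rf3 (a0 a1 a2 a3 : ℝ) : rf 3 *ᵥ Vv a0 a1 a2 a3 = Vv a0 a1 a2 (a2 - a3) := by
  rw [rf_apply, dot3]; simp only [Vv]; module

def Q (t a0 a1 a2 a3 : ℝ) : ℝ :=
  a0 ^ 2 + a1 ^ 2 + a2 ^ 2 + a3 ^ 2 - a0 * a1 - t * a1 * a2 - a2 * a3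

def Good (v : Fin 4 → ℝ) : Prop :=
  ∃ m0 n0 m1 n1 m2 n2 m3 n3 : ℤ,
    v = Vv (m0 + n0 * ph) (m1 + n1 * ph) (m2 + n2 * ph) (m3 + n3 * ph) ∧
    (∀ t : ℝ, t ^ 2 = t + 1 →
      Q t (m0 + n0 * t) (m1 + n1 * t) (m2 + n2 * t) (m3 + n3 * t) = 15 - 12 * t) ∧
    (((m0 + 4 * n0) % 11 = 8 ∧ (m1 + 4 * n1) % 11 = 5 ∧ (m2 + 4 * n2) % 11 = 6 ∧
        (m3 + 4 * n3) % 11 = 3) ∨
      ((m0 + 4 * n0) % 11 = 3 ∧ (m1 + 4 * n1) % 11 = 6 ∧ (m2 + 4 * n2) % 11 = 5 ∧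
        (m3 + 4 * n3) % 11 = 8)) ∧
    0 < m0 + n0 * ph ∧ 0 < m1 + n1 * ph ∧ 0 < m2 + n2 * ph ∧ 0 < m3 + n3 * ph

theorem pos0 {a0 a1 a2 a3 : ℝ} (h : Q ph a0 a1 a2 a3 = 15 - 12 * ph) (h1 : 0 < a1) : 0 < a0 := by
  by_contra hc
  have hc := not_lt.1 hc
  have hl := ph_lo
  have hh := ph_hi
  have h3 : 0 ≤ (3 / 4 - ph ^ 2 / 4) * a2 ^ 2 :=
    mul_nonneg (by rw [ph_sq]; linarith) (sq_nonneg _)
  have h4 : 0 ≤ -a0 * a1 := mul_nonneg (by linarith) h1.le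
  unfold Q at h
  nlinarith [sq_nonneg (a1 - ph * a2 / 2), sq_nonneg (a3 - a2 / 2), sq_nonneg a0]

theorem pos1 {a0 a1 a2 a3 : ℝ} (h : Q ph a0 a1 a2 a3 = 15 - 12 * ph) (h0 : 0 < a0)
    (h2 : 0 < a2) : 0 < a1 := by
  by_contra hc
  have hc := not_lt.1 hc
  have hl := ph_lo
  have h4 : 0 ≤ -a1 * a0 := mul_nonneg (by linarith) h0.le
  have h5 : 0 ≤ -a1 * (ph * a2) := mul_nonneg (by linarith) (mul_nonneg (by linarith) h2.le)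
  unfold Q at h
  nlinarith [sq_nonneg (a3 - a2 / 2), sq_nonneg a0, sq_nonneg a1, sq_nonneg a2]

theorem Q_rev (t a0 a1 a2 a3 : ℝ) : Q t a3 a2 a1 a0 = Q t a0 a1 a2 a3 := by unfold Q; ring

theorem Good.r0 {v : Fin 4 → ℝ} (h : Good v) : Good (rf 0 *ᵥ v) := by
  obtain ⟨m0, n0, m1, n1, m2, n2, m3, n3, rfl, hQ, hm, p0, p1, p2, p3⟩ := h
  have k (t : ℝ) : ((m1 - m0 : ℤ) : ℝ) + ((n1 - n0 : ℤ) : ℝ) * t =
      (m1 + n1 * t) - (m0 + n0 * t) := by push_cast; ring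
  have hQ' : ∀ t : ℝ, t ^ 2 = t + 1 → Q t (((m1 - m0 : ℤ) : ℝ) + ((n1 - n0 : ℤ) : ℝ) * t)
      (m1 + n1 * t) (m2 + n2 * t) (m3 + n3 * t) = 15 - 12 * t := by
    intro t ht; rw [k, ← hQ t ht]; unfold Q; ring
  exact ⟨m1 - m0, n1 - n0, m1, n1, m2, n2, m3, n3, by rw [rf0, k], hQ', by omega,
    pos0 (hQ' ph ph_sq) p1, p1, p2, p3⟩

theorem Good.r3 {v : Fin 4 → ℝ} (h : Good v) : Good (rf 3 *ᵥ v) := by
  obtain ⟨m0, n0, m1, n1, m2, n2, m3, n3, rfl, hQ, hm, p0, p1, p2, p3⟩ := h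
  have k (t : ℝ) : ((m2 - m3 : ℤ) : ℝ) + ((n2 - n3 : ℤ) : ℝ) * t =
      (m2 + n2 * t) - (m3 + n3 * t) := by push_cast; ring
  have hQ' : ∀ t : ℝ, t ^ 2 = t + 1 → Q t (m0 + n0 * t) (m1 + n1 * t) (m2 + n2 * t)
      (((m2 - m3 : ℤ) : ℝ) + ((n2 - n3 : ℤ) : ℝ) * t) = 15 - 12 * t := by
    intro t ht; rw [k, ← hQ t ht]; unfold Q; ring
  exact ⟨m0, n0, m1, n1, m2, n2, m2 - m3, n2 - n3, by rw [rf3, k], hQ', by omega,
    p0, p1, p2, pos0 ((Q_rev _ _ _ _ _).trans (hQ' ph ph_sq)) p2⟩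

theorem Good.r1 {v : Fin 4 → ℝ} (h : Good v) : Good (rf 1 *ᵥ v) := by
  obtain ⟨m0, n0, m1, n1, m2, n2, m3, n3, rfl, hQ, hm, p0, p1, p2, p3⟩ := h
  have k (t : ℝ) (ht : t ^ 2 = t + 1) :
      ((m0 + n2 - m1 : ℤ) : ℝ) + ((n0 + m2 + n2 - n1 : ℤ) : ℝ) * t =
      (m0 + n0 * t) + t * (m2 + n2 * t) - (m1 + n1 * t) := by
    push_cast; linear_combination (-(n2 : ℝ)) * ht
  have hQ' : ∀ t : ℝ, t ^ 2 = t + 1 → Q t (m0 + n0 * t)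
      (((m0 + n2 - m1 : ℤ) : ℝ) + ((n0 + m2 + n2 - n1 : ℤ) : ℝ) * t)
      (m2 + n2 * t) (m3 + n3 * t) = 15 - 12 * t := by
    intro t ht; rw [k t ht, ← hQ t ht]; unfold Q; ring
  exact ⟨m0, n0, m0 + n2 - m1, n0 + m2 + n2 - n1, m2, n2, m3, n3, by rw [rf1, k ph ph_sq], hQ',
    by omega, p0, pos1 (hQ' ph ph_sq) p0 p2, p2, p3⟩

theorem Good.r2 {v : Fin 4 → ℝ} (h : Good v) : Good (rf 2 *ᵥ v) := by
  obtain ⟨m0, n0, m1, n1, m2, n2, m3, n3, rfl, hQ, hm, p0, p1, p2, p3⟩ := h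
  have k (t : ℝ) (ht : t ^ 2 = t + 1) :
      ((n1 + m3 - m2 : ℤ) : ℝ) + ((m1 + n1 + n3 - n2 : ℤ) : ℝ) * t =
      t * (m1 + n1 * t) + (m3 + n3 * t) - (m2 + n2 * t) := by
    push_cast; linear_combination (-(n1 : ℝ)) * ht
  have hQ' : ∀ t : ℝ, t ^ 2 = t + 1 → Q t (m0 + n0 * t) (m1 + n1 * t)
      (((n1 + m3 - m2 : ℤ) : ℝ) + ((m1 + n1 + n3 - n2 : ℤ) : ℝ) * t)
      (m3 + n3 * t) = 15 - 12 * t := by
    intro t ht; rw [k t ht, ← hQ t ht]; unfold Q; ring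
  exact ⟨m0, n0, m1, n1, n1 + m3 - m2, m1 + n1 + n3 - n2, m3, n3, by rw [rf2, k ph ph_sq], hQ',
    by omega, p0, p1, pos1 ((Q_rev _ _ _ _ _).trans (hQ' ph ph_sq)) p3 p1, p3⟩

theorem Good.r {v : Fin 4 → ℝ} (h : Good v) (i : Fin 4) : Good (rf i *ᵥ v) := by
  fin_cases i
  exacts [h.r0, h.r1, h.r2, h.r3]

theorem Good.t {t : MR} (h0 : t *ᵥ e 0 = e 3) (h1 : t *ᵥ e 1 = e 2) (h2 : t *ᵥ e 2 = e 1)
    (h3 : t *ᵥ e 3 = e 0) {v : Fin 4 → ℝ} (h : Good v) : Good (t *ᵥ v) := by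
  obtain ⟨m0, n0, m1, n1, m2, n2, m3, n3, rfl, hQ, hm, p0, p1, p2, p3⟩ := h
  refine ⟨m3, n3, m2, n2, m1, n1, m0, n0, ?_, fun t ht => (Q_rev _ _ _ _ _).trans (hQ t ht),
    by omega, p3, p2, p1, p0⟩
  simp only [Vv, Matrix.mulVec_add, Matrix.mulVec_smul, h0, h1, h2, h3]
  abel

theorem Q_bound {t : ℝ} (ht : t ^ 2 = t + 1) (h2 : t < 2) (a0 a1 a2 a3 : ℝ) :
    (5 - 4 * t) * a3 ^ 2 ≤ (8 - 4 * t) * Q t a0 a1 a2 a3 := by
  have h : (8 - 4 * t) * Q t a0 a1 a2 a3 - (5 - 4 * t) * a3 ^ 2 =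
      (8 - 4 * t) * (a0 - a1 / 2) ^ 2 + (8 - 4 * t) * (3 / 4 * (a1 - 2 * t * a2 / 3) ^ 2)
        + 3 * (a3 - (8 - 4 * t) * a2 / 6) ^ 2 := by
    unfold Q
    linear_combination (-(8 - 4 * t) / 3 * a2 ^ 2) * ht
  have h8 : 0 ≤ 8 - 4 * t := by linarith
  have : 0 ≤ (8 - 4 * t) * (a0 - a1 / 2) ^ 2 + (8 - 4 * t) * (3 / 4 * (a1 - 2 * t * a2 / 3) ^ 2)
        + 3 * (a3 - (8 - 4 * t) * a2 / 6) ^ 2 := by positivity
  linarith

theorem enum {m n : ℤ} (h1 : 2.14 < m + n * ph) (h2 : m + n * ph < 3)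
    (h3 : m + n * (1 - ph) < 5.606) (h4 : -5.606 < m + n * (1 - ph)) :
    (m + 4 * n) % 11 ≠ 3 ∧ (m + 4 * n) % 11 ≠ 8 := by
  have hl := ph_lo
  have hh := ph_hi
  have n1 : n < 4 := by
    by_contra hc
    have : (4 : ℝ) ≤ n := by exact_mod_cast not_lt.1 hc
    nlinarith
  have n2 : -2 < n := by
    by_contra hc
    have : (n : ℝ) ≤ -2 := by exact_mod_cast not_lt.1 hc
    nlinarith
  have aux (k : ℤ) (a : (k : ℝ) - 1 < m) (b : (m : ℝ) < k + 1) : m = k := by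
    have a' : k - 1 < m := by exact_mod_cast a
    have b' : m < k + 1 := by exact_mod_cast b
    omega
  interval_cases n
  · have := aux 4 (by push_cast at *; linarith) (by push_cast at *; linarith)
    omega
  · have a := aux 2 (by push_cast at *; linarith) (by push_cast at *; linarith)
    omega
  · have := aux 1 (by push_cast at *; linarith) (by push_cast at *; linarith)
    omega
  · have := aux (-1) (by push_cast at *; linarith) (by push_cast at *; linarith)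
    omega
  · have := aux (-2) (by push_cast at *; linarith) (by push_cast at *; linarith)
    omega

theorem Good.bound {v : Fin 4 → ℝ} (h : Good v) : 3 * ss / 2 ≤ v 0 := by
  obtain ⟨m0, n0, m1, n1, m2, n2, m3, n3, rfl, hQ, hm, p0, p1, p2, p3⟩ := h
  have hl := ph_lo
  have hh := ph_hi
  have key : (3 : ℝ) ≤ m3 + n3 * ph := by
    by_contra hc
    have hc := not_le.1 hc
    have b1 := Q_bound ph_sq (by linarith) (m0 + n0 * ph) (m1 + n1 * ph) (m2 + n2 * ph)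
      (m3 + n3 * ph)
    rw [hQ ph ph_sq] at b1
    have hs : (1 - ph) ^ 2 = (1 - ph) + 1 := by linear_combination ph_sq
    have b2 := Q_bound hs (by linarith) (m0 + n0 * (1 - ph)) (m1 + n1 * (1 - ph))
      (m2 + n2 * (1 - ph)) (m3 + n3 * (1 - ph))
    rw [hQ _ hs] at b2
    set a := (m3 : ℝ) + n3 * ph with ha
    set a' := (m3 : ℝ) + n3 * (1 - ph) with ha'
    have c1 : 24 - 12 * ph ≤ a ^ 2 := by
      by_contra hd
      have := not_le.1 hd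
      nlinarith
    have c2 : a' ^ 2 ≤ 12 + 12 * ph := by
      by_contra hd
      have := not_le.1 hd
      nlinarith
    have d1 : 2.14 < a := by nlinarith
    have d2 : |a'| < 5.606 := abs_lt_of_sq_lt_sq (by linarith) (by norm_num)
    have := enum d1 hc (abs_lt.1 d2).2 (abs_lt.1 d2).1
    omega
  have : Vv (m0 + n0 * ph) (m1 + n1 * ph) (m2 + n2 * ph) (m3 + n3 * ph) 0 =
      (m3 + n3 * ph) * (ss / 2) := by simp [Vv, e]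
  rw [this]
  nlinarith [ss_pos]

theorem good_start : Good (Vv (2 * ph) (4 * ph) 6 3) := by
  have hl := ph_lo
  refine ⟨0, 2, 0, 4, 6, 0, 3, 0, by simp, fun t ht => ?_, by omega, ?_, ?_, ?_, ?_⟩
  · unfold Q; push_cast; linear_combination (-12) * ht
  all_goals push_cast; linarith

theorem exists_t : ∃ t : MR, t *ᵥ e 0 = e 3 ∧ t *ᵥ e 1 = e 2 ∧ t *ᵥ e 2 = e 1 ∧
    t *ᵥ e 3 = e 0 := by
  let E : MR := Matrix.of fun i j => e j i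
  have hE : IsUnit E.det := by
    rw [det_eq_det4, isUnit_iff_ne_zero]
    have : det4 E = ss * (ph - 1) / 4 := by simp [det4, E, e]; ring
    rw [this]
    have := ss_pos
    have : 0 < ph - 1 := by linarith [ph_lo]
    positivity
  let E' : MR := Matrix.of fun i j => e (Fin.rev j) i
  have key (j : Fin 4) : (E' * E⁻¹) *ᵥ e j = e (Fin.rev j) := by
    have h1 : e j = E *ᵥ Pi.single j 1 := by ext i; simp [E]
    rw [h1, Matrix.mulVec_mulVec, Matrix.mul_assoc, Matrix.nonsing_inv_mul _ hE, Matrix.mul_one]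
    ext i; simp [E']
  exact ⟨E' * E⁻¹, key 0, key 1, key 2, key 3⟩

end H511Diam
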