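import Pool.Agent.H511Z.DiamChk

/-! The Kleinian group: Lorentz matrices normalising a lattice of the Lie algebra. -/

open Matrix

namespace H511Diam

abbrev MR := Matrix (Fin 4) (Fin 4) ℝ

noncomputable def f : Z3 →+* ℝ := Zsqrtd.toReal (by norm_num)

theorem f_apply (z : Z3) : f z = z.re + z.im * √3 := by
  simp [f, Zsqrtd.toReal]

theorem lb_le (z : Z3) : (lb z : ℝ) ≤ 10 ^ 15 * f z := by
  have h1 : (1732050807568877 : ℝ) ≤ 10 ^ 15 * √3 := by
    have : (1732050807568877 / 10 ^ 15 : ℝ) ≤ √3 := by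
      apply Real.le_sqrt_of_sq_le; norm_num
    linarith
  have h2 : 10 ^ 15 * √3 ≤ (1732050807568878 : ℝ) := by
    have : √3 ≤ (1732050807568878 / 10 ^ 15 : ℝ) := by
      apply Real.sqrt_le_iff.2; constructor <;> norm_num
    linarith
  rw [f_apply]
  unfold lb
  split_ifs with h
  · have : (0 : ℝ) ≤ z.im := by exact_mod_cast h
    push_cast
    nlinarith
  · have : (z.im : ℝ) ≤ 0 := by exact_mod_cast (le_of_lt (not_le.1 h))
    push_cast
    nlinarith

theorem f_nonneg {z : Z3} (h : 0 ≤ lb z) : 0 ≤ f z := by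
  have h1 := lb_le z
  have h2 : (0 : ℝ) ≤ lb z := by exact_mod_cast h
  nlinarith

theorem f_pos {z : Z3} (h : 0 < lb z) : 0 < f z := by
  have h1 := lb_le z
  have h2 : (0 : ℝ) < lb z := by exact_mod_cast h
  nlinarith

noncomputable def J : MR := Matrix.diagonal ![(-1 : ℝ), 1, 1, 1]

noncomputable def Xr (a : Fin 6) : MR := (X a).map f

theorem Jz_map : Jz.map f = J := by
  ext i j
  fin_cases i <;> fin_cases j <;> simp [Jz, J]

theorem JJ : J * J = 1 := by
  ext i j
  fin_cases i <;> fin_cases j <;> simp [J]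

def P (m : MR) : Prop :=
  mᵀ * J * m = J ∧ m.det = 1 ∧ 0 < m 0 0 ∧
    ∀ a, ∃ c : Fin 6 → ℤ, m * Xr a = (∑ b, c b • Xr b) * m

theorem inv_left {m : MR} (h : mᵀ * J * m = J) : (J * mᵀ * J) * m = 1 := by
  calc (J * mᵀ * J) * m = J * (mᵀ * J * m) := by simp only [Matrix.mul_assoc]
    _ = 1 := by rw [h, JJ]

theorem inv_right {m : MR} (h : mᵀ * J * m = J) : m * (J * mᵀ * J) = 1 :=
  mul_eq_one_comm.1 (inv_left h)

theorem orth_row {m : MR} (h : mᵀ * J * m = J) : m * J * mᵀ = J := by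
  have h1 := inv_right h
  calc m * J * mᵀ = m * (J * mᵀ * J) * J := by
        simp only [Matrix.mul_assoc, JJ, Matrix.mul_one]
    _ = J := by rw [h1, Matrix.one_mul]

theorem row0 {m : MR} (h : mᵀ * J * m = J) :
    m 0 0 ^ 2 = 1 + m 0 1 ^ 2 + m 0 2 ^ 2 + m 0 3 ^ 2 := by
  have := congrFun (congrFun (orth_row h) 0) 0
  simp [J, Matrix.mul_apply, Fin.sum_univ_succ, Matrix.diagonal] at this
  linarith

theorem col0 {m : MR} (h : mᵀ * J * m = J) :
    m 0 0 ^ 2 = 1 + m 1 0 ^ 2 + m 2 0 ^ 2 + m 3 0 ^ 2 := by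
  have := congrFun (congrFun h 0) 0
  simp [J, Matrix.mul_apply, Fin.sum_univ_succ, Matrix.diagonal] at this
  linarith

theorem cone_pos {a b c d a' b' c' d' : ℝ} (ha : 0 < a) (ha' : 0 < a')
    (h : a ^ 2 = 1 + b ^ 2 + c ^ 2 + d ^ 2) (h' : a' ^ 2 = 1 + b' ^ 2 + c' ^ 2 + d' ^ 2) :
    0 < a * a' + b * b' + c * c' + d * d' := by
  have h1 : (b * b' + c * c' + d * d') ^ 2 < (a * a') ^ 2 := by
    rw [mul_pow, h, h']
    nlinarith [sq_nonneg (b * c' - c * b'), sq_nonneg (b * d' - d * b'),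
      sq_nonneg (c * d' - d * c'), sq_nonneg b, sq_nonneg c, sq_nonneg d, sq_nonneg b',
      sq_nonneg c', sq_nonneg d']
  have h2 := abs_lt_of_sq_lt_sq h1 (mul_pos ha ha').le
  have := (abs_lt.1 h2).1
  linarith

theorem P_one : P 1 := by
  refine ⟨by simp, by simp, by simp, fun a => ⟨Pi.single a 1, ?_⟩⟩
  simp [Pi.single_apply, ite_smul]

theorem P_mul {m m' : MR} (h : P m) (h' : P m') : P (m * m') := by
  obtain ⟨h1, h2, h3, h4⟩ := h
  obtain ⟨h1', h2', h3', h4'⟩ := h'
  refine ⟨?_, by simp [h2, h2'], ?_, fun a => ?_⟩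
  · calc (m * m')ᵀ * J * (m * m') = m'ᵀ * (mᵀ * J * m) * m' := by
          simp only [Matrix.transpose_mul, Matrix.mul_assoc]
      _ = J := by rw [h1, h1']
  · have := cone_pos h3 h3' (row0 h1) (col0 h1')
    simpa [Matrix.mul_apply, Fin.sum_univ_succ, add_assoc] using this
  · choose c hc using h4
    obtain ⟨c', hc'⟩ := h4' a
    refine ⟨fun e => ∑ b, c' b * c b e, ?_⟩
    calc m * m' * Xr a = m * (∑ b, c' b • Xr b) * m' := by
          rw [Matrix.mul_assoc, hc', Matrix.mul_assoc]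
      _ = (∑ b, c' b • (m * Xr b)) * m' := by
          simp only [Matrix.mul_sum, Matrix.mul_smul]
      _ = (∑ b, c' b • (∑ e, c b e • Xr e)) * (m * m') := by
          simp only [hc, Matrix.sum_mul, Matrix.smul_mul, Matrix.mul_assoc]
      _ = _ := by
          congr 1
          simp only [Finset.smul_sum, Finset.sum_smul, smul_smul]
          exact Finset.sum_comm

def Gam : Subgroup (Matrix.GeneralLinearGroup (Fin 4) ℝ) where
  carrier := {g | P (g : MR) ∧ P ((g⁻¹ : Matrix.GeneralLinearGroup (Fin 4) ℝ) : MR)}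
  mul_mem' := by
    rintro a b ⟨ha, ha'⟩ ⟨hb, hb'⟩
    refine ⟨by simpa using P_mul ha hb, ?_⟩
    rw [_root_.mul_inv_rev, Units.val_mul]
    exact P_mul hb' ha'
  one_mem' := ⟨by simpa using P_one, by simpa using P_one⟩
  inv_mem' := by
    rintro a ⟨ha, ha'⟩
    exact ⟨ha', by simpa using ha⟩

noncomputable def Wr (b : Fin 6) : Fin 6 → ℝ := fun j => f (W b j)

theorem lam_X (a b : Fin 6) : lam (Wr b) (Xr a) = if a = b then 561816 else 0 := by
  have h := congrArg f (chk_lam a b)
  have h2 : f (lam (W b) (X a)) = lam (Wr b) (Xr a) := by simp [lam, Wr, Xr]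
  rw [← h2, h]
  split_ifs
  · rw [map_intCast]; simp [NN]
  · simp

theorem lam_comb (c : Fin 6 → ℤ) (b : Fin 6) :
    lam (Wr b) (∑ a, c a • Xr a) = 561816 * c b := by
  have : lam (Wr b) (∑ a, c a • Xr a) = ∑ a, (c a : ℝ) * lam (Wr b) (Xr a) := by
    simp only [lam, Matrix.sum_apply, Matrix.smul_apply, Finset.mul_sum,
      ← Finset.sum_add_distrib]
    refine Finset.sum_congr rfl fun a _ => ?_
    simp only [zsmul_eq_mul]
    ring
  rw [this]
  simp [lam_X, mul_comm]

theorem comm_K {u : MR} (hu : ∀ a, u * Xr a = Xr a * u) (K : M3) (t : Fin 6)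
    (hK : ∀ i j : Fin 4, ∑ a : Fin 6, W a t * X a i j = (NN : Z3) * K i j) :
    u * K.map f = K.map f * u := by
  have h1 : (561816 : ℝ) • K.map f = ∑ a, Wr a t • Xr a := by
    ext i j
    have := congrArg f (hK i j)
    simp only [map_sum, map_mul, map_intCast] at this
    simp only [Matrix.smul_apply, Matrix.sum_apply, smul_eq_mul, Wr, Xr, Matrix.map_apply, this]
    simp [NN]
  have h2 : u * ((561816 : ℝ) • K.map f) = ((561816 : ℝ) • K.map f) * u := by
    rw [h1]
    simp only [Matrix.mul_sum, Matrix.sum_mul, Matrix.mul_smul, Matrix.smul_mul, hu]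
  rw [Matrix.mul_smul, Matrix.smul_mul] at h2
  exact smul_right_injective _ (by norm_num) h2

theorem scalar_of_comm {u : MR} (hu : ∀ a, u * Xr a = Xr a * u) : u = u 0 0 • (1 : MR) := by
  have k1 := comm_K hu K1 0 chk_K1
  have k2 := comm_K hu K2 1 chk_K2
  have k3 := comm_K hu K3 2 chk_K3
  have e (i j : Fin 4) := congrFun (congrFun k1 i) j
  have e' (i j : Fin 4) := congrFun (congrFun k2 i) j
  have e'' (i j : Fin 4) := congrFun (congrFun k3 i) j
  have a1 := e 0 1
  have a2 := e 0 2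
  have a3 := e 0 3
  have a4 := e 1 2
  have a5 := e 1 3
  have a6 := e 2 1
  have a7 := e 3 1
  have b1 := e' 0 1
  have b2 := e' 0 2
  have b3 := e' 0 3
  have b4 := e' 2 1
  have b5 := e' 1 2
  have c1 := e'' 0 1
  have c2 := e'' 0 2
  have c3 := e'' 0 3
  simp [K1, K2, K3, Matrix.mul_apply, Fin.sum_univ_succ] at a1 a2 a3 a4 a5 a6 a7 b1 b2 b3 b4 b5 c1 c2 c3
  ext i j
  fin_cases i <;> fin_cases j <;> simp <;> linarith

theorem discrete :
    DiscreteTopology ((fun g : Matrix.GeneralLinearGroup (Fin 4) ℝ => (g : MR)) ''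
      (Gam : Set (Matrix.GeneralLinearGroup (Fin 4) ℝ))) := by
  rw [discreteTopology_subtype_iff']
  rintro _ ⟨g, ⟨hg, hg'⟩, rfl⟩
  let Φ : Fin 6 → Fin 6 → MR → ℝ := fun a b m => lam (Wr b) (m * Xr a * (J * mᵀ * J))
  have hΦ : ∀ a b, Continuous (Φ a b) := by
    intro a b
    have : Continuous fun m : MR => m * Xr a * (J * mᵀ * J) := by fun_prop
    simp only [Φ, lam]
    fun_prop
  refine ⟨⋂ a, ⋂ b, {m | |Φ a b m - Φ a b g| < 561816}, ?_, ?_⟩
  · refine isOpen_iInter_of_finite fun a => isOpen_iInter_of_finite fun b => ?_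
    exact isOpen_lt ((hΦ a b).sub continuous_const).abs continuous_const
  · ext m
    simp only [Set.mem_inter_iff, Set.mem_iInter, Set.mem_ofPred_eq, Set.mem_singleton_iff]
    constructor
    · rintro ⟨hm, h, ⟨hh, -⟩, rfl⟩
      obtain ⟨g1, -, g3, g4⟩ := hg
      obtain ⟨h1, -, h3, h4⟩ := hh
      set gi : MR := J * (g : MR)ᵀ * J with hgi
      have gl : gi * g = 1 := inv_left g1
      have gr : (g : MR) * gi = 1 := inv_right g1
      have hcomm : ∀ a, (gi * h) * Xr a = Xr a * (gi * h) := by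
        intro a
        obtain ⟨c, hc⟩ := g4 a
        obtain ⟨c', hc'⟩ := h4 a
        have hcc : c' = c := by
          funext b
          have := hm a b
          simp only [Φ] at this
          rw [hc, hc', Matrix.mul_assoc, Matrix.mul_assoc _ (g : MR), gr, inv_right h1,
            Matrix.mul_one, Matrix.mul_one, lam_comb, lam_comb, abs_lt] at this
          have h5 : (c' b : ℝ) < c b + 1 := by linarith [this.2]
          have h6 : (c b : ℝ) < c' b + 1 := by linarith [this.1]
          have h7 : c' b < c b + 1 := by exact_mod_cast h5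
          have h8 : c b < c' b + 1 := by exact_mod_cast h6
          omega
        subst hcc
        calc gi * h * Xr a = gi * (∑ b, c' b • Xr b) * (g * gi) * h := by
              rw [gr, Matrix.mul_one, Matrix.mul_assoc gi, hc', Matrix.mul_assoc gi]
          _ = gi * ((∑ b, c' b • Xr b) * g) * gi * h := by simp only [Matrix.mul_assoc]
          _ = (gi * g) * Xr a * (gi * h) := by rw [← hc]; simp only [Matrix.mul_assoc]
          _ = _ := by rw [gl, Matrix.one_mul]
      have hs := scalar_of_comm hcomm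
      set t : ℝ := (gi * h) 0 0 with ht
      have hh : (h : MR) = t • (g : MR) := by
        calc (h : MR) = g * (gi * h) := by rw [← Matrix.mul_assoc, gr, Matrix.one_mul]
          _ = _ := by rw [hs]; simp
      have c1 := col0 g1
      have c2 := col0 h1
      rw [hh] at c2 h3
      simp only [Matrix.smul_apply, smul_eq_mul] at c2 h3
      have ht2 : t ^ 2 = 1 := by linear_combination c2 - t ^ 2 * c1
      have ht0 : 0 < t := (mul_pos_iff_of_pos_right g3).1 h3
      have ht1 : t = 1 := by nlinarith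
      show (h : MR) = g
      rw [hh, ht1, one_smul]
    · rintro rfl
      exact ⟨fun a b => by simp, g, ⟨hg, hg'⟩, rfl⟩

end H511Diam
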