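import Pool.Agent.H511Z.DiamB

/-! The orbit of the base point is dense at scale `arcosh √(6/5)`. -/

open Matrix

namespace H511Diam

noncomputable def gm (k : Fin 15) : MR := ((nd k : ℝ))⁻¹ • (M k).map f

theorem nd_pos (k : Fin 15) : (0 : ℝ) < nd k := by exact_mod_cast chk_nd k

theorem map_mul' (A B : M3) : (A * B).map f = A.map f * B.map f := Matrix.map_mul

theorem P_gm (k : Fin 15) : P (gm k) := by
  have hn := nd_pos k
  refine ⟨?_, ?_, ?_, fun a => ⟨cf k a, ?_⟩⟩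
  · have h1 : ((M k).map f)ᵀ * J * (M k).map f = ((nd k : ℝ) * nd k) • J := by
      rw [← Jz_map, ← Matrix.transpose_map, ← map_mul', ← map_mul']
      ext i j
      simp only [Matrix.map_apply, chk_orth k i j, map_mul, map_intCast, Matrix.smul_apply,
        smul_eq_mul, Int.cast_mul]
    simp only [gm, Matrix.transpose_smul, Matrix.smul_mul, Matrix.mul_smul, h1, smul_smul]
    rw [show ((nd k : ℝ))⁻¹ * (((nd k : ℝ))⁻¹ * ((nd k : ℝ) * nd k)) = 1 by field_simp, one_smul]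
  · have h1 : ((M k).map f).det = (nd k : ℝ) ^ 4 := by
      have := RingHom.map_det f (M k)
      rw [det_eq_det4 (M k), chk_det k, map_intCast] at this
      rw [RingHom.mapMatrix_apply] at this
      rw [← this]; push_cast; rfl
    simp only [gm, Matrix.det_smul, h1, Fintype.card_fin]
    field_simp
  · have := f_pos (chk_pos k)
    simp only [gm, Matrix.smul_apply, Matrix.map_apply, smul_eq_mul]
    positivity
  · have h1 := congrArg (fun A : M3 => A.map f) (chk_conj k a)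
    simp only [map_mul'] at h1
    have h2 : (∑ b : Fin 6, cf k a b • X b).map f = ∑ b : Fin 6, cf k a b • Xr b := by
      ext i j
      simp only [Matrix.map_apply, Matrix.sum_apply, Matrix.smul_apply, map_sum, map_zsmul, Xr]
    simp only [gm, Matrix.smul_mul, Matrix.mul_smul]
    rw [← h2, ← h1]
    rfl

theorem gm_inv (k : Fin 15) : gm k * gm (sg k) = 1 := by
  have hn := nd_pos k
  have hn' := nd_pos (sg k)
  have h1 : (M k).map f * (M (sg k)).map f = ((nd k : ℝ) * nd (sg k)) • (1 : MR) := by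
    rw [← map_mul']
    ext i j
    simp only [Matrix.map_apply, chk_inv k i j, map_mul, map_intCast, Matrix.smul_apply,
      smul_eq_mul, Int.cast_mul, Matrix.one_apply]
    split_ifs <;> simp
  simp only [gm, Matrix.smul_mul, Matrix.mul_smul, h1, smul_smul]
  rw [show ((nd (sg k) : ℝ))⁻¹ * (((nd k : ℝ))⁻¹ * ((nd k : ℝ) * nd (sg k))) = 1 by field_simp,
    one_smul]

noncomputable def gu (k : Fin 15) : Matrix.GeneralLinearGroup (Fin 4) ℝ :=
  ⟨gm k, gm (sg k), gm_inv k, mul_eq_one_comm.1 (gm_inv k)⟩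

theorem gu_mem (k : Fin 15) : gu k ∈ Gam := ⟨P_gm k, P_gm (sg k)⟩

def Cap (k : Fin 15) (x y z : ℝ) : Prop :=
  ((cap k).2.2.2 : ℝ) * √(x ^ 2 + y ^ 2 + z ^ 2) ≤
    (cap k).1 * x + (cap k).2.1 * y + (cap k).2.2.1 * z

theorem sqrt_add_le (x y z x' y' z' : ℝ) :
    √((x + x') ^ 2 + (y + y') ^ 2 + (z + z') ^ 2) ≤
      √(x ^ 2 + y ^ 2 + z ^ 2) + √(x' ^ 2 + y' ^ 2 + z' ^ 2) := by
  set A := x ^ 2 + y ^ 2 + z ^ 2 with hA
  set B := x' ^ 2 + y' ^ 2 + z' ^ 2 with hB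
  have hA0 : 0 ≤ A := by positivity
  have hB0 : 0 ≤ B := by positivity
  have h1 : x * x' + y * y' + z * z' ≤ √A * √B := by
    rw [← Real.sqrt_mul hA0]
    apply Real.le_sqrt_of_sq_le
    rw [hA, hB]
    nlinarith [sq_nonneg (x * y' - y * x'), sq_nonneg (x * z' - z * x'),
      sq_nonneg (y * z' - z * y')]
  apply Real.sqrt_le_iff.2
  refine ⟨by positivity, ?_⟩
  have h2 := Real.sq_sqrt hA0
  have h3 := Real.sq_sqrt hB0
  nlinarith

theorem cc_nonneg (k : Fin 15) : (2 : ℝ) ≤ (cap k).2.2.2 := by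
  exact_mod_cast (chk_cap k).2.2.2.2.2.2.2

theorem Cap.add {k : Fin 15} {x y z x' y' z' : ℝ} (h : Cap k x y z) (h' : Cap k x' y' z') :
    Cap k (x + x') (y + y') (z + z') := by
  unfold Cap at *
  have h1 := sqrt_add_le x y z x' y' z'
  have h2 := cc_nonneg k
  nlinarith

theorem Cap.smul {k : Fin 15} {x y z t : ℝ} (ht : 0 ≤ t) (h : Cap k x y z) :
    Cap k (t * x) (t * y) (t * z) := by
  unfold Cap at *
  have h1 : √((t * x) ^ 2 + (t * y) ^ 2 + (t * z) ^ 2) = t * √(x ^ 2 + y ^ 2 + z ^ 2) := by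
    rw [show (t * x) ^ 2 + (t * y) ^ 2 + (t * z) ^ 2 = t ^ 2 * (x ^ 2 + y ^ 2 + z ^ 2) by ring,
      Real.sqrt_mul (sq_nonneg t), Real.sqrt_sq ht]
  rw [h1]
  nlinarith [mul_le_mul_of_nonneg_left h ht]

theorem inc_sound {k : Fin 15} {v : V} (h : inc k v = true) : Cap k v.1 v.2.1 v.2.2 := by
  simp only [inc, Bool.and_eq_true, decide_eq_true_eq] at h
  obtain ⟨h1, h2⟩ := h
  have h1' : (0 : ℝ) ≤ (cap k).1 * v.1 + (cap k).2.1 * v.2.1 + (cap k).2.2.1 * v.2.2 := by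
    exact_mod_cast h1
  have h2' : ((cap k).2.2.2 : ℝ) ^ 2 * ((v.1 : ℝ) ^ 2 + (v.2.1 : ℝ) ^ 2 + (v.2.2 : ℝ) ^ 2) ≤
      ((cap k).1 * v.1 + (cap k).2.1 * v.2.1 + (cap k).2.2.1 * v.2.2 : ℝ) ^ 2 := by
    exact_mod_cast h2
  unfold Cap
  apply le_of_sq_le_sq _ h1'
  rw [mul_pow, Real.sq_sqrt (by positivity)]
  exact h2'

theorem good_sound {u v w : V} (h : good u v w = true) {a b c : ℝ} (ha : 0 ≤ a) (hb : 0 ≤ b)
    (hc : 0 ≤ c) : ∃ k, Cap k (a * u.1 + b * v.1 + c * w.1) (a * u.2.1 + b * v.2.1 + c * w.2.1)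
      (a * u.2.2 + b * v.2.2 + c * w.2.2) := by
  simp only [good, List.any_eq_true, Bool.and_eq_true] at h
  obtain ⟨k, -, ⟨h1, h2⟩, h3⟩ := h
  exact ⟨k, (((inc_sound h1).smul ha).add ((inc_sound h2).smul hb)).add ((inc_sound h3).smul hc)⟩

theorem chk_sound (n : ℕ) : ∀ {u v w : V}, chk n u v w = true → ∀ {a b c : ℝ}, 0 ≤ a → 0 ≤ b →
    0 ≤ c → ∃ k, Cap k (a * u.1 + b * v.1 + c * w.1) (a * u.2.1 + b * v.2.1 + c * w.2.1)
      (a * u.2.2 + b * v.2.2 + c * w.2.2) := by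
  induction n with
  | zero => intro u v w h a b c ha hb hc; exact good_sound h ha hb hc
  | succ n ih =>
    intro u v w h a b c ha hb hc
    simp only [chk, Bool.or_eq_true, Bool.and_eq_true] at h
    rcases h with h | ⟨h1, h2⟩
    · exact good_sound h ha hb hc
    · rcases le_total b a with hab | hab
      · obtain ⟨k, hk⟩ := ih h1 (a := c / 2) (b := (a - b) / 2) (c := b) (by linarith)
          (by linarith) hb
        refine ⟨k, ?_⟩
        convert hk using 1 <;> simp only [dbl, add] <;> push_cast <;> ring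
      · obtain ⟨k, hk⟩ := ih h2 (a := (b - a) / 2) (b := c / 2) (c := a) (by linarith)
          (by linarith) ha
        refine ⟨k, ?_⟩
        convert hk using 1 <;> simp only [dbl, add] <;> push_cast <;> ring

theorem exists_sign (x : ℝ) : ∃ s ∈ [(1 : ℤ), -1], |x| * s = x := by
  rcases le_total 0 x with h | h
  · exact ⟨1, by simp, by simp [abs_of_nonneg h]⟩
  · exact ⟨-1, by simp, by simp [abs_of_nonpos h]⟩

theorem cover (x y z : ℝ) : ∃ k, Cap k x y z := by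
  obtain ⟨s1, h1, e1⟩ := exists_sign x
  obtain ⟨s2, h2, e2⟩ := exists_sign y
  obtain ⟨s3, h3, e3⟩ := exists_sign z
  obtain ⟨k, hk⟩ := chk_sound 12 (chk_cover s1 h1 s2 h2 s3 h3) (abs_nonneg x) (abs_nonneg y)
    (abs_nonneg z)
  refine ⟨k, ?_⟩
  simpa [e1, e2, e3] using hk

def H (y : Fin 4 → ℝ) : Prop := y 0 ^ 2 = 1 + y 1 ^ 2 + y 2 ^ 2 + y 3 ^ 2 ∧ 0 < y 0

theorem form_eq (x y : Fin 4 → ℝ) :
    x ⬝ᵥ (J *ᵥ y) = -(x 0 * y 0) + x 1 * y 1 + x 2 * y 2 + x 3 * y 3 := by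
  simp [J, dotProduct, Fin.sum_univ_succ, Matrix.mulVec_diagonal]
  ring

theorem form_inv {m : MR} (h : mᵀ * J * m = J) (x y : Fin 4 → ℝ) :
    (m *ᵥ x) ⬝ᵥ (J *ᵥ (m *ᵥ y)) = x ⬝ᵥ (J *ᵥ y) := by
  conv_rhs => rw [← h]
  rw [Matrix.mul_assoc, ← Matrix.mulVec_mulVec, Matrix.dotProduct_mulVec x, Matrix.vecMul_transpose,
    Matrix.mulVec_mulVec]

theorem mulVec0 (m : MR) (y : Fin 4 → ℝ) :
    (m *ᵥ y) 0 = m 0 0 * y 0 + m 0 1 * y 1 + m 0 2 * y 2 + m 0 3 * y 3 := by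
  simp [Matrix.mulVec, dotProduct, Fin.sum_univ_succ, add_assoc]

theorem H_smul {m : MR} (h : P m) {y : Fin 4 → ℝ} (hy : H y) : H (m *ᵥ y) := by
  refine ⟨?_, ?_⟩
  · have := form_inv h.1 y y
    rw [form_eq, form_eq] at this
    nlinarith [hy.1]
  · rw [mulVec0]
    exact cone_pos h.2.2.1 hy.2 (row0 h.1) hy.1

theorem step {y : Fin 4 → ℝ} (hy : H y) (h : 6 / 5 < y 0 ^ 2) :
    ∃ k, (gm k *ᵥ y) 0 ≤ y 0 - 1 / 10000 := by
  obtain ⟨k, hk⟩ := cover (y 1) (y 2) (y 3)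
  refine ⟨k, ?_⟩
  obtain ⟨c1, c2, c3, c4, c5, c6, c7, -⟩ := chk_cap k
  have d1 := f_nonneg c1
  have d2 := f_nonneg c2
  have d3 := f_nonneg c3
  have d4 := f_nonneg c4
  have d5 := f_nonneg c5
  have d6 := f_nonneg c6
  have d7 := f_nonneg c7
  simp only [map_sub, map_add, map_mul, map_intCast, map_ofNat] at d1 d2 d3 d4 d5 d6 d7
  have hn := nd_pos k
  have hc := cc_nonneg k
  unfold Cap at hk
  rw [mulVec0]
  simp only [gm, Matrix.smul_apply, Matrix.map_apply, smul_eq_mul]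
  set n : ℝ := ((nd k : ℤ) : ℝ)
  set A := f (M k 0 0)
  set B1 := f (M k 0 1)
  set B2 := f (M k 0 2)
  set B3 := f (M k 0 3)
  set p1 : ℝ := (((cap k).1 : ℤ) : ℝ)
  set p2 : ℝ := (((cap k).2.1 : ℤ) : ℝ)
  set p3 : ℝ := (((cap k).2.2.1 : ℤ) : ℝ)
  set cc : ℝ := (((cap k).2.2.2 : ℤ) : ℝ)
  set r := √(y 1 ^ 2 + y 2 ^ 2 + y 3 ^ 2) with hr
  have hr2 : r ^ 2 = y 1 ^ 2 + y 2 ^ 2 + y 3 ^ 2 := Real.sq_sqrt (by positivity)
  have hr0 : 0 ≤ r := Real.sqrt_nonneg _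
  obtain ⟨hy1, hy0⟩ := hy
  have hy01 : 1 ≤ y 0 := by nlinarith
  have hry : 51 / 125 * y 0 ≤ r := by
    apply le_of_sq_le_sq _ hr0
    nlinarith
  have habs : |y 1| + |y 2| + |y 3| ≤ 2 * r := by
    apply le_of_sq_le_sq _ (by positivity)
    have e1 := sq_abs (y 1)
    have e2 := sq_abs (y 2)
    have e3 := sq_abs (y 3)
    nlinarith [sq_nonneg (|y 1| - |y 2|), sq_nonneg (|y 1| - |y 3|), sq_nonneg (|y 2| - |y 3|)]
  have t (B p w : ℝ) (e1 : 0 ≤ n - (1000000 * B + n * p)) (e2 : 0 ≤ n + (1000000 * B + n * p)) :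
      (1000000 * B + n * p) * w ≤ n * |w| := by
    have : |1000000 * B + n * p| ≤ n := abs_le.2 ⟨by linarith, by linarith⟩
    calc (1000000 * B + n * p) * w ≤ |(1000000 * B + n * p) * w| := le_abs_self _
      _ = |1000000 * B + n * p| * |w| := abs_mul _ _
      _ ≤ n * |w| := mul_le_mul_of_nonneg_right this (abs_nonneg _)
  have t1 := t B1 p1 (y 1) d1 d2
  have t2 := t B2 p2 (y 2) d3 d4
  have t3 := t B3 p3 (y 3) d5 d6
  have u1 : n * (|y 1| + |y 2| + |y 3|) ≤ n * (2 * r) := mul_le_mul_of_nonneg_left habs hn.le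
  have u2 : n * (cc * r) ≤ n * (p1 * y 1 + p2 * y 2 + p3 * y 3) :=
    mul_le_mul_of_nonneg_left hk hn.le
  have u3 : (cc - 2) * n * (51 / 125 * y 0) ≤ (cc - 2) * n * r :=
    mul_le_mul_of_nonneg_left hry (mul_nonneg (by linarith) hn.le)
  have u4 : 0 ≤ (51 * (cc - 2) * n - 12500 * (10000 * A - 9999 * n)) * y 0 :=
    mul_nonneg d7 hy0.le
  have u5 : n * 1 ≤ n * y 0 := mul_le_mul_of_nonneg_left hy01 hn.le
  have key : A * y 0 + B1 * y 1 + B2 * y 2 + B3 * y 3 ≤ n * (y 0 - 1 / 10000) := by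
    nlinarith
  have : n⁻¹ * A * y 0 + n⁻¹ * B1 * y 1 + n⁻¹ * B2 * y 2 + n⁻¹ * B3 * y 3 =
      n⁻¹ * (A * y 0 + B1 * y 1 + B2 * y 2 + B3 * y 3) := by ring
  rw [this, inv_mul_le_iff₀ hn]
  exact key

theorem descend (N : ℕ) : ∀ y : Fin 4 → ℝ, H y → y 0 ≤ N / 10000 →
    ∃ g ∈ Gam, ((g : MR) *ᵥ y) 0 ^ 2 ≤ 6 / 5 := by
  induction N with
  | zero => intro y hy h; have := hy.2; simp at h; linarith
  | succ N ih =>
    intro y hy h
    by_cases h1 : y 0 ^ 2 ≤ 6 / 5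
    · exact ⟨1, Gam.one_mem, by simpa using h1⟩
    · obtain ⟨k, hk⟩ := step hy (not_le.1 h1)
      obtain ⟨g, hg, hg'⟩ := ih (gm k *ᵥ y) (H_smul (P_gm k) hy) (by push_cast at h; linarith)
      refine ⟨g * gu k, Gam.mul_mem hg (gu_mem k), ?_⟩
      rw [Units.val_mul, ← Matrix.mulVec_mulVec]
      exact hg'

theorem near (y : Fin 4 → ℝ) (hy : H y) : ∃ g ∈ Gam, ((g : MR) *ᵥ y) 0 ^ 2 ≤ 6 / 5 := by
  obtain ⟨N, hN⟩ := exists_nat_ge (10000 * y 0)
  exact descend N y hy (by linarith)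

theorem diam_le (x y : Fin 4 → ℝ) (hx : H x) (hy : H y) :
    ∃ g ∈ Gam, -(x ⬝ᵥ (J *ᵥ ((g : MR) *ᵥ y))) ≤ 7 / 5 := by
  obtain ⟨g, hg, hg'⟩ := near x hx
  obtain ⟨h, hh, hh'⟩ := near y hy
  refine ⟨g⁻¹ * h, Gam.mul_mem (Gam.inv_mem hg) hh, ?_⟩
  have e := form_inv hg.1.1 x (((g⁻¹ * h : Matrix.GeneralLinearGroup (Fin 4) ℝ) : MR) *ᵥ y)
  rw [← e, Matrix.mulVec_mulVec y (g : MR), ← Units.val_mul, mul_inv_cancel_left, form_eq]
  have h1 := (H_smul hg.1 hx).1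
  have h2 := (H_smul hh.1 hy).1
  set u := (g : MR) *ᵥ x
  set v := (h : MR) *ᵥ y
  nlinarith [sq_nonneg (u 0 - v 0), sq_nonneg (u 1 + v 1), sq_nonneg (u 2 + v 2),
    sq_nonneg (u 3 + v 3)]

end H511Diam
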