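import Pool.Agent.H511Z.DiamData

/-! Kernel checks of the data. -/

open Matrix

namespace H511Diam

def Jz : M3 := !![-1, 0, 0, 0; 0, 1, 0, 0; 0, 0, 1, 0; 0, 0, 0, 1]

def lam {R : Type} [CommRing R] (w : Fin 6 → R) (Y : Matrix (Fin 4) (Fin 4) R) : R :=
  w 0 * Y 0 1 + w 1 * Y 0 2 + w 2 * Y 0 3 + w 3 * Y 1 2 + w 4 * Y 1 3 + w 5 * Y 2 3

def det4 {R : Type} [CommRing R] (A : Matrix (Fin 4) (Fin 4) R) : R :=
  A 0 0 * (A 1 1 * (A 2 2 * A 3 3 - A 2 3 * A 3 2) - A 1 2 * (A 2 1 * A 3 3 - A 2 3 * A 3 1)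
      + A 1 3 * (A 2 1 * A 3 2 - A 2 2 * A 3 1))
  - A 0 1 * (A 1 0 * (A 2 2 * A 3 3 - A 2 3 * A 3 2) - A 1 2 * (A 2 0 * A 3 3 - A 2 3 * A 3 0)
      + A 1 3 * (A 2 0 * A 3 2 - A 2 2 * A 3 0))
  + A 0 2 * (A 1 0 * (A 2 1 * A 3 3 - A 2 3 * A 3 1) - A 1 1 * (A 2 0 * A 3 3 - A 2 3 * A 3 0)
      + A 1 3 * (A 2 0 * A 3 1 - A 2 1 * A 3 0))
  - A 0 3 * (A 1 0 * (A 2 1 * A 3 2 - A 2 2 * A 3 1) - A 1 1 * (A 2 0 * A 3 2 - A 2 2 * A 3 0)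
      + A 1 2 * (A 2 0 * A 3 1 - A 2 1 * A 3 0))

theorem det_eq_det4 {R : Type} [CommRing R] (A : Matrix (Fin 4) (Fin 4) R) : A.det = det4 A := by
  rw [Matrix.det_succ_row_zero]
  simp [Fin.sum_univ_succ, Matrix.det_fin_three, det4, Fin.succAbove, Matrix.submatrix]
  ring

def K1 : M3 := !![0, 1, 0, 0; 1, 0, 0, 0; 0, 0, 0, 0; 0, 0, 0, 0]
def K2 : M3 := !![0, 0, 1, 0; 0, 0, 0, 0; 1, 0, 0, 0; 0, 0, 0, 0]
def K3 : M3 := !![0, 0, 0, 1; 0, 0, 0, 0; 0, 0, 0, 0; 1, 0, 0, 0]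

theorem chk_lam : ∀ a b : Fin 6, lam (W b) (X a) = if a = b then (NN : Z3) else 0 := by
  decide +kernel

theorem chk_K1 : ∀ i j : Fin 4, ∑ a : Fin 6, W a 0 * X a i j = (NN : Z3) * K1 i j := by
  decide +kernel
theorem chk_K2 : ∀ i j : Fin 4, ∑ a : Fin 6, W a 1 * X a i j = (NN : Z3) * K2 i j := by
  decide +kernel
theorem chk_K3 : ∀ i j : Fin 4, ∑ a : Fin 6, W a 2 * X a i j = (NN : Z3) * K3 i j := by
  decide +kernel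

theorem chk_orth : ∀ (k : Fin 15) (i j : Fin 4),
    ((M k)ᵀ * Jz * M k) i j = ((nd k * nd k : ℤ) : Z3) * Jz i j := by
  decide +kernel

theorem chk_det : ∀ k : Fin 15, det4 (M k) = ((nd k ^ 4 : ℤ) : Z3) := by
  decide +kernel

theorem chk_inv : ∀ (k : Fin 15) (i j : Fin 4),
    (M k * M (sg k)) i j = ((nd k * nd (sg k) : ℤ) : Z3) * (1 : M3) i j := by
  decide +kernel

theorem chk_conj : ∀ (k : Fin 15) (a : Fin 6),
    M k * X a = (∑ b : Fin 6, cf k a b • X b) * M k := by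
  decide +kernel

theorem chk_nd : ∀ k : Fin 15, 0 < nd k := by decide +kernel

/-- a lower bound for `10^15 * z` -/
def lb (z : Z3) : ℤ :=
  10 ^ 15 * z.re + (if 0 ≤ z.im then 1732050807568877 else 1732050807568878) * z.im

theorem chk_pos : ∀ k : Fin 15, 0 < lb (M k 0 0) := by decide +kernel

theorem chk_cap : ∀ k : Fin 15,
    0 ≤ lb ((nd k : Z3) - (1000000 * M k 0 1 + (nd k : Z3) * ((cap k).1 : Z3))) ∧
    0 ≤ lb ((nd k : Z3) + (1000000 * M k 0 1 + (nd k : Z3) * ((cap k).1 : Z3))) ∧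
    0 ≤ lb ((nd k : Z3) - (1000000 * M k 0 2 + (nd k : Z3) * ((cap k).2.1 : Z3))) ∧
    0 ≤ lb ((nd k : Z3) + (1000000 * M k 0 2 + (nd k : Z3) * ((cap k).2.1 : Z3))) ∧
    0 ≤ lb ((nd k : Z3) - (1000000 * M k 0 3 + (nd k : Z3) * ((cap k).2.2.1 : Z3))) ∧
    0 ≤ lb ((nd k : Z3) + (1000000 * M k 0 3 + (nd k : Z3) * ((cap k).2.2.1 : Z3))) ∧
    0 ≤ lb (51 * (((cap k).2.2.2 : Z3) - 2) * (nd k : Z3)
      - 12500 * (10000 * M k 0 0 - 9999 * (nd k : Z3))) ∧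
    2 ≤ (cap k).2.2.2 := by
  decide +kernel

abbrev V := ℤ × ℤ × ℤ

def inc (k : Fin 15) (v : V) : Bool :=
  decide (0 ≤ (cap k).1 * v.1 + (cap k).2.1 * v.2.1 + (cap k).2.2.1 * v.2.2) &&
  decide ((cap k).2.2.2 ^ 2 * (v.1 ^ 2 + v.2.1 ^ 2 + v.2.2 ^ 2) ≤
    ((cap k).1 * v.1 + (cap k).2.1 * v.2.1 + (cap k).2.2.1 * v.2.2) ^ 2)

def good (a b c : V) : Bool := (List.finRange 15).any fun k => inc k a && inc k b && inc k c

def dbl (a : V) : V := (2 * a.1, 2 * a.2.1, 2 * a.2.2)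
def add (a b : V) : V := (a.1 + b.1, a.2.1 + b.2.1, a.2.2 + b.2.2)

def chk : ℕ → V → V → V → Bool
  | 0, a, b, c => good a b c
  | n + 1, a, b, c => good a b c ||
      (chk n (dbl c) (dbl a) (add a b) && chk n (dbl b) (dbl c) (add a b))

theorem chk_cover : ∀ x ∈ [(1 : ℤ), -1], ∀ y ∈ [(1 : ℤ), -1], ∀ z ∈ [(1 : ℤ), -1],
    chk 12 (x, 0, 0) (0, y, 0) (0, 0, z) = true := by
  decide +kernel

end H511Diam
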