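import Pool.Agent.H511Z.LayGen

set_option autoImplicit false

open Relation

namespace Pool.Agent.H511Z.Lay

/-- Positions in a fan: the centre, or the `m`-th vertex of the `q`-th path. -/
abbrev J (K : ℕ) : Type := Option (Fin K × Fin K)

/-- Sequences of choices, one for each layer. -/
abbrev Sq (n K : ℕ) : Type := Fin (n + 1) → J K

/-- The vertices: a root, fan vertices and grid vertices. -/
inductive W (n K R : ℕ) : Type
  | root : W n K R
  | fan (i : Fin (n + 1)) (f : Sq n K) (j : J K) : W n K R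
  | grid (f : Sq n K) (r : Fin R) (i j : Fin (n + 1)) : W n K R

variable {n K R : ℕ}

/-- An injective code for the vertices. -/
def W.code : W n K R → Option ((Fin (n + 1) × Sq n K × J K) ⊕
    (Sq n K × Fin R × Fin (n + 1) × Fin (n + 1)))
  | .root => none
  | .fan i f j => some (.inl (i, f, j))
  | .grid f r i j => some (.inr (f, r, i, j))

instance : Finite (W n K R) := by
  refine Finite.of_injective W.code ?_
  intro x y h
  cases x <;> cases y <;> simp_all [W.code]

/-- Predecessor in `Fin m`, fixing zero. -/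
def pr {m : ℕ} (i : Fin m) : Fin m := ⟨i.val - 1, lt_of_le_of_lt (Nat.sub_le _ _) i.isLt⟩

@[simp] theorem pr_val {m : ℕ} (i : Fin m) : (pr i).val = i.val - 1 := rfl

/-- The history before layer `i`. -/
def tr (i : Fin (n + 1)) (f : Sq n K) : Sq n K := fun k => if k.val < i.val then f k else none

/-- The fan vertex chosen by `f` in layer `i`. -/
def apex (R : ℕ) (f : Sq n K) (i : Fin (n + 1)) : W n K R := .fan i (tr i f) (f i)

theorem apex_congr {f g : Sq n K} {i : Fin (n + 1)} (h : ∀ k : Fin (n + 1), k.val ≤ i.val → f k = g k) :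
    apex R f i = apex R g i := by
  unfold apex
  rw [h i le_rfl]
  congr 1
  funext k
  unfold tr
  split_ifs with hk
  · exact h k hk.le
  · rfl

theorem apex_tr {f : Sq n K} {i k : Fin (n + 1)} (h : k.val < i.val) :
    apex R (tr i f) k = apex R f k := by
  apply apex_congr
  intro l hl
  unfold tr
  rw [if_pos (by omega)]

/-- The previous position in a fan. -/
def prevJ : J K → J K
  | none => none
  | some (q, m) => if m.val = 0 then none else some (q, pr m)

/-- Depth of a position in a fan. -/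
def depJ : J K → ℕ
  | none => 0
  | some (_, m) => m.val + 1

/-- The parent function of the decomposition tree. -/
def par : W n K R → W n K R
  | .root => .root
  | .fan i f none => if i.val = 0 then .root else apex R f (pr i)
  | .fan i f (some p) => .fan i f (prevJ (some p))
  | .grid f r i j => if i.val ≠ 0 then .grid f r (pr i) j
      else if j.val ≠ 0 then .grid f r (Fin.last n) (pr j) else apex R f (Fin.last n)

/-- The depth function. -/
def dep : W n K R → ℕ ×ₗ ℕ
  | .root => toLex (0, 0)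
  | .fan i _ j => toLex (i.val + 1, depJ j)
  | .grid _ _ i j => toLex (n + 2 + j.val, i.val)

theorem dep_par (x : W n K R) (hx : x ≠ .root) : dep (par x) < dep x := by
  rcases x with _ | ⟨i, f, _ | ⟨q, m⟩⟩ | ⟨f, r, i, j⟩
  · exact absurd rfl hx
  · simp only [par]
    split_ifs with h
    · simp [dep, Prod.Lex.toLex_lt_toLex]
    · simp only [dep, apex, Prod.Lex.toLex_lt_toLex, pr_val]
      omega
  · simp only [par, prevJ]
    split_ifs with h
    · simp [dep, depJ, Prod.Lex.toLex_lt_toLex]
    · simp only [dep, depJ, Prod.Lex.toLex_lt_toLex, pr_val, true_and]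
      omega
  · simp only [par]
    split_ifs with h1 h2
    · simp only [dep, Prod.Lex.toLex_lt_toLex, pr_val, true_and]
      omega
    · simp only [dep, Prod.Lex.toLex_lt_toLex, pr_val]
      omega
    · simp only [dep, apex, Prod.Lex.toLex_lt_toLex, Fin.val_last]
      omega

/-- Membership in the bag of a node. -/
def InB : W n K R → W n K R → Prop
  | .root, y => y = .root
  | .fan i f j, y => y = .fan i f j ∨ y = .fan i f (prevJ j) ∨ y = .fan i f none ∨
      ∃ k : Fin (n + 1), k.val < i.val ∧ y = apex R f k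
  | .grid f r i j, y => (∃ k : Fin (n + 1), k.val ≤ i.val ∧ y = .grid f r k j) ∨
      (j.val ≠ 0 ∧ ∃ k, y = .grid f r k (pr j)) ∨ ∃ k, y = apex R f k

theorem inB_self (x : W n K R) : InB x x := by
  rcases x with _ | ⟨i, f, j⟩ | ⟨f, r, i, j⟩
  · rfl
  · exact Or.inl rfl
  · exact Or.inl ⟨i, le_rfl, rfl⟩

theorem inB_apex (f : Sq n K) (i k : Fin (n + 1)) (h : k.val ≤ i.val) :
    InB (apex R f i) (apex R f k) := by
  rcases h.eq_or_lt with h | h
  · rw [Fin.ext h]
    exact inB_self _
  · exact Or.inr (Or.inr (Or.inr ⟨k, h, (apex_tr h).symm⟩))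

theorem inB_par (v x : W n K R) (h : InB x v) (hx : x ≠ v) : x ≠ .root ∧ InB (par x) v := by
  rcases x with _ | ⟨i, f, _ | ⟨q, m⟩⟩ | ⟨f, r, i, j⟩
  · exact absurd (Eq.symm h) hx
  · refine ⟨by simp, ?_⟩
    rcases h with h | h | h | ⟨k, hk, h⟩
    · exact absurd h.symm hx
    · exact absurd h.symm hx
    · exact absurd h.symm hx
    · simp only [par]
      rw [if_neg (by omega), h]
      exact inB_apex f _ k (by simp only [pr_val]; omega)
  · refine ⟨by simp, ?_⟩
    rcases h with h | h | h | h
    · exact absurd h.symm hx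
    · exact Or.inl h
    · exact Or.inr (Or.inr (Or.inl h))
    · exact Or.inr (Or.inr (Or.inr h))
  · refine ⟨by simp, ?_⟩
    simp only [par]
    split_ifs with h1 h2
    · rcases h with ⟨k, hk, h⟩ | h | h
      · refine Or.inl ⟨k, ?_, h⟩
        have : k ≠ i := by
          rintro rfl
          exact hx h.symm
        have : k.val ≠ i.val := fun e => this (Fin.ext e)
        simp only [pr_val]
        omega
      · exact Or.inr (Or.inl h)
      · exact Or.inr (Or.inr h)
    · rcases h with ⟨k, hk, h⟩ | ⟨_, k, h⟩ | h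
      · have : k = i := Fin.ext (by omega)
        subst this
        exact absurd h.symm hx
      · exact Or.inl ⟨k, by simp only [Fin.val_last]; omega, h⟩
      · exact Or.inr (Or.inr h)
    · rcases h with ⟨k, hk, h⟩ | ⟨h, _⟩ | ⟨k, h⟩
      · have : k = i := Fin.ext (by omega)
        subst this
        exact absurd h.symm hx
      · exact absurd h h2
      · rw [h]
        exact inB_apex f _ k (by simp only [Fin.val_last]; omega)

/-- The layer of a vertex. -/
def lay : W n K R → ℕ
  | .root => 0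
  | .fan i _ _ => i.val
  | .grid _ _ i _ => i.val

/-- The dominating vertex. -/
def boss : W n K R → W n K R
  | .root => .root
  | .fan i f _ => .fan i f none
  | .grid f _ i _ => apex R f i

/-- The bounded-degree part of the adjacency relation. -/
def Low : W n K R → W n K R → Prop
  | .fan i f (some (q, m)), .fan i' f' (some (q', m')) =>
      i = i' ∧ f = f' ∧ q = q' ∧ m.val ≤ m'.val + 1 ∧ m'.val ≤ m.val + 1
  | .grid f r i j, .grid f' r' i' j' =>
      f = f' ∧ r = r' ∧ i.val ≤ i'.val + 1 ∧ i'.val ≤ i.val + 1 ∧ j.val ≤ j'.val + 1 ∧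
        j'.val ≤ j.val + 1
  | _, _ => False

/-- The graph. -/
def GG (n K R : ℕ) : SimpleGraph (W n K R) :=
  SimpleGraph.fromRel fun x y => Low x y ∨ boss x = y

theorem low_symm {x y : W n K R} (h : Low x y) : Low y x := by
  rcases x with _ | ⟨i, f, _ | ⟨q, m⟩⟩ | ⟨f, r, i, j⟩ <;>
    rcases y with _ | ⟨i', f', _ | ⟨q', m'⟩⟩ | ⟨f', r', i', j'⟩ <;>
    simp only [Low] at h ⊢
  · obtain ⟨h1, h2, h3, h4, h5⟩ := h
    exact ⟨h1.symm, h2.symm, h3.symm, h5, h4⟩
  · obtain ⟨h1, h2, h3, h4, h5, h6⟩ := h
    exact ⟨h1.symm, h2.symm, h4, h3, h6, h5⟩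

theorem adj_iff {x y : W n K R} :
    (GG n K R).Adj x y ↔ x ≠ y ∧ (Low x y ∨ boss x = y ∨ boss y = x) := by
  simp only [GG, SimpleGraph.fromRel_adj]
  constructor
  · rintro ⟨h, (h1 | h1) | (h1 | h1)⟩
    · exact ⟨h, Or.inl h1⟩
    · exact ⟨h, Or.inr (Or.inl h1)⟩
    · exact ⟨h, Or.inl (low_symm h1)⟩
    · exact ⟨h, Or.inr (Or.inr h1)⟩
  · rintro ⟨h, h1 | h1 | h1⟩
    · exact ⟨h, Or.inl (Or.inl h1)⟩
    · exact ⟨h, Or.inl (Or.inr h1)⟩
    · exact ⟨h, Or.inr (Or.inr h1)⟩

theorem inB_boss (x : W n K R) : InB x (boss x) := by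
  rcases x with _ | ⟨i, f, j⟩ | ⟨f, r, i, j⟩
  · rfl
  · exact Or.inr (Or.inr (Or.inl rfl))
  · exact Or.inr (Or.inr ⟨i, rfl⟩)

theorem lay_boss (x : W n K R) : lay (boss x) = lay x := by
  rcases x with _ | ⟨i, f, j⟩ | ⟨f, r, i, j⟩ <;> rfl

theorem low_inB {x y : W n K R} (h : Low x y) : InB x y ∨ InB y x := by
  rcases x with _ | ⟨i, f, _ | ⟨q, m⟩⟩ | ⟨f, r, i, j⟩ <;>
    rcases y with _ | ⟨i', f', _ | ⟨q', m'⟩⟩ | ⟨f', r', i', j'⟩ <;>
    simp only [Low] at h
  · obtain ⟨rfl, rfl, rfl, h4, h5⟩ := h
    rcases lt_trichotomy m.val m'.val with h | h | h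
    · right
      refine Or.inr (Or.inl ?_)
      simp only [prevJ]
      rw [if_neg (by omega)]
      have : m = pr m' := Fin.ext (by simp only [pr_val]; omega)
      rw [← this]
    · left
      rw [Fin.ext h]
      exact inB_self _
    · left
      refine Or.inr (Or.inl ?_)
      simp only [prevJ]
      rw [if_neg (by omega)]
      have : m' = pr m := Fin.ext (by simp only [pr_val]; omega)
      rw [← this]
  · obtain ⟨rfl, rfl, h3, h4, h5, h6⟩ := h
    rcases lt_trichotomy j.val j'.val with h | h | h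
    · right
      refine Or.inr (Or.inl ⟨by omega, i, ?_⟩)
      have : j = pr j' := Fin.ext (by simp only [pr_val]; omega)
      rw [← this]
    · rw [Fin.ext h]
      rcases le_total i.val i'.val with h | h
      · exact Or.inr (Or.inl ⟨i, h, rfl⟩)
      · exact Or.inl (Or.inl ⟨i', h, rfl⟩)
    · left
      refine Or.inr (Or.inl ⟨by omega, i', ?_⟩)
      have : j' = pr j := Fin.ext (by simp only [pr_val]; omega)
      rw [← this]

theorem low_lay {x y : W n K R} (h : Low x y) : lay x ≤ lay y + 1 ∧ lay y ≤ lay x + 1 := by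
  rcases x with _ | ⟨i, f, _ | ⟨q, m⟩⟩ | ⟨f, r, i, j⟩ <;>
    rcases y with _ | ⟨i', f', _ | ⟨q', m'⟩⟩ | ⟨f', r', i', j'⟩ <;>
    simp only [Low] at h
  · obtain ⟨rfl, _⟩ := h
    simp [lay]
  · obtain ⟨_, _, h3, h4, _⟩ := h
    exact ⟨h3, h4⟩

theorem adj_bag {x y : W n K R} (h : (GG n K R).Adj x y) : ∃ z, InB z x ∧ InB z y := by
  rcases (adj_iff.1 h).2 with h | h | h
  · rcases low_inB h with h | h
    · exact ⟨x, inB_self x, h⟩
    · exact ⟨y, h, inB_self y⟩
  · exact ⟨x, inB_self x, h ▸ inB_boss x⟩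
  · exact ⟨y, h ▸ inB_boss y, inB_self y⟩

theorem adj_lay {x y : W n K R} (h : (GG n K R).Adj x y) :
    lay x ≤ lay y + 1 ∧ lay y ≤ lay x + 1 := by
  rcases (adj_iff.1 h).2 with h | h | h
  · exact low_lay h
  · rw [← h, lay_boss]; omega
  · rw [← h, lay_boss]; omega

theorem bag_layer (x : W n K R) (a : ℕ) :
    ∃ e1 e2 e3 e4 : W n K R, ∀ y, InB x y → lay y = a → y = e1 ∨ y = e2 ∨ y = e3 ∨ y = e4 := by
  let k0 : Fin (n + 1) := ⟨min a n, by omega⟩
  have hk : ∀ k : Fin (n + 1), k.val = a → k = k0 := fun k hk =>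
    Fin.ext (by have := k.isLt; simp only [k0]; omega)
  rcases x with _ | ⟨i, f, j⟩ | ⟨f, r, i, j⟩
  · exact ⟨.root, .root, .root, .root, fun y h _ => Or.inl h⟩
  · refine ⟨.fan i f j, .fan i f (prevJ j), .fan i f none, apex R f k0, fun y h hl => ?_⟩
    rcases h with h | h | h | ⟨k, _, h⟩
    · exact Or.inl h
    · exact Or.inr (Or.inl h)
    · exact Or.inr (Or.inr (Or.inl h))
    · subst h
      rw [hk k hl]
      exact Or.inr (Or.inr (Or.inr rfl))
  · refine ⟨.grid f r k0 j, .grid f r k0 (pr j), apex R f k0, .root, fun y h hl => ?_⟩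
    rcases h with ⟨k, _, h⟩ | ⟨_, k, h⟩ | ⟨k, h⟩
    · subst h
      rw [hk k hl]
      exact Or.inl rfl
    · subst h
      rw [hk k hl]
      exact Or.inr (Or.inl rfl)
    · subst h
      rw [hk k hl]
      exact Or.inr (Or.inr (Or.inl rfl))

/-- Residues that separate the low neighbours of a vertex. -/
def resid : W n K R → Fin 3 × Fin 3
  | .fan _ _ (some (_, m)) => (⟨m.val % 3, Nat.mod_lt _ (by norm_num)⟩, 0)
  | .grid _ _ i j => (⟨i.val % 3, Nat.mod_lt _ (by norm_num)⟩, ⟨j.val % 3, Nat.mod_lt _ (by norm_num)⟩)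
  | _ => (0, 0)

theorem low_inj {u x y : W n K R} (hx : Low u x) (hy : Low u y) (h : resid x = resid y) : x = y := by
  rcases u with _ | ⟨i, f, _ | ⟨q, m⟩⟩ | ⟨f, r, i, j⟩ <;>
    rcases x with _ | ⟨i', f', _ | ⟨q', m'⟩⟩ | ⟨f', r', i', j'⟩ <;>
    simp only [Low] at hx <;>
    rcases y with _ | ⟨i'', f'', _ | ⟨q'', m''⟩⟩ | ⟨f'', r'', i'', j''⟩ <;>
    simp only [Low] at hy
  · obtain ⟨rfl, rfl, rfl, h4, h5⟩ := hx
    obtain ⟨rfl, rfl, rfl, h6, h7⟩ := hy
    simp only [resid, Prod.mk.injEq, Fin.mk.injEq, and_true] at h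
    have : m' = m'' := Fin.ext (by omega)
    rw [this]
  · obtain ⟨rfl, rfl, h3, h4, h5, h6⟩ := hx
    obtain ⟨rfl, rfl, h7, h8, h9, h10⟩ := hy
    simp only [resid, Prod.mk.injEq, Fin.mk.injEq] at h
    have e1 : i' = i'' := Fin.ext (by omega)
    have e2 : j' = j'' := Fin.ext (by omega)
    rw [e1, e2]

theorem no_K2 : ¬ (completeBipartiteGraph (Fin 2) (Fin 21)).IsContained (GG n K R) := by
  classical
  rintro ⟨c⟩
  let u := c (Sum.inl 0)
  let v := c (Sum.inl 1)
  let w : Fin 21 → W n K R := fun k => c (Sum.inr k)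
  have huv : u ≠ v := fun h => by simpa using c.injective h
  have hw : Function.Injective w := fun a b h => by simpa using c.injective h
  have hu : ∀ k, (GG n K R).Adj u (w k) := fun k => c.toHom.map_adj (by simp)
  have hv : ∀ k, (GG n K R).Adj v (w k) := fun k => c.toHom.map_adj (by simp)
  let code : Fin 21 → (Fin 3 × Fin 3) ⊕ (Fin 3 × Fin 3) ⊕ Bool := fun k =>
    if Low u (w k) then .inl (resid (w k)) else if Low v (w k) then .inr (.inl (resid (w k)))
    else .inr (.inr (decide (boss u = w k)))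
  have hcase : ∀ k, ¬ Low u (w k) → ¬ Low v (w k) → ¬ boss u = w k → boss v = w k := by
    intro k h1 h2 h3
    rcases (adj_iff.1 (hu k)).2 with h | h | h
    · exact absurd h h1
    · exact absurd h h3
    · rcases (adj_iff.1 (hv k)).2 with h' | h' | h'
      · exact absurd h' h2
      · exact h'
      · exact absurd (h.symm.trans h') huv
  have hinj : Function.Injective code := by
    intro a b hab
    apply hw
    simp only [code] at hab
    split_ifs at hab with h1 h2 h3 h4 h5 h6 h7 h8
    all_goals simp only [Sum.inl.injEq, Sum.inr.injEq, reduceCtorEq, decide_eq_decide] at hab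
    · exact low_inj h1 h2 hab
    · exact low_inj h4 h6 hab
    · by_cases hb : boss u = w a
      · rw [← hb, ← hab.1 hb]
      · rw [← hcase a h1 h4 hb, ← hcase b h7 h8 (fun h => hb (hab.2 h))]
  have := Fintype.card_le_of_injective code hinj
  simp at this

/-! ### Colourings -/

theorem three (x y z : Fin 3) (h1 : x ≠ 0) (h2 : y ≠ 0) (h3 : z ≠ 0) (h4 : x ≠ z) (h5 : y ≠ z) :
    x = y := by
  omega

section Colour

variable {C : ℕ} [Fintype (W n K R)] (c : W n K R → Fin 3)
  (hc : ∀ S : Finset (W n K R), (∀ u ∈ S, ∀ w ∈ S, c u = c w) →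
      ((GG n K R).induce (S : Set (W n K R))).Connected → S.card ≤ C)

include hc

theorem fan_zero (hK : C < K) (i : Fin (n + 1)) (f : Sq n K) : ∃ j : J K, c (.fan i f j) = 0 := by
  classical
  by_contra hcon
  push Not at hcon
  have h1 : ∃ q : Fin K, ∀ m : Fin K, c (.fan i f (some (q, m))) ≠ c (.fan i f none) := by
    by_contra h
    push Not at h
    choose m hm using h
    have := card_le_of_inj (GG n K R) c C hc (.fan i f none)
      (fun q : Fin K => W.fan i f (some (q, m q))) (fun a b hab => by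
        simp only [W.fan.injEq, Option.some.injEq, Prod.mk.injEq, true_and] at hab
        exact hab.1) (fun q => ReflTransGen.single ⟨adj_iff.2 ⟨by simp, Or.inr (Or.inr rfl)⟩,
          (hm q).symm⟩)
    simp only [Fintype.card_fin] at this
    omega
  obtain ⟨q, hq⟩ := h1
  have hK0 : 0 < K := by omega
  have hr : ∀ (a : ℕ) (ha : a < K), ReflTransGen (Mono (GG n K R) c)
      (.fan i f (some (q, ⟨0, hK0⟩))) (.fan i f (some (q, ⟨a, ha⟩))) := by
    intro a
    induction a with
    | zero => intro _; exact ReflTransGen.refl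
    | succ a ih =>
      intro ha
      refine (ih (by omega)).tail ⟨adj_iff.2 ⟨by simp, Or.inl ?_⟩, ?_⟩
      · simp only [Low, true_and]
        omega
      · exact three _ _ _ (hcon _) (hcon _) (hcon none) (hq _) (hq _)
  have := card_le_of_inj (GG n K R) c C hc (.fan i f (some (q, ⟨0, hK0⟩)))
    (fun m : Fin K => W.fan i f (some (q, m))) (fun a b hab => by simpa using hab)
    (fun m => hr m.val m.isLt)
  simp only [Fintype.card_fin] at this
  omega

theorem seq_zero (hK : C < K) : ∃ f : Sq n K, ∀ i, c (apex R f i) = 0 := by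
  classical
  have key : ∀ a : ℕ, ∃ f : Sq n K, ∀ i : Fin (n + 1), i.val < a → c (apex R f i) = 0 := by
    intro a
    induction a with
    | zero => exact ⟨fun _ => none, fun i hi => absurd hi (by omega)⟩
    | succ a ih =>
      obtain ⟨f, hf⟩ := ih
      by_cases ha : a < n + 1
      · obtain ⟨j, hj⟩ := fan_zero c hc hK ⟨a, ha⟩ (tr ⟨a, ha⟩ f)
        refine ⟨Function.update f ⟨a, ha⟩ j, fun i hi => ?_⟩
        rcases (Nat.lt_succ_iff.1 hi).eq_or_lt with h | h
        · have e : i = ⟨a, ha⟩ := Fin.ext h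
          subst e
          have e2 : tr ⟨a, ha⟩ (Function.update f ⟨a, ha⟩ j) = tr ⟨a, ha⟩ f := by
            funext k
            unfold tr
            split_ifs with hk
            · rw [Function.update_of_ne]
              rintro rfl
              exact lt_irrefl _ hk
            · rfl
          unfold apex
          rw [e2, Function.update_self]
          exact hj
        · rw [← hf i h]
          congr 1
          apply apex_congr
          intro k hk
          rw [Function.update_of_ne]
          rintro rfl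
          simp only at hk
          omega
      · exact ⟨f, fun i _ => hf i (by have := i.isLt; omega)⟩
  obtain ⟨f, hf⟩ := key (n + 1)
  exact ⟨f, fun i => hf i i.isLt⟩

theorem copy_free (hR : (n + 1) * C < R) (f : Sq n K) (hf : ∀ i, c (apex R f i) = 0) :
    ∃ r : Fin R, ∀ i j, c (.grid f r i j) ≠ 0 := by
  classical
  by_contra hcon
  push Not at hcon
  choose a b hab using hcon
  have h1 : ∀ i : Fin (n + 1), (Finset.univ.filter fun r => a r = i).card ≤ C := by
    intro i
    have := card_le_of_inj (GG n K R) c C hc (apex R f i)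
      (fun r : {r : Fin R // a r = i} => W.grid f r.1 (a r.1) (b r.1)) (fun x y hxy => by
        simp only [W.grid.injEq, true_and] at hxy
        exact Subtype.ext hxy.1) (fun r => ReflTransGen.single ⟨adj_iff.2 ⟨by simp [apex],
          Or.inr (Or.inr (by simp only [boss, r.2]))⟩, by rw [hf i, hab]⟩)
    rwa [Fintype.card_subtype] at this
  have h2 := Finset.card_le_mul_card_image_of_maps_to (s := Finset.univ) (t := Finset.univ)
    (f := a) (fun _ _ => Finset.mem_univ _) C (fun i _ => h1 i)
  simp only [Finset.card_univ, Fintype.card_fin] at h2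
  rw [mul_comm] at h2
  omega

theorem no_colouring (hn : C ≤ n) (hK : C < K) (hR : (n + 1) * C < R) : False := by
  classical
  obtain ⟨f, hf⟩ := seq_zero c hc hK
  obtain ⟨r, hr⟩ := copy_free c hc hR f hf
  let p : ℕ × ℕ → W n K R := fun x =>
    .grid f r ⟨min x.1 n, by omega⟩ ⟨min x.2 n, by omega⟩
  obtain ⟨u, g, hg, hgr⟩ := hex n (fun x => decide (c (p x) = 1))
  have two : ∀ x y : Fin 3, x ≠ 0 → y ≠ 0 → decide (x = 1) = decide (y = 1) → x = y := by decide
  have lift : ∀ x, ReflTransGen (Step n (fun x => decide (c (p x) = 1))) u x →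
      ReflTransGen (Mono (GG n K R) c) (p u) (p x) := by
    intro x hx
    induction hx with
    | refl => exact ReflTransGen.refl
    | @tail y z _ h2 ih =>
      by_cases hyz : p y = p z
      · rwa [← hyz]
      · obtain ⟨a1, a2, a3, a4, a5, a6, a7, a8, a9⟩ := h2
        refine ih.tail ⟨adj_iff.2 ⟨hyz, Or.inl ?_⟩, two _ _ (hr _ _) (hr _ _) a9⟩
        simp only [p, Low, true_and]
        omega
  have := card_le_of_inj (GG n K R) c C hc (p u) (fun k => p (g k)) (fun a b hab => by
    apply hg
    simp only [p, W.grid.injEq, Fin.mk.injEq, true_and] at hab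
    have h1 := hgr a
    have h2 := hgr b
    exact Prod.ext (by omega) (by omega)) (fun k => lift _ (hgr k).2.2)
  simp only [Fintype.card_fin] at this
  omega

end Colour

end Pool.Agent.H511Z.Lay
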