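import Mathlib

set_option autoImplicit false

open Relation

namespace Pool.Agent.H511Z.Lay

/-! ### Trees from parent functions -/

/-- The graph joining each node to its parent. -/
def parGraph {T : Type} (par : T → T) : SimpleGraph T := SimpleGraph.fromRel fun x y => par x = y

theorem induce_connected {T α : Type} [LT α] [WellFoundedLT α] (par : T → T) (r : T) (d : T → α)
    (hd : ∀ x, x ≠ r → d (par x) < d x) (P : T → Prop) (v : T) (hv : P v)
    (hP : ∀ x, P x → x ≠ v → x ≠ r ∧ P (par x)) :
    ((parGraph par).induce {x | P x}).Connected := by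
  rw [SimpleGraph.connected_iff_exists_forall_reachable]
  refine ⟨⟨v, hv⟩, ?_⟩
  have key : ∀ a : α, ∀ (x : T) (hx : P x), d x = a →
      ((parGraph par).induce {x | P x}).Reachable ⟨v, hv⟩ ⟨x, hx⟩ := by
    intro a
    induction a using (wellFounded_lt (α := α)).induction with
    | _ a ih =>
      intro x hx hxa
      by_cases hxv : x = v
      · subst hxv
        exact SimpleGraph.Reachable.refl _
      · obtain ⟨hr, hp⟩ := hP x hx hxv
        have hlt := hd x hr
        have h1 := ih (d (par x)) (hxa ▸ hlt) (par x) hp rfl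
        refine h1.trans (SimpleGraph.Adj.reachable ?_)
        have hne : par x ≠ x := by
          intro h
          rw [h] at hlt
          exact (wellFounded_lt (α := α)).irrefl.irrefl _ hlt
        simp only [SimpleGraph.comap_adj, Function.Embedding.subtype_apply, parGraph,
          SimpleGraph.fromRel_adj]
        exact ⟨hne, Or.inr trivial⟩
  rintro ⟨x, hx⟩
  exact key _ x hx rfl

theorem parGraph_isTree {T α : Type} [Finite T] [LT α] [WellFoundedLT α] (par : T → T) (r : T)
    (d : T → α) (hd : ∀ x, x ≠ r → d (par x) < d x) (hr : par r = r) : (parGraph par).IsTree := by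
  classical
  have hconn : (parGraph par).Connected := by
    have := induce_connected par r d hd (fun _ => True) r trivial (fun x _ hx => ⟨hx, trivial⟩)
    exact (SimpleGraph.induceUnivIso (parGraph par)).connected_iff.1 this
  rw [SimpleGraph.isTree_iff_connected_and_card]
  refine ⟨hconn, le_antisymm ?_ hconn.card_vert_le_card_edgeSet_add_one⟩
  have := Fintype.ofFinite T
  have h1 : Nat.card (parGraph par).edgeSet ≤ Nat.card {x : T // x ≠ r} := by
    have hsurj : ∀ e : (parGraph par).edgeSet, ∃ x : {x : T // x ≠ r}, s(x.1, par x.1) = e.1 := by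
      rintro ⟨e, he⟩
      induction e using Sym2.ind with
      | _ x y =>
        simp only [SimpleGraph.mem_edgeSet, parGraph, SimpleGraph.fromRel_adj] at he
        obtain ⟨hne, h | h⟩ := he
        · refine ⟨⟨x, fun hx => hne ?_⟩, by simp [h]⟩
          rw [← h, hx, hr]
        · refine ⟨⟨y, fun hy => hne ?_⟩, by simp [h]⟩
          rw [← h, hy, hr]
    choose g hg using hsurj
    refine Nat.card_le_card_of_injective g fun a b hab => ?_
    apply Subtype.ext
    rw [← hg a, ← hg b, hab]
  have h2 : Nat.card {x : T // x ≠ r} + 1 = Nat.card T := by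
    rw [Nat.card_eq_fintype_card, Nat.card_eq_fintype_card, Fintype.card_subtype_compl,
      Fintype.card_subtype_eq]
    have : 0 < Fintype.card T := Fintype.card_pos_iff.2 ⟨r⟩
    omega
  omega

/-! ### Monochromatic components -/

/-- One monochromatic step. -/
def Mono {V β : Type} (G : SimpleGraph V) (c : V → β) (x y : V) : Prop := G.Adj x y ∧ c x = c y

theorem mono_color {V β : Type} {G : SimpleGraph V} {c : V → β} {u x : V}
    (h : ReflTransGen (Mono G c) u x) : c u = c x := by
  induction h with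
  | refl => rfl
  | tail _ h2 ih => exact ih.trans h2.2

theorem card_le_of_reach {V β : Type} [Fintype V] (G : SimpleGraph V) (c : V → β) (C : ℕ)
    (h : ∀ S : Finset V, (∀ u ∈ S, ∀ w ∈ S, c u = c w) →
      (G.induce (S : Set V)).Connected → S.card ≤ C) (u : V) (S : Finset V)
    (hS : ∀ x ∈ S, ReflTransGen (Mono G c) u x) : S.card ≤ C := by
  classical
  let A : Finset V := Finset.univ.filter fun x => ReflTransGen (Mono G c) u x
  have hA : ∀ x, x ∈ A ↔ ReflTransGen (Mono G c) u x := by simp [A]
  have hsub : S ⊆ A := fun x hx => (hA x).2 (hS x hx)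
  refine (Finset.card_le_card hsub).trans (h A ?_ ?_)
  · intro x hx y hy
    rw [← mono_color ((hA x).1 hx), ← mono_color ((hA y).1 hy)]
  · rw [SimpleGraph.connected_iff_exists_forall_reachable]
    have hu : u ∈ (A : Set V) := (hA u).2 ReflTransGen.refl
    refine ⟨⟨u, hu⟩, ?_⟩
    have key : ∀ x (hx : ReflTransGen (Mono G c) u x),
        (G.induce (A : Set V)).Reachable ⟨u, hu⟩ ⟨x, (hA x).2 hx⟩ := by
      intro x hx
      induction hx with
      | refl => exact SimpleGraph.Reachable.refl _
      | tail h1 h2 ih =>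
        refine ih.trans (SimpleGraph.Adj.reachable ?_)
        simpa using h2.1
    rintro ⟨x, hx⟩
    exact key x ((hA x).1 hx)

theorem card_le_of_inj {V β ι : Type} [Fintype V] [Fintype ι] (G : SimpleGraph V) (c : V → β)
    (C : ℕ) (h : ∀ S : Finset V, (∀ u ∈ S, ∀ w ∈ S, c u = c w) →
      (G.induce (S : Set V)).Connected → S.card ≤ C) (u : V) (g : ι → V)
    (hg : Function.Injective g) (hS : ∀ i, ReflTransGen (Mono G c) u (g i)) :
    Fintype.card ι ≤ C := by
  classical
  have := card_le_of_reach G c C h u (Finset.univ.image g) (by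
    intro x hx
    obtain ⟨i, _, rfl⟩ := Finset.mem_image.1 hx
    exact hS i)
  rwa [Finset.card_image_of_injective _ hg] at this

/-! ### The Hex lemma -/

/-- The indicator of an edge joining a marked red label to a marked blue label. -/
def ph (x y : Bool × Bool) : ZMod 2 :=
  if (x = (true, true) ∧ y = (false, true)) ∨ (x = (false, true) ∧ y = (true, true)) then 1 else 0

/-- Labels of the same colour carry the same mark. -/
def Compat (x y : Bool × Bool) : Prop := x.1 = y.1 → x.2 = y.2

instance (x y : Bool × Bool) : Decidable (Compat x y) := by unfold Compat; infer_instance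

theorem ph_square : ∀ x y z w : Bool × Bool, Compat x y → Compat x z → Compat x w → Compat y w →
    Compat z w → ph x y + ph z w = ph x z + ph y w := by
  decide

theorem row_parity (m : ℕ) (a b : ℕ → Bool × Bool)
    (h1 : ∀ j < m, Compat (a j) (a (j + 1))) (h2 : ∀ j < m, Compat (b j) (b (j + 1)))
    (h3 : ∀ j ≤ m, Compat (a j) (b j)) (h4 : ∀ j < m, Compat (a j) (b (j + 1))) :
    (∑ j ∈ Finset.range m, ph (a j) (a (j + 1))) + (∑ j ∈ Finset.range m, ph (b j) (b (j + 1))) =
      ph (a 0) (b 0) + ph (a m) (b m) := by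
  induction m with
  | zero =>
    simp only [Finset.range_zero, Finset.sum_empty, add_zero]
    generalize ph (a 0) (b 0) = x
    revert x
    decide
  | succ m ih =>
    rw [Finset.sum_range_succ, Finset.sum_range_succ]
    have e1 := ih (fun j hj => h1 j (by omega)) (fun j hj => h2 j (by omega))
      (fun j hj => h3 j (by omega)) (fun j hj => h4 j (by omega))
    have e2 := ph_square (a m) (a (m + 1)) (b m) (b (m + 1)) (h1 m (by omega)) (h3 m (by omega))
      (h4 m (by omega)) (h3 (m + 1) le_rfl) (h2 m (by omega))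
    have e3 : ∀ x : ZMod 2, x + x = 0 := by decide
    have e4 := e3 (ph (a m) (b m))
    linear_combination e1 + e2 + e4

/-- One monochromatic king step inside the grid `[0, n]²`. -/
def Step (n : ℕ) (χ : ℕ × ℕ → Bool) (x y : ℕ × ℕ) : Prop :=
  x.1 ≤ n ∧ x.2 ≤ n ∧ y.1 ≤ n ∧ y.2 ≤ n ∧ x.1 ≤ y.1 + 1 ∧ y.1 ≤ x.1 + 1 ∧ x.2 ≤ y.2 + 1 ∧
    y.2 ≤ x.2 + 1 ∧ χ x = χ y

theorem Step.symm {n : ℕ} {χ : ℕ × ℕ → Bool} {x y : ℕ × ℕ} (h : Step n χ x y) : Step n χ y x := by
  obtain ⟨h1, h2, h3, h4, h5, h6, h7, h8, h9⟩ := h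
  exact ⟨h3, h4, h1, h2, h6, h5, h8, h7, h9.symm⟩

theorem step_color {n : ℕ} {χ : ℕ × ℕ → Bool} {u x : ℕ × ℕ}
    (h : ReflTransGen (Step n χ) u x) : χ u = χ x := by
  induction h with
  | refl => rfl
  | tail _ h2 ih => exact ih.trans h2.2.2.2.2.2.2.2.2

/-- The coordinate that matters for the colour of a point. -/
def co (b : Bool) (x : ℕ × ℕ) : ℕ := if b = true then x.2 else x.1

/-- A point is marked when its monochromatic component meets the starting side of its colour. -/
def Marked (n : ℕ) (χ : ℕ × ℕ → Bool) (x : ℕ × ℕ) : Prop :=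
  ∃ u, u.1 ≤ n ∧ u.2 ≤ n ∧ co (χ x) u = 0 ∧ ReflTransGen (Step n χ) u x

theorem marked_step {n : ℕ} {χ : ℕ × ℕ → Bool} {x y : ℕ × ℕ} (h : Step n χ x y)
    (hx : Marked n χ x) : Marked n χ y := by
  obtain ⟨u, h1, h2, h3, h4⟩ := hx
  refine ⟨u, h1, h2, ?_, h4.tail h⟩
  rw [← h.2.2.2.2.2.2.2.2]
  exact h3

open Classical in
/-- The padded labelling. -/
noncomputable def lab (n : ℕ) (χ : ℕ × ℕ → Bool) (i j : ℕ) : Bool × Bool :=
  if i = 0 then (false, true) else if n + 2 ≤ i then (false, false)
  else if j = 0 then (true, true) else if n + 2 ≤ j then (true, false)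
  else (χ (i - 1, j - 1), decide (Marked n χ (i - 1, j - 1)))

theorem compat_symm {x y : Bool × Bool} (h : Compat x y) : Compat y x := fun e => (h e.symm).symm

theorem lab_compat (n : ℕ) (χ : ℕ × ℕ → Bool)
    (hno : ∀ x : ℕ × ℕ, x.1 ≤ n → x.2 ≤ n → co (χ x) x = n → ¬ Marked n χ x)
    (i j i' j' : ℕ) (h1 : i ≤ i' + 1) (h2 : i' ≤ i + 1) (h3 : j ≤ j' + 1) (h4 : j' ≤ j + 1) :
    Compat (lab n χ i j) (lab n χ i' j') := by
  classical
  have start : ∀ x : ℕ × ℕ, x.1 ≤ n → x.2 ≤ n → co (χ x) x = 0 → Marked n χ x :=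
    fun x a b c => ⟨x, a, b, c, ReflTransGen.refl⟩
  unfold lab Compat
  split_ifs <;> intro he <;> dsimp only at he ⊢ <;>
    first
    | omega
    | exact Bool.noConfusion he
    | (symm; rw [decide_eq_true_eq]; apply start <;> simp [co, ← he] <;> omega)
    | (rw [decide_eq_true_eq]; apply start <;> simp [co, he] <;> omega)
    | (symm; rw [decide_eq_false_iff_not]; apply hno <;> simp [co, ← he] <;> omega)
    | (rw [decide_eq_false_iff_not]; apply hno <;> simp [co, he] <;> omega)
    | (have hs : Step n χ (i - 1, j - 1) (i' - 1, j' - 1) :=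
          ⟨by simp; omega, by simp; omega, by simp; omega, by simp; omega, by simp; omega,
            by simp; omega, by simp; omega, by simp; omega, he⟩
       rw [decide_eq_decide]
       exact ⟨marked_step hs, marked_step hs.symm⟩)

theorem hex_exists (n : ℕ) (χ : ℕ × ℕ → Bool) :
    ∃ x : ℕ × ℕ, x.1 ≤ n ∧ x.2 ≤ n ∧ co (χ x) x = n ∧ Marked n χ x := by
  by_contra hcon
  push Not at hcon
  have hc := lab_compat n χ hcon
  let H : ℕ → ZMod 2 := fun i => ∑ j ∈ Finset.range (n + 2), ph (lab n χ i j) (lab n χ i (j + 1))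
  have hrow : ∀ i, H i + H (i + 1) =
      ph (lab n χ i 0) (lab n χ (i + 1) 0) + ph (lab n χ i (n + 2)) (lab n χ (i + 1) (n + 2)) :=
    fun i => row_parity (n + 2) (lab n χ i) (lab n χ (i + 1))
      (fun j _ => hc _ _ _ _ (by omega) (by omega) (by omega) (by omega))
      (fun j _ => hc _ _ _ _ (by omega) (by omega) (by omega) (by omega))
      (fun j _ => hc _ _ _ _ (by omega) (by omega) (by omega) (by omega))
      (fun j _ => hc _ _ _ _ (by omega) (by omega) (by omega) (by omega))
  have h0 : H 0 = 0 := by simp [H, lab, ph]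
  have hlast : H (n + 2) = 0 := by simp [H, lab, ph]
  have hmid : ∀ i, i ≤ n + 1 → H (i + 1) = 1 := by
    intro i
    induction i with
    | zero =>
      intro _
      have := hrow 0
      rw [h0] at this
      simpa [lab, ph] using this
    | succ i ih =>
      intro hi
      have e := hrow (i + 1)
      rw [ih (by omega)] at e
      have e1 : ph (lab n χ (i + 1) 0) (lab n χ (i + 1 + 1) 0) = 0 := by
        unfold lab
        split_ifs <;> first | omega | simp [ph]
      have e2 : ph (lab n χ (i + 1) (n + 2)) (lab n χ (i + 1 + 1) (n + 2)) = 0 := by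
        unfold lab
        split_ifs <;> first | omega | simp [ph]
      rw [e1, e2] at e
      have e3 : ∀ x : ZMod 2, 1 + x = 0 + 0 → x = 1 := by decide
      exact e3 _ e
  have := hmid (n + 1) le_rfl
  rw [hlast] at this
  exact absurd this (by decide)

theorem ivt {n : ℕ} {χ : ℕ × ℕ → Bool} (b : Bool) {u x : ℕ × ℕ}
    (h : ReflTransGen (Step n χ) u x) (hu : co b u = 0) (hu1 : u.1 ≤ n) (hu2 : u.2 ≤ n) :
    ∀ m ≤ co b x, ∃ y : ℕ × ℕ, y.1 ≤ n ∧ y.2 ≤ n ∧ co b y = m ∧ ReflTransGen (Step n χ) u y := by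
  induction h with
  | refl =>
    intro m hm
    exact ⟨u, hu1, hu2, by omega, ReflTransGen.refl⟩
  | @tail y z h1 h2 ih =>
    intro m hm
    by_cases hmz : m = co b z
    · exact ⟨z, h2.2.2.1, h2.2.2.2.1, hmz.symm, h1.tail h2⟩
    · apply ih
      obtain ⟨_, _, _, _, a1, a2, a3, a4, _⟩ := h2
      unfold co at *
      split_ifs at * <;> omega

/-- Hex lemma: a two-colouring of the king grid `[0, n]²` has a monochromatic component with
at least `n + 1` points. -/
theorem hex (n : ℕ) (χ : ℕ × ℕ → Bool) :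
    ∃ (u : ℕ × ℕ) (g : Fin (n + 1) → ℕ × ℕ), Function.Injective g ∧
      ∀ k, (g k).1 ≤ n ∧ (g k).2 ≤ n ∧ ReflTransGen (Step n χ) u (g k) := by
  obtain ⟨x, _, _, hx, u, hu1, hu2, hu, hr⟩ := hex_exists n χ
  have := fun k : Fin (n + 1) => ivt (χ x) hr hu hu1 hu2 k (by omega)
  choose g h1 h2 h3 h4 using this
  refine ⟨u, g, fun a b hab => ?_, fun k => ⟨h1 k, h2 k, h4 k⟩⟩
  apply Fin.ext
  rw [← h3 a, ← h3 b, hab]

end Pool.Agent.H511Z.Lay
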