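import Pool.Agent.H511Z.SplitDefs

set_option autoImplicit false

namespace Pool.Agent.H511Z.Split

open Finsupp

/-- Index of the basis vector of kind `c` at stage `k` in block `e`. -/
def idx (e k c : ℕ) : ℕ := 4 * Nat.pair e k + c

theorem idx_eq {e k c e' k' c' : ℕ} (hc : c < 4) (hc' : c' < 4) :
    idx e k c = idx e' k' c' ↔ e = e' ∧ k = k' ∧ c = c' := by
  unfold idx
  constructor
  · intro h
    have h1 : Nat.pair e k = Nat.pair e' k' := by omega
    rw [Nat.pair_eq_pair] at h1
    exact ⟨h1.1, h1.2, by omega⟩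
  · rintro ⟨rfl, rfl, rfl⟩
    rfl

theorem idx_surj (n : ℕ) : ∃ e k, n = idx e k 0 ∨ n = idx e k 1 ∨ n = idx e k 2 ∨ n = idx e k 3 := by
  refine ⟨(Nat.unpair (n / 4)).1, (Nat.unpair (n / 4)).2, ?_⟩
  unfold idx
  rw [Nat.pair_unpair]
  omega

variable {F : Type} [Field F]

/-- Basis vectors. -/
noncomputable def bv (F : Type) [Field F] (e k c : ℕ) : ℕ →₀ F := single (idx e k c) 1

theorem bv_apply (e k c e' k' c' : ℕ) (hc : c < 4) (hc' : c' < 4) :
    bv F e k c (idx e' k' c') = if e = e' ∧ k = k' ∧ c = c' then 1 else 0 := by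
  unfold bv
  rw [single_apply]
  simp only [idx_eq hc hc']

variable (h : ℕ → ℕ → Prop)

/-- The equations of the first subspace. -/
def C1 (e k : ℕ) (v : ℕ → F) : Prop :=
  (k = 0 → v (idx e k 0) + v (idx e k 3) = 0) ∧
  (¬ h e k → v (idx e (k + 1) 0) = v (idx e k 1) ∧ v (idx e k 2) + v (idx e (k + 1) 3) = 0) ∧
  (h e k → v (idx e (k + 1) 0) = 0 ∧ v (idx e k 2) = 0 ∧ v (idx e (k + 1) 1) = 0 ∧
    v (idx e (k + 1) 3) = 0)

/-- The equations of the second subspace. -/
def C2 (e k : ℕ) (v : ℕ → F) : Prop :=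
  (k = 0 → v (idx e k 0) + v (idx e k 1) = 0 ∧ (h e k → v (idx e k 3) = 0)) ∧
  (¬ h e k → v (idx e k 3) + v (idx e k 2) = 0 ∧
    v (idx e (k + 1) 0) + v (idx e (k + 1) 1) = v (idx e k 1) ∧
    (h e (k + 1) → v (idx e (k + 1) 3) = 0))

/-- The first subspace. -/
def V1 (F : Type) [Field F] : Submodule F (ℕ →₀ F) where
  carrier := {v | ∀ e k, C1 h e k v}
  add_mem' := by
    intro x y hx hy e k
    obtain ⟨a1, a2, a3⟩ := hx e k
    obtain ⟨b1, b2, b3⟩ := hy e k
    refine ⟨fun p => ?_, fun p => ⟨?_, ?_⟩, fun p => ⟨?_, ?_, ?_, ?_⟩⟩ <;>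
      simp only [Finsupp.coe_add, Pi.add_apply]
    · linear_combination a1 p + b1 p
    · linear_combination (a2 p).1 + (b2 p).1
    · linear_combination (a2 p).2 + (b2 p).2
    · linear_combination (a3 p).1 + (b3 p).1
    · linear_combination (a3 p).2.1 + (b3 p).2.1
    · linear_combination (a3 p).2.2.1 + (b3 p).2.2.1
    · linear_combination (a3 p).2.2.2 + (b3 p).2.2.2
  zero_mem' := fun e k => by simp [C1]
  smul_mem' := by
    intro c x hx e k
    obtain ⟨a1, a2, a3⟩ := hx e k
    refine ⟨fun p => ?_, fun p => ⟨?_, ?_⟩, fun p => ⟨?_, ?_, ?_, ?_⟩⟩ <;>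
      simp only [Finsupp.coe_smul, Pi.smul_apply, smul_eq_mul]
    · linear_combination c * a1 p
    · linear_combination c * (a2 p).1
    · linear_combination c * (a2 p).2
    · linear_combination c * (a3 p).1
    · linear_combination c * (a3 p).2.1
    · linear_combination c * (a3 p).2.2.1
    · linear_combination c * (a3 p).2.2.2

/-- The second subspace. -/
def V2 (F : Type) [Field F] : Submodule F (ℕ →₀ F) where
  carrier := {v | ∀ e k, C2 h e k v}
  add_mem' := by
    intro x y hx hy e k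
    obtain ⟨a1, a2⟩ := hx e k
    obtain ⟨b1, b2⟩ := hy e k
    refine ⟨fun p => ⟨?_, fun q => ?_⟩, fun p => ⟨?_, ?_, fun q => ?_⟩⟩ <;>
      simp only [Finsupp.coe_add, Pi.add_apply]
    · linear_combination (a1 p).1 + (b1 p).1
    · linear_combination (a1 p).2 q + (b1 p).2 q
    · linear_combination (a2 p).1 + (b2 p).1
    · linear_combination (a2 p).2.1 + (b2 p).2.1
    · linear_combination (a2 p).2.2 q + (b2 p).2.2 q
  zero_mem' := fun e k => by simp [C2]
  smul_mem' := by
    intro c x hx e k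
    obtain ⟨a1, a2⟩ := hx e k
    refine ⟨fun p => ⟨?_, fun q => ?_⟩, fun p => ⟨?_, ?_, fun q => ?_⟩⟩ <;>
      simp only [Finsupp.coe_smul, Pi.smul_apply, smul_eq_mul]
    · linear_combination c * (a1 p).1
    · linear_combination c * (a1 p).2 q
    · linear_combination c * (a2 p).1
    · linear_combination c * (a2 p).2.1
    · linear_combination c * (a2 p).2.2 q

theorem mem_V1 {v : ℕ →₀ F} : v ∈ V1 h F ↔ ∀ e k, C1 h e k v := Iff.rfl
theorem mem_V2 {v : ℕ →₀ F} : v ∈ V2 h F ↔ ∀ e k, C2 h e k v := Iff.rfl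

/-- Stage `k` of block `e` is still alive. -/
def Alive (e k : ℕ) : Prop := ∀ j, j + 1 = k → ¬ h e j

variable {h} (hm : ∀ e k, h e k → h e (k + 1))

theorem a1 (e : ℕ) : bv F e 0 0 - bv F e 0 3 ∈ V1 h F := by
  intro e' k'
  simp only [C1, Finsupp.coe_sub, Pi.sub_apply]
  simp [bv_apply]

theorem a2 {e k : ℕ} (p : ¬ h e k) (q : Alive h e k) : bv F e (k + 1) 0 + bv F e k 1 ∈ V1 h F := by
  intro e' k'
  simp only [C1, Finsupp.coe_add, Pi.add_apply]
  simp only [bv_apply _ _ _ _ _ _ (by norm_num : (0 : ℕ) < 4), bv_apply _ _ _ _ _ _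
    (by norm_num : (1 : ℕ) < 4), Nat.ofNat_pos, Nat.one_lt_ofNat, Nat.lt_add_one,
    (by norm_num : (2 : ℕ) < 4)]
  simp
  refine ⟨by omega, fun p' => ⟨?_, ?_⟩⟩
  · rintro rfl rfl
    exact p p'
  · rintro rfl rfl
    exact q _ rfl p'

theorem a3 {e k : ℕ} (p : ¬ h e k) : bv F e k 2 - bv F e (k + 1) 3 ∈ V1 h F := by
  intro e' k'
  simp only [C1, Finsupp.coe_sub, Pi.sub_apply]
  simp [bv_apply]
  refine ⟨by omega, fun p' => ?_⟩
  rintro rfl rfl
  exact p p'

theorem a4 {e k : ℕ} (p : h e k) (q : Alive h e k) : bv F e k 1 ∈ V1 h F := by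
  intro e' k'
  simp only [C1]
  simp [bv_apply]
  refine ⟨fun p' => ?_, fun p' => ?_⟩
  · rintro rfl rfl
    exact p' p
  · rintro rfl rfl
    exact q _ rfl p'

theorem b1 {e k : ℕ} (p : ¬ h e k) : bv F e k 3 - bv F e k 2 ∈ V2 h F := by
  intro e' k'
  simp only [C2, Finsupp.coe_sub, Pi.sub_apply]
  simp [bv_apply]
  refine ⟨?_, ?_⟩
  · rintro rfl p' rfl rfl
    exact p p'
  · rintro - p' rfl rfl
    exact p p'

theorem b2 (e k : ℕ) : bv F e k 1 - bv F e k 0 + bv F e (k + 1) 0 ∈ V2 h F := by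
  intro e' k'
  simp only [C2, Finsupp.coe_sub, Finsupp.coe_add, Pi.sub_apply, Pi.add_apply]
  simp [bv_apply]
  rintro rfl
  simp

theorem b3 {e k : ℕ} (p : h e k) : bv F e k 1 - bv F e k 0 ∈ V2 h F := by
  intro e' k'
  simp only [C2, Finsupp.coe_sub, Pi.sub_apply]
  simp [bv_apply]
  rintro p' rfl rfl
  exact p' p

theorem b4u {e k : ℕ} (p : h e k) : bv F e (k + 1) 0 ∈ V2 h F := by
  intro e' k'
  simp only [C2]
  simp [bv_apply]
  refine ⟨?_, ?_⟩
  · rintro rfl
    simp
  · rintro p' rfl rfl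
    exact p' p

include hm in
theorem b4z {e k : ℕ} (p : h e k) : bv F e (k + 1) 1 ∈ V2 h F := by
  intro e' k'
  simp only [C2]
  simp [bv_apply]
  refine ⟨?_, ?_⟩
  · rintro rfl
    simp
  · intro p'
    rw [if_neg, if_neg]
    · rintro ⟨rfl, rfl⟩
      exact p' (hm _ _ p)
    · rintro ⟨rfl, rfl⟩
      exact p' p

include hm in
theorem b4s {e k : ℕ} (p : h e k) : bv F e (k + 1) 3 ∈ V2 h F := by
  intro e' k'
  simp only [C2]
  simp [bv_apply]
  refine ⟨?_, fun p' => ⟨?_, ?_⟩⟩
  · rintro rfl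
    simp
  · rintro rfl rfl
    exact p' (hm _ _ p)
  · rintro - rfl rfl
    exact p' p

theorem b4t {e k : ℕ} (p : h e k) : bv F e k 2 ∈ V2 h F := by
  intro e' k'
  simp only [C2]
  simp [bv_apply]
  rintro p' rfl rfl
  exact p' p

theorem down_zero (v : ℕ →₀ F) (e c : ℕ) (hc : c < 4)
    (hs : ∀ k, v (idx e (k + 1) c) = 0 → v (idx e k c) = 0) (k : ℕ) : v (idx e k c) = 0 := by
  by_contra hk
  have h1 : ∀ j, v (idx e (k + j) c) ≠ 0 := by
    intro j
    induction j with
    | zero => exact hk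
    | succ j ih => exact fun h0 => ih (hs _ h0)
  refine Set.infinite_of_injective_forall_mem (f := fun j => idx e (k + j) c)
    (s := (v.support : Set ℕ)) (fun a b hab => ?_) (fun j => ?_) v.support.finite_toSet
  · have := (idx_eq hc hc).1 hab
    omega
  · simpa using h1 j

theorem eq_zero_of (v : ℕ →₀ F) (h0 : ∀ e k, v (idx e k 0) = 0) (h1 : ∀ e k, v (idx e k 1) = 0)
    (h2 : ∀ e k, v (idx e k 2) = 0) (h3 : ∀ e k, v (idx e k 3) = 0) : v = 0 := by
  ext n
  obtain ⟨e, k, rfl | rfl | rfl | rfl⟩ := idx_surj n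
  exacts [h0 e k, h1 e k, h2 e k, h3 e k]

theorem eq_top_of (W : Submodule F (ℕ →₀ F)) (h0 : ∀ e k, bv F e k 0 ∈ W)
    (h1 : ∀ e k, bv F e k 1 ∈ W) (h2 : ∀ e k, bv F e k 2 ∈ W) (h3 : ∀ e k, bv F e k 3 ∈ W) :
    W = ⊤ := by
  rw [eq_top_iff]
  intro v _
  induction v using Finsupp.induction_linear with
  | zero => exact W.zero_mem
  | add f g hf hg => exact W.add_mem (hf trivial) (hg trivial)
  | single a b =>
    have : single a b = b • single a (1 : F) := by simp
    rw [this]
    apply W.smul_mem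
    obtain ⟨e, k, rfl | rfl | rfl | rfl⟩ := idx_surj a
    exacts [h0 e k, h1 e k, h2 e k, h3 e k]

theorem mem_of_sub {W : Submodule F (ℕ →₀ F)} {x y : ℕ →₀ F} (h1 : x - y ∈ W) (h2 : y ∈ W) :
    x ∈ W := by simpa using W.add_mem h1 h2

theorem mem_of_sub' {W : Submodule F (ℕ →₀ F)} {x y : ℕ →₀ F} (h1 : x - y ∈ W) (h2 : x ∈ W) :
    y ∈ W := by simpa using W.sub_mem h2 h1

theorem mem_of_add {W : Submodule F (ℕ →₀ F)} {x y : ℕ →₀ F} (h1 : x + y ∈ W) (h2 : y ∈ W) :
    x ∈ W := by simpa using W.sub_mem h1 h2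

theorem mem_of_add' {W : Submodule F (ℕ →₀ F)} {x y : ℕ →₀ F} (h1 : x + y ∈ W) (h2 : x ∈ W) :
    y ∈ W := by simpa using W.sub_mem h1 h2

include hm in
theorem alive_of_not {e k : ℕ} (p : ¬ h e k) : Alive h e k := by
  rintro j rfl q
  exact p (hm _ _ q)

theorem alive_succ {e k : ℕ} : Alive h e (k + 1) ↔ ¬ h e k := by
  constructor
  · exact fun a => a k rfl
  · intro p j hj
    have : j = k := by omega
    rwa [this]

theorem alive_zero (e : ℕ) : Alive h e 0 := fun j hj => by omega

theorem not_alive {e k : ℕ} (p : ¬ Alive h e k) : ∃ j, k = j + 1 ∧ h e j := by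
  unfold Alive at p
  push Not at p
  obtain ⟨j, rfl, q⟩ := p
  exact ⟨j, rfl, q⟩

include hm in
theorem isCompl12 : IsCompl (V1 h F) (V2 h F) := by
  constructor
  · rw [Submodule.disjoint_def]
    intro v h1 h2
    rw [mem_V1] at h1
    rw [mem_V2] at h2
    have z : ∀ e k, v (idx e (k + 1) 1) = 0 := by
      intro e k
      by_cases p : h e k
      · exact ((h1 e k).2.2 p).2.2.1
      · linear_combination ((h2 e k).2 p).2.1 - ((h1 e k).2.1 p).1
    have s : ∀ e k, v (idx e k 3) = 0 := by
      intro e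
      apply down_zero v e 3 (by norm_num)
      intro k hk
      by_cases p : h e k
      · rcases k with _ | k
        · exact ((h2 e 0).1 rfl).2 p
        · by_cases q : h e k
          · exact ((h1 e k).2.2 q).2.2.2
          · exact ((h2 e k).2 q).2.2 p
      · linear_combination ((h2 e k).2 p).1 - ((h1 e k).2.1 p).2 + hk
    have u0 : ∀ e, v (idx e 0 0) = 0 := fun e => by
      linear_combination (h1 e 0).1 rfl - s e 0
    have z' : ∀ e k, v (idx e k 1) = 0 := by
      intro e k
      rcases k with _ | k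
      · linear_combination ((h2 e 0).1 rfl).1 - u0 e
      · exact z e k
    refine eq_zero_of v (fun e k => ?_) z' (fun e k => ?_) s
    · rcases k with _ | k
      · exact u0 e
      · by_cases p : h e k
        · exact ((h1 e k).2.2 p).1
        · rw [((h1 e k).2.1 p).1, z']
    · by_cases p : h e k
      · exact ((h1 e k).2.2 p).2.1
      · linear_combination ((h1 e k).2.1 p).2 - s e (k + 1)
  · rw [codisjoint_iff]
    have l1 : ∀ {x}, x ∈ V1 h F → x ∈ V1 h F ⊔ V2 h F := fun hx => Submodule.mem_sup_left hx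
    have l2 : ∀ {x}, x ∈ V2 h F → x ∈ V1 h F ⊔ V2 h F := fun hx => Submodule.mem_sup_right hx
    have u : ∀ e k, bv F e k 0 ∈ V1 h F ⊔ V2 h F := by
      intro e k
      by_cases q : Alive h e k
      · by_cases p : h e k
        · exact mem_of_sub' (l2 (b3 p)) (l1 (a4 p q))
        · refine mem_of_sub' (x := bv F e (k + 1) 0 + bv F e k 1) ?_ (l1 (a2 p q))
          have := l2 (b2 (h := h) e k)
          convert this using 1
          abel
      · obtain ⟨j, rfl, p⟩ := not_alive q
        exact l2 (b4u p)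
    have t : ∀ e k, bv F e k 3 ∈ V1 h F ⊔ V2 h F → bv F e k 2 ∈ V1 h F ⊔ V2 h F := by
      intro e k hk
      by_cases p : h e k
      · exact l2 (b4t p)
      · exact mem_of_sub' (l2 (b1 p)) hk
    have s : ∀ e k, bv F e k 3 ∈ V1 h F ⊔ V2 h F := by
      intro e k
      induction k with
      | zero => exact mem_of_sub' (l1 (a1 e)) (u e 0)
      | succ k ih =>
        by_cases p : h e k
        · exact l2 (b4s hm p)
        · exact mem_of_sub' (l1 (a3 p)) (t e k ih)
    refine eq_top_of _ u (fun e k => ?_) (fun e k => t e k (s e k)) s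
    exact mem_of_sub (mem_of_add (l2 (b2 e k)) (u e (k + 1))) (u e k)

variable (h)

/-- The second part of the canonical good splitting. -/
def I2 : Set ℕ := {n | ∃ e k, ((∀ j, ¬ h e j) ∧ (n = idx e k 0 ∨ n = idx e k 2)) ∨
  ((∃ j, h e j) ∧ Alive h e k ∧ (n = idx e k 1 ∨ n = idx e k 3))}

variable {h}

theorem I2_0 {e k : ℕ} : idx e k 0 ∈ I2 h ↔ ∀ j, ¬ h e j := by
  simp only [I2, Set.mem_ofPred_eq]
  constructor
  · rintro ⟨e', k', ⟨p, q | q⟩ | ⟨_, _, q | q⟩⟩ <;>
      rw [idx_eq (by norm_num) (by norm_num)] at q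
    · rwa [q.1]
    all_goals omega
  · exact fun p => ⟨e, k, Or.inl ⟨p, Or.inl rfl⟩⟩

theorem I2_2 {e k : ℕ} : idx e k 2 ∈ I2 h ↔ ∀ j, ¬ h e j := by
  simp only [I2, Set.mem_ofPred_eq]
  constructor
  · rintro ⟨e', k', ⟨p, q | q⟩ | ⟨_, _, q | q⟩⟩ <;>
      rw [idx_eq (by norm_num) (by norm_num)] at q
    · omega
    · rwa [q.1]
    all_goals omega
  · exact fun p => ⟨e, k, Or.inl ⟨p, Or.inr rfl⟩⟩

theorem I2_1 {e k : ℕ} : idx e k 1 ∈ I2 h ↔ (∃ j, h e j) ∧ Alive h e k := by
  simp only [I2, Set.mem_ofPred_eq]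
  constructor
  · rintro ⟨e', k', ⟨p, q | q⟩ | ⟨p, p', q | q⟩⟩ <;>
      rw [idx_eq (by norm_num) (by norm_num)] at q
    · omega
    · omega
    · rw [q.1, q.2.1]; exact ⟨p, p'⟩
    · omega
  · exact fun p => ⟨e, k, Or.inr ⟨p.1, p.2, Or.inl rfl⟩⟩

theorem I2_3 {e k : ℕ} : idx e k 3 ∈ I2 h ↔ (∃ j, h e j) ∧ Alive h e k := by
  simp only [I2, Set.mem_ofPred_eq]
  constructor
  · rintro ⟨e', k', ⟨p, q | q⟩ | ⟨p, p', q | q⟩⟩ <;>
      rw [idx_eq (by norm_num) (by norm_num)] at q
    · omega
    · omega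
    · omega
    · rw [q.1, q.2.1]; exact ⟨p, p'⟩
  · exact fun p => ⟨e, k, Or.inr ⟨p.1, p.2, Or.inr rfl⟩⟩

include hm in
theorem isCompl1 : IsCompl (V1 h F) (supported F F (I2 h)ᶜ) := by
  constructor
  · rw [Submodule.disjoint_def]
    intro v h1 h2
    rw [mem_V1] at h1
    rw [mem_supported'] at h2
    simp only [Set.mem_compl_iff, not_not] at h2
    have key : ∀ e k, v (idx e k 0) = 0 ∧ v (idx e k 1) = 0 ∧ v (idx e k 2) = 0 ∧
        v (idx e k 3) = 0 := by
      intro e
      by_cases H : ∃ j, h e j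
      · have z : ∀ k, v (idx e k 1) = 0 := by
          intro k
          by_cases q : Alive h e k
          · exact h2 _ (I2_1.2 ⟨H, q⟩)
          · obtain ⟨j, rfl, p⟩ := not_alive q
            exact ((h1 e j).2.2 p).2.2.1
        have s : ∀ k, v (idx e k 3) = 0 := by
          intro k
          by_cases q : Alive h e k
          · exact h2 _ (I2_3.2 ⟨H, q⟩)
          · obtain ⟨j, rfl, p⟩ := not_alive q
            exact ((h1 e j).2.2 p).2.2.2
        intro k
        refine ⟨?_, z k, ?_, s k⟩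
        · rcases k with _ | k
          · linear_combination (h1 e 0).1 rfl - s 0
          · by_cases p : h e k
            · exact ((h1 e k).2.2 p).1
            · rw [((h1 e k).2.1 p).1, z]
        · by_cases p : h e k
          · exact ((h1 e k).2.2 p).2.1
          · linear_combination ((h1 e k).2.1 p).2 - s (k + 1)
      · push Not at H
        have u : ∀ k, v (idx e k 0) = 0 := fun k => h2 _ (I2_0.2 H)
        have t : ∀ k, v (idx e k 2) = 0 := fun k => h2 _ (I2_2.2 H)
        intro k
        refine ⟨u k, ?_, t k, ?_⟩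
        · rw [← ((h1 e k).2.1 (H k)).1, u]
        · rcases k with _ | k
          · linear_combination (h1 e 0).1 rfl - u 0
          · linear_combination ((h1 e k).2.1 (H k)).2 - t k
    exact eq_zero_of v (fun e k => (key e k).1) (fun e k => (key e k).2.1)
      (fun e k => (key e k).2.2.1) (fun e k => (key e k).2.2.2)
  · rw [codisjoint_iff]
    have l1 : ∀ {x}, x ∈ V1 h F → x ∈ V1 h F ⊔ supported F F (I2 h)ᶜ :=
      fun hx => Submodule.mem_sup_left hx
    have l2 : ∀ {e k c}, idx e k c ∉ I2 h → bv F e k c ∈ V1 h F ⊔ supported F F (I2 h)ᶜ :=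
      fun hx => Submodule.mem_sup_right (single_mem_supported F 1 hx)
    have key : ∀ e k, bv F e k 0 ∈ V1 h F ⊔ supported F F (I2 h)ᶜ ∧
        bv F e k 1 ∈ V1 h F ⊔ supported F F (I2 h)ᶜ ∧
        bv F e k 2 ∈ V1 h F ⊔ supported F F (I2 h)ᶜ ∧
        bv F e k 3 ∈ V1 h F ⊔ supported F F (I2 h)ᶜ := by
      intro e
      by_cases H : ∃ j, h e j
      · have H' : ¬ ∀ j, ¬ h e j := fun a => H.elim a
        have u : ∀ k, bv F e k 0 ∈ V1 h F ⊔ supported F F (I2 h)ᶜ :=
          fun k => l2 (fun a => H' (I2_0.1 a))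
        have t : ∀ k, bv F e k 2 ∈ V1 h F ⊔ supported F F (I2 h)ᶜ :=
          fun k => l2 (fun a => H' (I2_2.1 a))
        intro k
        refine ⟨u k, ?_, t k, ?_⟩
        · by_cases q : Alive h e k
          · by_cases p : h e k
            · exact l1 (a4 p q)
            · exact mem_of_add' (l1 (a2 p q)) (u _)
          · exact l2 (fun a => q (I2_1.1 a).2)
        · by_cases q : Alive h e k
          · rcases k with _ | k
            · exact mem_of_sub' (l1 (a1 e)) (u 0)
            · exact mem_of_sub' (l1 (a3 (alive_succ.1 q))) (t k)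
          · exact l2 (fun a => q (I2_3.1 a).2)
      · have z : ∀ k, bv F e k 1 ∈ V1 h F ⊔ supported F F (I2 h)ᶜ :=
          fun k => l2 (fun a => H (I2_1.1 a).1)
        have s : ∀ k, bv F e k 3 ∈ V1 h F ⊔ supported F F (I2 h)ᶜ :=
          fun k => l2 (fun a => H (I2_3.1 a).1)
        push Not at H
        intro k
        refine ⟨?_, z k, mem_of_sub (l1 (a3 (H k))) (s _), s k⟩
        rcases k with _ | k
        · exact mem_of_sub (l1 (a1 e)) (s 0)
        · exact mem_of_add (l1 (a2 (H k) (alive_of_not hm (H k)))) (z k)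
    exact eq_top_of _ (fun e k => (key e k).1) (fun e k => (key e k).2.1)
      (fun e k => (key e k).2.2.1) (fun e k => (key e k).2.2.2)

include hm in
theorem isCompl2 : IsCompl (V2 h F) (supported F F (I2 h)) := by
  constructor
  · rw [Submodule.disjoint_def]
    intro v h1 h2
    rw [mem_V2] at h1
    rw [mem_supported'] at h2
    have key : ∀ e k, v (idx e k 0) = 0 ∧ v (idx e k 1) = 0 ∧ v (idx e k 2) = 0 ∧
        v (idx e k 3) = 0 := by
      intro e
      by_cases H : ∃ j, h e j
      · have H' : ¬ ∀ j, ¬ h e j := fun a => H.elim a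
        have u : ∀ k, v (idx e k 0) = 0 := fun k => h2 _ (fun a => H' (I2_0.1 a))
        have t : ∀ k, v (idx e k 2) = 0 := fun k => h2 _ (fun a => H' (I2_2.1 a))
        intro k
        refine ⟨u k, ?_, t k, ?_⟩
        · induction k with
          | zero => linear_combination ((h1 e 0).1 rfl).1 - u 0
          | succ k ih =>
            by_cases p : h e k
            · exact h2 _ (fun a => alive_succ.1 (I2_1.1 a).2 p)
            · linear_combination ((h1 e k).2 p).2.1 - u (k + 1) + ih
        · by_cases p : h e k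
          · rcases k with _ | k
            · exact ((h1 e 0).1 rfl).2 p
            · by_cases q : h e k
              · exact h2 _ (fun a => alive_succ.1 (I2_3.1 a).2 q)
              · exact ((h1 e k).2 q).2.2 p
          · linear_combination ((h1 e k).2 p).1 - t k
      · have z : ∀ k, v (idx e k 1) = 0 := fun k => h2 _ (fun a => H (I2_1.1 a).1)
        have s : ∀ k, v (idx e k 3) = 0 := fun k => h2 _ (fun a => H (I2_3.1 a).1)
        push Not at H
        intro k
        refine ⟨?_, z k, ?_, s k⟩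
        · rcases k with _ | k
          · linear_combination ((h1 e 0).1 rfl).1 - z 0
          · linear_combination ((h1 e k).2 (H k)).2.1 - z (k + 1) + z k
        · linear_combination ((h1 e k).2 (H k)).1 - s k
    exact eq_zero_of v (fun e k => (key e k).1) (fun e k => (key e k).2.1)
      (fun e k => (key e k).2.2.1) (fun e k => (key e k).2.2.2)
  · rw [codisjoint_iff]
    have l1 : ∀ {x}, x ∈ V2 h F → x ∈ V2 h F ⊔ supported F F (I2 h) :=
      fun hx => Submodule.mem_sup_left hx
    have l2 : ∀ {e k c}, idx e k c ∈ I2 h → bv F e k c ∈ V2 h F ⊔ supported F F (I2 h) :=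
      fun hx => Submodule.mem_sup_right (single_mem_supported F 1 hx)
    have key : ∀ e k, bv F e k 0 ∈ V2 h F ⊔ supported F F (I2 h) ∧
        bv F e k 1 ∈ V2 h F ⊔ supported F F (I2 h) ∧
        bv F e k 2 ∈ V2 h F ⊔ supported F F (I2 h) ∧
        bv F e k 3 ∈ V2 h F ⊔ supported F F (I2 h) := by
      intro e
      by_cases H : ∃ j, h e j
      · have z : ∀ k, bv F e k 1 ∈ V2 h F ⊔ supported F F (I2 h) := by
          intro k
          by_cases q : Alive h e k
          · exact l2 (I2_1.2 ⟨H, q⟩)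
          · obtain ⟨j, rfl, p⟩ := not_alive q
            exact l1 (b4z hm p)
        have s : ∀ k, bv F e k 3 ∈ V2 h F ⊔ supported F F (I2 h) := by
          intro k
          by_cases q : Alive h e k
          · exact l2 (I2_3.2 ⟨H, q⟩)
          · obtain ⟨j, rfl, p⟩ := not_alive q
            exact l1 (b4s hm p)
        obtain ⟨j, hj⟩ := H
        have hj' : ∀ d, h e (j + d) := by
          intro d
          induction d with
          | zero => exact hj
          | succ d ih => exact hm _ _ ih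
        have step : ∀ k, bv F e (k + 1) 0 ∈ V2 h F ⊔ supported F F (I2 h) →
            bv F e k 0 ∈ V2 h F ⊔ supported F F (I2 h) := fun k hk =>
          mem_of_sub' (mem_of_add (l1 (b2 e k)) hk) (z k)
        have u : ∀ d k, bv F e (k + d) 0 ∈ V2 h F ⊔ supported F F (I2 h) →
            bv F e k 0 ∈ V2 h F ⊔ supported F F (I2 h) := by
          intro d
          induction d with
          | zero => exact fun k hk => hk
          | succ d ih => exact fun k hk => ih k (step _ hk)
        intro k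
        refine ⟨u (j + 1) k ?_, z k, ?_, s k⟩
        · have e1 : k + (j + 1) = (j + k) + 1 := by omega
          rw [e1]
          exact l1 (b4u (hj' k))
        · by_cases p : h e k
          · exact l1 (b4t p)
          · exact mem_of_sub' (l1 (b1 p)) (s k)
      · push Not at H
        have u : ∀ k, bv F e k 0 ∈ V2 h F ⊔ supported F F (I2 h) := fun k => l2 (I2_0.2 H)
        have t : ∀ k, bv F e k 2 ∈ V2 h F ⊔ supported F F (I2 h) := fun k => l2 (I2_2.2 H)
        intro k
        exact ⟨u k, mem_of_sub (mem_of_add (l1 (b2 e k)) (u _)) (u k), t k,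
          mem_of_sub (l1 (b1 (H k))) (t k)⟩
    exact eq_top_of _ (fun e k => (key e k).1) (fun e k => (key e k).2.1)
      (fun e k => (key e k).2.2.1) (fun e k => (key e k).2.2.2)

theorem decomp {V : Submodule F (ℕ →₀ F)} {I : Set ℕ} (hc : IsCompl V (supported F F I))
    (y : ℕ →₀ F) : ∃ w ∈ V, ∀ m, m ∉ I → w m = y m := by
  have : y ∈ V ⊔ supported F F I := by rw [hc.sup_eq_top]; trivial
  obtain ⟨w, hw, x, hx, rfl⟩ := Submodule.mem_sup.1 this
  refine ⟨w, hw, fun m hmI => ?_⟩
  rw [mem_supported'] at hx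
  simp [hx m hmI]

theorem forced {I : Set ℕ} (c1 : IsCompl (V1 h F) (supported F F I))
    (c2 : IsCompl (V2 h F) (supported F F Iᶜ)) (e : ℕ) : idx e 0 3 ∈ I ↔ ∀ j, ¬ h e j := by
  have pA : idx e 0 0 ∉ I → idx e 0 3 ∉ I → False := by
    intro p q
    obtain ⟨w, hw, hx⟩ := decomp c1 (bv F e 0 0)
    have := (hw e 0).1 rfl
    rw [hx _ p, hx _ q] at this
    simp [bv_apply] at this
  have pB : ∀ k, ¬ h e k → idx e (k + 1) 0 ∉ I → idx e k 1 ∉ I → False := by
    intro k r p q
    obtain ⟨w, hw, hx⟩ := decomp c1 (bv F e (k + 1) 0)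
    have := ((hw e k).2.1 r).1
    rw [hx _ p, hx _ q] at this
    simp [bv_apply] at this
  have pC : ∀ k, ¬ h e k → idx e k 2 ∉ I → idx e (k + 1) 3 ∉ I → False := by
    intro k r p q
    obtain ⟨w, hw, hx⟩ := decomp c1 (bv F e k 2)
    have := ((hw e k).2.1 r).2
    rw [hx _ p, hx _ q] at this
    simp [bv_apply] at this
  have pD : ∀ k, ¬ h e k → idx e k 3 ∈ I → idx e k 2 ∈ I → False := by
    intro k r p q
    obtain ⟨w, hw, hx⟩ := decomp c2 (bv F e k 3)
    have := ((hw e k).2 r).1
    rw [hx _ (by simpa using p), hx _ (by simpa using q)] at this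
    simp [bv_apply] at this
  have pE : ∀ k, Alive h e k → h e k → idx e k 3 ∈ I → False := by
    intro k q r p
    obtain ⟨w, hw, hx⟩ := decomp c2 (bv F e k 3)
    have : w (idx e k 3) = 0 := by
      rcases k with _ | k
      · exact ((hw e 0).1 rfl).2 r
      · exact ((hw e k).2 (alive_succ.1 q)).2.2 r
    rw [hx _ (by simpa using p)] at this
    simp [bv_apply] at this
  constructor
  · intro h0
    have key : ∀ k, Alive h e k ∧ idx e k 3 ∈ I := by
      intro k
      induction k with
      | zero => exact ⟨alive_zero e, h0⟩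
      | succ k ih =>
        have r : ¬ h e k := fun r => pE k ih.1 r ih.2
        refine ⟨alive_succ.2 r, ?_⟩
        by_contra q
        exact pC k r (fun p => pD k r ih.2 p) q
    exact fun j r => pE j (key j).1 r (key j).2
  · intro H
    by_contra h0
    have hu : idx e 0 0 ∈ I := by
      by_contra p
      exact pA p h0
    obtain ⟨w, hw, hx⟩ := decomp c2 (bv F e 0 0)
    have key : ∀ k, w (idx e k 1) = -1 := by
      intro k
      induction k with
      | zero =>
        have := ((hw e 0).1 rfl).1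
        rw [hx _ (by simpa using hu)] at this
        simp only [bv_apply _ _ _ _ _ _ (by norm_num : (0 : ℕ) < 4) (by norm_num : (0 : ℕ) < 4),
          and_self, if_true] at this
        linear_combination this
      | succ k ih =>
        have hz : idx e k 1 ∉ I := by
          intro p
          rw [hx _ (by simpa using p)] at ih
          simp [bv_apply] at ih
        have hu' : idx e (k + 1) 0 ∈ I := by
          by_contra p
          exact pB k (H k) p hz
        have := ((hw e k).2 (H k)).2.1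
        rw [hx _ (by simpa using hu'), ih] at this
        simpa [bv_apply] using this
    have := down_zero w e 1 (by norm_num) (fun k hk => by
      rw [key] at hk
      simp at hk) 0
    rw [key] at this
    simp at this

end Pool.Agent.H511Z.Split
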