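import Pool.Agent.H511Z.SplitAlg

set_option autoImplicit false

namespace Pool.Agent.H511Z.Split

open Finsupp

section closure

variable {α : Type} [Primcodable α]

theorem cp_and {p q : α → Prop} (hp : ComputablePred p) (hq : ComputablePred q) :
    ComputablePred fun a => p a ∧ q a := by
  classical
  refine ⟨inferInstance, ?_⟩
  exact ((Primrec.and.to_comp.comp hp.decide hq.decide)).of_eq fun a => by simp

theorem cp_imp {p q : α → Prop} (hp : ComputablePred p) (hq : ComputablePred q) :
    ComputablePred fun a => p a → q a :=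
  (cp_and hp hq.not).not.of_eq fun a => by tauto

theorem cp_eq {β : Type} [Primcodable β] {f g : α → β} (hf : Computable f) (hg : Computable g) :
    ComputablePred fun a => f a = g a := by
  classical
  exact ⟨inferInstance, (Primrec.eq.decide.to_comp.comp hf hg)⟩

theorem cp_comp {β : Type} [Primcodable β] {p : β → Prop} (hp : ComputablePred p) {f : α → β}
    (hf : Computable f) : ComputablePred fun a => p (f a) := by
  classical
  exact ⟨inferInstance, hp.decide.comp hf⟩

theorem cp_ball {p : α × ℕ → Prop} (hp : ComputablePred p) {N : α → ℕ} (hN : Computable N) :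
    ComputablePred fun a => ∀ m < N a, p (a, m) := by
  classical
  refine ⟨inferInstance, ?_⟩
  have h1 : Computable fun a => (Nat.rec true (fun j b => b && decide (p (a, j))) (N a) : Bool) := by
    refine Computable.nat_rec hN (Computable.const true)
      (h := fun a (x : ℕ × Bool) => x.2 && decide (p (a, x.1))) ?_
    exact Primrec.and.to_comp.comp (Computable.snd.comp Computable.snd)
      (hp.decide.comp (Computable.fst.pair (Computable.fst.comp Computable.snd)))
  refine h1.of_eq fun a => ?_
  have key : ∀ n : ℕ, (Nat.rec true (fun j b => b && decide (p (a, j))) n : Bool) =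
      decide (∀ m < n, p (a, m)) := ?_
  · exact (key (N a)).trans (by rw [decide_eq_decide])
  intro n
  induction n with
  | zero => simp
  | succ n ih =>
    simp only [ih]
    rw [← Bool.decide_and, decide_eq_decide]
    constructor
    · rintro ⟨h1, h2⟩ m hm
      rcases (Nat.lt_succ_iff.1 hm).eq_or_lt with rfl | h
      · exact h2
      · exact h1 m h
    · exact fun h => ⟨fun m hm => h m (by omega), h n (by omega)⟩

end closure

open Nat.Partrec Nat.Partrec.Code

/-- Program number `e` halts on input `0` within `k` steps. -/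
def hlt (e k : ℕ) : Prop := (evaln k (Denumerable.ofNat Code e) 0).isSome = true

theorem hlt_mono (e k : ℕ) (p : hlt e k) : hlt e (k + 1) := by
  unfold hlt at *
  rw [Option.isSome_iff_exists] at *
  obtain ⟨x, hx⟩ := p
  exact ⟨x, evaln_mono (Nat.le_succ k) hx⟩

theorem hlt_iff (c : Code) : (∃ j, hlt (Encodable.encode c) j) ↔ (eval c 0).Dom := by
  unfold hlt
  simp only [Denumerable.ofNat_encode, Option.isSome_iff_exists, Part.dom_iff_mem, evaln_complete]
  constructor
  · rintro ⟨j, x, h⟩
    exact ⟨x, j, h⟩
  · rintro ⟨x, j, h⟩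
    exact ⟨j, x, h⟩

theorem cp_hlt {α : Type} [Primcodable α] {f g : α → ℕ} (hf : Computable f) (hg : Computable g) :
    ComputablePred fun a => hlt (f a) (g a) := by
  unfold hlt
  refine cp_eq ?_ (Computable.const true)
  exact Primrec.option_isSome.to_comp.comp (primrec_evaln.to_comp.comp
    ((hg.pair ((Primrec.ofNat Code).to_comp.comp hf)).pair (Computable.const 0)))

variable {F : Type} [Field F] [Primcodable F]

omit [Primcodable F] in
theorem vec_apply (l : List F) (i : ℕ) : vec l i = l.getD i 0 := rfl

theorem comp_E : Computable fun p : List F × ℕ => (Nat.unpair p.2).1 :=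
  (Primrec.fst.comp (Primrec.unpair.comp Primrec.snd)).to_comp

theorem comp_K : Computable fun p : List F × ℕ => (Nat.unpair p.2).2 :=
  (Primrec.snd.comp (Primrec.unpair.comp Primrec.snd)).to_comp

theorem comp_K1 : Computable fun p : List F × ℕ => (Nat.unpair p.2).2 + 1 :=
  (Primrec.succ.comp (Primrec.snd.comp (Primrec.unpair.comp Primrec.snd))).to_comp

theorem prim_idx (c : ℕ) : Primrec₂ fun e k => idx e k c := by
  unfold idx
  exact Primrec.nat_add.comp (Primrec.nat_mul.comp (Primrec.const 4) Primrec₂.natPair)
    (Primrec.const c)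

theorem comp_co (c : ℕ) : Computable fun p : List F × ℕ =>
    vec p.1 (idx (Nat.unpair p.2).1 (Nat.unpair p.2).2 c) :=
  (Primrec.list_getD (0 : F)).to_comp.comp Computable.fst
    ((prim_idx c).to_comp.comp comp_E comp_K)

theorem comp_co1 (c : ℕ) : Computable fun p : List F × ℕ =>
    vec p.1 (idx (Nat.unpair p.2).1 ((Nat.unpair p.2).2 + 1) c) :=
  (Primrec.list_getD (0 : F)).to_comp.comp Computable.fst
    ((prim_idx c).to_comp.comp comp_E comp_K1)

omit [Primcodable F] in
theorem vec_big (l : List F) {e k : ℕ} (h : l.length ≤ Nat.pair e k) (c : ℕ) :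
    vec l (idx e k c) = 0 ∧ vec l (idx e (k + 1) c) = 0 := by
  have := Nat.pair_lt_pair_right e (Nat.lt_succ_self k)
  constructor <;>
  · rw [vec_apply]
    apply List.getD_eq_default
    unfold idx
    simp only [Nat.succ_eq_add_one] at this
    omega

theorem dec_V1 (hadd : Computable₂ fun a b : F => a + b) :
    IsDec (V1 hlt F : Set (ℕ →₀ F)) := by
  have h1 : ComputablePred fun p : List F × ℕ =>
      C1 hlt (Nat.unpair p.2).1 (Nat.unpair p.2).2 (vec p.1) := by
    unfold C1
    have z : Computable fun _ : List F × ℕ => (0 : F) := Computable.const 0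
    refine cp_and (cp_imp (cp_eq comp_K (Computable.const 0))
      (cp_eq (hadd.comp (comp_co 0) (comp_co 3)) z)) (cp_and
      (cp_imp (cp_hlt comp_E comp_K).not (cp_and (cp_eq (comp_co1 0) (comp_co 1))
        (cp_eq (hadd.comp (comp_co 2) (comp_co1 3)) z)))
      (cp_imp (cp_hlt comp_E comp_K) (cp_and (cp_eq (comp_co1 0) z) (cp_and (cp_eq (comp_co 2) z)
        (cp_and (cp_eq (comp_co1 1) z) (cp_eq (comp_co1 3) z))))))
  refine (cp_ball h1 Primrec.list_length.to_comp).of_eq fun l => ?_
  simp only [SetLike.mem_coe, mem_V1]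
  constructor
  · intro H e k
    by_cases hb : Nat.pair e k < l.length
    · simpa [Nat.unpair_pair] using H _ hb
    · have := vec_big l (not_lt.1 hb)
      simp [C1, this]
  · exact fun H m _ => H _ _

theorem dec_V2 (hadd : Computable₂ fun a b : F => a + b) :
    IsDec (V2 hlt F : Set (ℕ →₀ F)) := by
  have h1 : ComputablePred fun p : List F × ℕ =>
      C2 hlt (Nat.unpair p.2).1 (Nat.unpair p.2).2 (vec p.1) := by
    unfold C2
    have z : Computable fun _ : List F × ℕ => (0 : F) := Computable.const 0
    refine cp_and (cp_imp (cp_eq comp_K (Computable.const 0))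
      (cp_and (cp_eq (hadd.comp (comp_co 0) (comp_co 1)) z)
        (cp_imp (cp_hlt comp_E comp_K) (cp_eq (comp_co 3) z))))
      (cp_imp (cp_hlt comp_E comp_K).not (cp_and (cp_eq (hadd.comp (comp_co 3) (comp_co 2)) z)
        (cp_and (cp_eq (hadd.comp (comp_co1 0) (comp_co1 1)) (comp_co 1))
          (cp_imp (cp_hlt comp_E comp_K1) (cp_eq (comp_co1 3) z)))))
  refine (cp_ball h1 Primrec.list_length.to_comp).of_eq fun l => ?_
  simp only [SetLike.mem_coe, mem_V2]
  constructor
  · intro H e k
    by_cases hb : Nat.pair e k < l.length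
    · simpa [Nat.unpair_pair] using H _ hb
    · have := vec_big l (not_lt.1 hb)
      simp [C2, this]
  · exact fun H m _ => H _ _

/-- The standard basis. -/
def stdB (F : Type) [Field F] : Set (ℕ →₀ F) := Set.range fun i => single i (1 : F)

theorem dec_stdB : IsDec (stdB F) := by
  classical
  have g1 : Computable fun p : (List F × ℕ) × ℕ => vec p.1.1 p.2 :=
    (Primrec.list_getD (0 : F)).to_comp.comp (Computable.fst.comp Computable.fst) Computable.snd
  have h1 : ComputablePred fun p : (List F × ℕ) × ℕ => ¬ p.2 = p.1.2 → vec p.1.1 p.2 = 0 :=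
    cp_imp (cp_eq Computable.snd (Computable.snd.comp Computable.fst)).not
      (cp_eq g1 (Computable.const 0))
  have h2 := cp_ball h1 (N := fun p : List F × ℕ => p.1.length)
    (Primrec.list_length.to_comp.comp Computable.fst)
  have g2 : Computable fun p : List F × ℕ => vec p.1 p.2 :=
    (Primrec.list_getD (0 : F)).to_comp.comp Computable.fst Computable.snd
  have h3 := (cp_and (cp_eq g2 (Computable.const 1)) h2).not
  refine (cp_ball h3 Primrec.list_length.to_comp).not.of_eq fun l => ?_
  have big : ∀ i, l.length ≤ i → vec l i = 0 := fun i hi => List.getD_eq_default _ _ hi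
  simp only [stdB, Set.mem_range, not_forall, not_not]
  constructor
  · rintro ⟨m, _, h1, h2⟩
    refine ⟨m, ?_⟩
    ext i
    by_cases him : i = m
    · rw [him, h1, single_eq_same]
    · rw [single_eq_of_ne him]
      by_cases hi : i < l.length
      · exact (h2 i hi him).symm
      · exact (big i (not_lt.1 hi)).symm
  · rintro ⟨m, hm⟩
    have h1 : vec l m = 1 := by rw [← hm, single_eq_same]
    refine ⟨m, ?_, h1, fun i _ him => ?_⟩
    · by_contra hi
      rw [big m (not_lt.1 hi)] at h1
      exact zero_ne_one h1
    · rw [← hm, single_eq_of_ne him]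

/-- The coordinate list of a standard basis vector. -/
def unitList (F : Type) [Field F] (n : ℕ) : List F :=
  (List.range (n + 1)).map fun i => if i = n then 1 else 0

theorem comp_unitList : Computable (unitList F) := by
  unfold unitList
  refine (Primrec.list_map (Primrec.list_range.comp Primrec.succ) ?_).to_comp
  exact Primrec.ite (Primrec.eq.comp Primrec.snd Primrec.fst) (Primrec.const 1) (Primrec.const 0)

omit [Primcodable F] in
theorem vec_unitList (n : ℕ) : vec (unitList F n) = single n 1 := by
  ext i
  rw [vec_apply, single_apply]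
  unfold unitList
  by_cases hi : i < n + 1
  · rw [List.getD_eq_getElem _ _ (by simpa using hi)]
    simp [eq_comm]
  · rw [List.getD_eq_default _ _ (by simpa using not_lt.1 hi), if_neg (by omega)]

omit [Primcodable F] in
theorem single_inj : Function.Injective fun i : ℕ => single i (1 : F) :=
  fun _ _ h => single_left_injective one_ne_zero h

omit [Primcodable F] in
theorem good_exists : ∃ B₁ B₂, GoodSplitting (V1 hlt F) (V2 hlt F) (stdB F) B₁ B₂ := by
  refine ⟨(fun i => single i 1) '' (I2 hlt)ᶜ, (fun i => single i 1) '' (I2 hlt), ?_, ?_, ?_, ?_⟩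
  · rw [← Set.image_union, Set.compl_union_self, Set.image_univ]
    rfl
  · exact (Set.disjoint_image_iff single_inj).2 disjoint_compl_left
  · rw [← supported_eq_span_single]
    exact isCompl1 hlt_mono
  · rw [← supported_eq_span_single]
    exact isCompl2 hlt_mono

theorem good_not_dec {B₁ B₂ : Set (ℕ →₀ F)}
    (hg : GoodSplitting (V1 hlt F) (V2 hlt F) (stdB F) B₁ B₂) : ¬ IsDec B₁ ∧ ¬ IsDec B₂ := by
  obtain ⟨hu, hd, c1, c2⟩ := hg
  let I : Set ℕ := {n | single n (1 : F) ∈ B₁}
  have hcompl : ∀ n, single n (1 : F) ∈ B₂ ↔ n ∉ I := by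
    intro n
    constructor
    · exact fun h2 h1 => Set.disjoint_left.1 hd h1 h2
    · intro h1
      have : single n (1 : F) ∈ B₁ ∪ B₂ := by rw [hu]; exact ⟨n, rfl⟩
      exact this.resolve_left h1
  have e1 : B₁ = (fun i => single i 1) '' I := by
    ext x
    constructor
    · intro hx
      have : x ∈ stdB F := by rw [← hu]; exact Or.inl hx
      obtain ⟨n, rfl⟩ := this
      exact ⟨n, hx, rfl⟩
    · rintro ⟨n, hn, rfl⟩
      exact hn
  have e2 : B₂ = (fun i => single i 1) '' Iᶜ := by
    ext x
    constructor
    · intro hx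
      have : x ∈ stdB F := by rw [← hu]; exact Or.inr hx
      obtain ⟨n, rfl⟩ := this
      exact ⟨n, (hcompl n).1 hx, rfl⟩
    · rintro ⟨n, hn, rfl⟩
      exact (hcompl n).2 hn
  rw [e1, ← supported_eq_span_single] at c1
  rw [e2, ← supported_eq_span_single] at c2
  have hf := forced c1 c2
  have hc : Computable fun c : Code => unitList F (idx (Encodable.encode c) 0 3) :=
    comp_unitList.comp ((prim_idx 3).to_comp.comp Computable.encode (Computable.const 0))
  constructor
  · intro hdec
    apply ComputablePred.halting_problem 0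
    refine (cp_comp hdec hc).not.of_eq fun c => ?_
    rw [vec_unitList, ← hlt_iff]
    change idx (Encodable.encode c) 0 3 ∉ I ↔ _
    rw [hf]
    simp
  · intro hdec
    apply ComputablePred.halting_problem 0
    refine (cp_comp hdec hc).of_eq fun c => ?_
    rw [vec_unitList, ← hlt_iff, hcompl, hf]
    simp

omit [Primcodable F] in
theorem stdB_indep : LinearIndepOn F id (stdB F) := by
  have := (Finsupp.basisSingleOne (R := F) (ι := ℕ)).linearIndependent.linearIndepOn_id
  simpa [stdB] using this

omit [Primcodable F] in
theorem stdB_span : Submodule.span F (stdB F) = ⊤ := by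
  have := (Finsupp.basisSingleOne (R := F) (ι := ℕ)).span_eq
  simpa [stdB] using this

end Pool.Agent.H511Z.Split
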