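import Mathlib

set_option autoImplicit false

namespace Pool.Agent.H511Z.Split

variable {F : Type} [Field F]

/-- The vector of `V_∞ = ℕ →₀ F` whose coordinates are listed by `l` (and are zero afterwards). -/
noncomputable def vec (l : List F) : ℕ →₀ F :=
  Finsupp.onFinset (Finset.range l.length) (fun i => l.getD i 0) fun i hi => by
    by_contra h
    apply hi
    rw [Finset.mem_range, not_lt] at h
    exact List.getD_eq_default _ _ h

/-- A subset of `V_∞` is decidable when membership is computable from a list of coordinates. -/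
def IsDec [Primcodable F] (S : Set (ℕ →₀ F)) : Prop :=
  ComputablePred fun l : List F => vec l ∈ S

/-- `B = B₁ ⊔ B₂` is a good splitting of `B` with respect to `(V₁, V₂)`. -/
def GoodSplitting (V₁ V₂ : Submodule F (ℕ →₀ F)) (B B₁ B₂ : Set (ℕ →₀ F)) : Prop :=
  B₁ ∪ B₂ = B ∧ Disjoint B₁ B₂ ∧
    IsCompl V₁ (Submodule.span F B₁) ∧ IsCompl V₂ (Submodule.span F B₂)

end Pool.Agent.H511Z.Split
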